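import Pool.Agent.Lib.MP_4d246d_lc.Local.Unique

/-!
# Padding a linear program

For a linear program `P` we add decision variables `u_i` with constraints `u_i + f_i·x ≤ C_i`, and
constraints `g_i·x ≤ H_i`.  At the vertices of interest `u_i = C_i - f_i·x > 0`, and the additional
constraints `g_i·x ≤ H_i` are not tight.
-/

namespace Pool.Agent.Lib.MP_4d246d_lc.Local

open Finset

variable {n k : ℕ} {ι κ : Type} [Fintype ι] [Fintype κ]

/-- The padded linear program. -/
noncomputable def pad (P : LP n k) (f : ι → Fin n → ℚ) (C : ι → ℚ) (g : κ → Fin n → ℚ)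
    (H : κ → ℚ) :
    LP (n + Fintype.card ι) (k + (Fintype.card ι + Fintype.card κ)) where
  A := Fin.append (fun i => Fin.append (P.A i) 0)
    (Fin.append (fun i => Fin.append (f ((Fintype.equivFin ι).symm i)) (Pi.single i 1))
      (fun i => Fin.append (g ((Fintype.equivFin κ).symm i)) 0))
  b := Fin.append P.b (Fin.append (fun i => C ((Fintype.equivFin ι).symm i))
      (fun i => H ((Fintype.equivFin κ).symm i)))
  c := Fin.append P.c 0

/-- value of a functional -/
noncomputable def fv (f : Fin n → ℚ) (x : Fin n → ℝ) : ℝ := ∑ j, (f j : ℝ) * x j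

/-- index of a decision variable `u_i` -/
noncomputable def uIdx (n : ℕ) (i : ι) : Fin (n + Fintype.card ι) :=
  Fin.natAdd n (Fintype.equivFin ι i)

/-- index of the constraint `u_i + f_i·x ≤ C_i` -/
noncomputable def rIdx (k : ℕ) (κ : Type) [Fintype κ] (i : ι) :
    Fin (k + (Fintype.card ι + Fintype.card κ)) :=
  Fin.natAdd k (Fin.castAdd _ (Fintype.equivFin ι i))

/-- index of the constraint `g_i·x ≤ H_i` -/
noncomputable def sIdx (k : ℕ) (ι : Type) [Fintype ι] (i : κ) :
    Fin (k + (Fintype.card ι + Fintype.card κ)) :=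
  Fin.natAdd k (Fin.natAdd _ (Fintype.equivFin κ i))

/-- the lifted point -/
noncomputable def lift (f : ι → Fin n → ℚ) (C : ι → ℚ) (x : Fin n → ℝ) :
    Fin (n + Fintype.card ι) → ℝ :=
  Fin.append x fun i => (C ((Fintype.equivFin ι).symm i) : ℝ) -
    fv (f ((Fintype.equivFin ι).symm i)) x

/-- the variables of `P` as variables of the padded linear program -/
def emb (n k : ℕ) (ι κ : Type) [Fintype ι] [Fintype κ] :
    Fin n ⊕ Fin k → Fin (n + Fintype.card ι) ⊕ Fin (k + (Fintype.card ι + Fintype.card κ)) :=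
  Sum.map (Fin.castAdd _) (Fin.castAdd _)

lemma emb_injective : Function.Injective (emb n k ι κ) :=
  Sum.map_injective.2 ⟨Fin.castAdd_injective _ _, Fin.castAdd_injective _ _⟩

/-- case distinction for the variables of the padded linear program -/
lemma var_cases {p : Fin (n + Fintype.card ι) ⊕ Fin (k + (Fintype.card ι + Fintype.card κ)) →
    Prop} (h1 : ∀ v, p (emb n k ι κ v)) (h2 : ∀ i : ι, p (Sum.inl (uIdx n i)))
    (h3 : ∀ i : ι, p (Sum.inr (rIdx k κ i))) (h4 : ∀ i : κ, p (Sum.inr (sIdx k ι i))) :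
    ∀ v, p v := by
  rintro (j | i)
  · refine Fin.addCases (fun j => h1 (Sum.inl j)) (fun j => ?_) j
    have := h2 ((Fintype.equivFin ι).symm j)
    simpa [uIdx] using this
  · refine Fin.addCases (fun i => h1 (Sum.inr i)) (fun i => ?_) i
    refine Fin.addCases (fun i => ?_) (fun i => ?_) i
    · have := h3 ((Fintype.equivFin ι).symm i)
      simpa [rIdx] using this
    · have := h4 ((Fintype.equivFin κ).symm i)
      simpa [sIdx] using this

/-- sums over the decision variables -/
lemma sum_dec {M : Type*} [AddCommMonoid M] (F : Fin (n + Fintype.card ι) → M) :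
    ∑ j, F j = ∑ j, F (Fin.castAdd _ j) + ∑ i : ι, F (uIdx n i) := by
  rw [Fin.sum_univ_add]
  congr 1
  exact (Equiv.sum_comp (Fintype.equivFin ι) fun i => F (Fin.natAdd n i)).symm

/-- sums over the constraints -/
lemma sum_con {M : Type*} [AddCommMonoid M]
    (F : Fin (k + (Fintype.card ι + Fintype.card κ)) → M) :
    ∑ j, F j = ∑ j, F (Fin.castAdd _ j) + (∑ i : ι, F (rIdx k κ i) +
      ∑ i : κ, F (sIdx k ι i)) := by
  rw [Fin.sum_univ_add, Fin.sum_univ_add]
  congr 1
  congr 1
  · exact (Equiv.sum_comp (Fintype.equivFin ι) fun i =>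
      F (Fin.natAdd k (Fin.castAdd _ i))).symm
  · exact (Equiv.sum_comp (Fintype.equivFin κ) fun i =>
      F (Fin.natAdd k (Fin.natAdd _ i))).symm

section

variable (P : LP n k) (f : ι → Fin n → ℚ) (C : ι → ℚ) (g : κ → Fin n → ℚ) (H : κ → ℚ)

lemma pad_val_emb (z : Fin (n + Fintype.card ι) → ℝ) (v : Fin n ⊕ Fin k) :
    (pad P f C g H).val z (emb n k ι κ v) = P.val (fun j => z (Fin.castAdd _ j)) v := by
  rcases v with j | i
  · simp [LP.val, emb]
  · simp [LP.val, emb, pad, Fin.sum_univ_add]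

lemma pad_val_u (z : Fin (n + Fintype.card ι) → ℝ) (i : ι) :
    (pad P f C g H).val z (Sum.inl (uIdx n i)) = z (uIdx n i) := rfl

lemma pad_val_r (z : Fin (n + Fintype.card ι) → ℝ) (i : ι) :
    (pad P f C g H).val z (Sum.inr (rIdx k κ i)) =
      C i - fv (f i) (fun j => z (Fin.castAdd _ j)) - z (uIdx n i) := by
  have h : ∑ x, (((Pi.single ((Fintype.equivFin ι) i) 1 : Fin (Fintype.card ι) → ℚ) x : ℚ) : ℝ) *
      z (Fin.natAdd n x) = z (uIdx n i) := by
    rw [Finset.sum_eq_single ((Fintype.equivFin ι) i)]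
    · simp [uIdx]
    · intro j _ hj; simp [hj]
    · simp
  simp only [LP.val, rIdx, pad, Fin.sum_univ_add, fv, Sum.elim_inr, Fin.append_left,
    Fin.append_right, Equiv.symm_apply_apply, h]
  ring

lemma pad_val_s (z : Fin (n + Fintype.card ι) → ℝ) (i : κ) :
    (pad P f C g H).val z (Sum.inr (sIdx k ι i)) =
      H i - fv (g i) (fun j => z (Fin.castAdd _ j)) := by
  simp [LP.val, sIdx, pad, Fin.sum_univ_add, fv]

lemma pad_obj (z : Fin (n + Fintype.card ι) → ℝ) :
    (pad P f C g H).obj z = P.obj (fun j => z (Fin.castAdd _ j)) := by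
  simp [LP.obj, pad, Fin.sum_univ_add]

lemma lift_castAdd (x : Fin n → ℝ) : (fun j => lift f C x (Fin.castAdd _ j)) = x := by
  funext j; simp [lift]

lemma lift_u (x : Fin n → ℝ) (i : ι) : lift f C x (uIdx n i) = C i - fv (f i) x := by
  simp [lift, uIdx]

lemma lift_val_emb (x : Fin n → ℝ) (v : Fin n ⊕ Fin k) :
    (pad P f C g H).val (lift f C x) (emb n k ι κ v) = P.val x v := by
  rw [pad_val_emb, lift_castAdd]

lemma lift_val_u (x : Fin n → ℝ) (i : ι) :
    (pad P f C g H).val (lift f C x) (Sum.inl (uIdx n i)) = C i - fv (f i) x := by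
  rw [pad_val_u, lift_u]

lemma lift_val_r (x : Fin n → ℝ) (i : ι) :
    (pad P f C g H).val (lift f C x) (Sum.inr (rIdx k κ i)) = 0 := by
  rw [pad_val_r, lift_castAdd, lift_u]; ring

lemma lift_val_s (x : Fin n → ℝ) (i : κ) :
    (pad P f C g H).val (lift f C x) (Sum.inr (sIdx k ι i)) = H i - fv (g i) x := by
  rw [pad_val_s, lift_castAdd]

lemma lift_obj (x : Fin n → ℝ) : (pad P f C g H).obj (lift f C x) = P.obj x := by
  rw [pad_obj, lift_castAdd]

/-- `x` satisfies the additional constraints strictly -/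
def Good (x : Fin n → ℝ) : Prop := (∀ i, fv (f i) x < C i) ∧ ∀ i, fv (g i) x < H i

/-- `x` is determined by its tight constraints -/
def Rigid (x : Fin n → ℝ) : Prop := ∀ z, (∀ v, P.val x v = 0 → P.val z v = 0) → z = x

/-- the common tight constraints of `x` and `y` determine a line -/
def Line (x y : Fin n → ℝ) : Prop :=
  ∀ z, (∀ v, P.val x v = 0 → P.val y v = 0 → P.val z v = 0) → ∃ t : ℝ, z = (1 - t) • x + t • y

variable {P f C g H}

lemma ext_lift {z : Fin (n + Fintype.card ι) → ℝ} {x : Fin n → ℝ}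
    (h1 : (fun j => z (Fin.castAdd _ j)) = x) (h2 : ∀ i, z (uIdx n i) = C i - fv (f i) x) :
    z = lift f C x := by
  funext j
  refine Fin.addCases (fun j => ?_) (fun j => ?_) j
  · rw [← h1]; simp [lift]
  · have := h2 ((Fintype.equivFin ι).symm j)
    simpa [uIdx, lift] using this

lemma lift_feasible {x : Fin n → ℝ} (hx : x ∈ P.feasible) (hg : Good f C g H x) :
    lift f C x ∈ (pad P f C g H).feasible := by
  rw [LP.mem_feasible] at hx ⊢
  refine var_cases (fun v => ?_) (fun i => ?_) (fun i => ?_) (fun i => ?_)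
  · rw [lift_val_emb]; exact hx v
  · rw [lift_val_u]; linarith [hg.1 i]
  · rw [lift_val_r]
  · rw [lift_val_s]; linarith [hg.2 i]

lemma lift_rigid {x : Fin n → ℝ} (hr : Rigid P x) : Rigid (pad P f C g H) (lift f C x) := by
  intro z hz
  have h1 : (fun j => z (Fin.castAdd _ j)) = x := by
    refine hr _ fun v hv => ?_
    rw [← pad_val_emb P f C g H]
    refine hz _ ?_
    rw [lift_val_emb, hv]
  refine ext_lift h1 fun i => ?_
  have h2 := hz _ (lift_val_r P f C g H x i)
  rw [pad_val_r, h1] at h2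
  linarith

lemma fv_comb (f : Fin n → ℚ) (x y : Fin n → ℝ) (a b : ℝ) :
    fv f (a • x + b • y) = a * fv f x + b * fv f y := by
  simp only [fv, Pi.add_apply, Pi.smul_apply, smul_eq_mul, Finset.mul_sum,
    ← Finset.sum_add_distrib]
  exact Finset.sum_congr rfl fun j _ => by ring

lemma lift_line {x y : Fin n → ℝ} (hl : Line P x y) :
    Line (pad P f C g H) (lift f C x) (lift f C y) := by
  intro z hz
  obtain ⟨t, ht⟩ := hl (fun j => z (Fin.castAdd _ j)) fun v hv hv' => by
    rw [← pad_val_emb P f C g H]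
    refine hz _ ?_ ?_
    · rw [lift_val_emb, hv]
    · rw [lift_val_emb, hv']
  refine ⟨t, ?_⟩
  have h3 : z = lift f C ((1 - t) • x + t • y) := by
    refine ext_lift ht fun i => ?_
    have h2 := hz _ (lift_val_r P f C g H x i) (lift_val_r P f C g H y i)
    rw [pad_val_r, ht] at h2
    linarith
  rw [h3]
  symm
  refine ext_lift ?_ fun i => ?_
  · funext j
    simp [lift]
  · simp only [Pi.add_apply, Pi.smul_apply, smul_eq_mul, lift_u, fv_comb]
    ring

lemma lift_isVertex {x : Fin n → ℝ} (hx : x ∈ P.feasible) (hr : Rigid P x)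
    (hg : Good f C g H x) : (pad P f C g H).IsVertex (lift f C x) :=
  LP.isVertex_of_rigid _ (lift_feasible hx hg) (lift_rigid hr)

/-- Transfer of pivot steps. -/
lemma lift_isNeighbor {x y : Fin n → ℝ} (hx : x ∈ P.feasible) (hrx : Rigid P x)
    (hgx : Good f C g H x) (hy : y ∈ P.feasible) (hry : Rigid P y) (hgy : Good f C g H y)
    (hl : Line P x y) {v w : Fin n ⊕ Fin k} (hv : P.val x v = 0) (hv' : 0 < P.val y v)
    (hw : 0 < P.val x w) (hw' : P.val y w = 0)
    (h : ∀ w, w ≠ v → P.val x w = 0 → P.val y w = 0) :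
    (pad P f C g H).IsNeighbor (lift f C x) (emb n k ι κ v) (lift f C y) := by
  have hne : lift f C x ≠ lift f C y := by
    intro hcon
    have h1 := lift_val_emb P f C g H x v
    rw [hcon, lift_val_emb] at h1
    linarith
  refine ⟨?_, ?_, ?_, ?_⟩
  · refine LP.isEdge_of_line _ (lift_isVertex hx hrx hgx) (lift_isVertex hy hry hgy) hne
      (lift_line hl) (v := emb n k ι κ v) (w := emb n k ι κ w) ?_ ?_ ?_ ?_
    · rw [lift_val_emb]; exact hv
    · rw [lift_val_emb]; exact hv'
    · rw [lift_val_emb]; exact hw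
    · rw [lift_val_emb]; exact hw'
  · rw [lift_val_emb]; exact hv
  · rw [lift_val_emb]; exact hv'
  · refine var_cases (fun u => ?_) (fun i => ?_) (fun i => ?_) (fun i => ?_)
    · intro hu hu'
      rw [lift_val_emb] at hu' ⊢
      exact h u (fun hh => hu (by rw [hh])) hu'
    · intro _ hu'
      rw [lift_val_u] at hu'
      linarith [hgx.1 i]
    · intro _ _
      rw [lift_val_r]
    · intro _ hu'
      rw [lift_val_s] at hu'
      linarith [hgx.2 i]

/-- reduced costs of the padded linear program -/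
noncomputable def extq (ι κ : Type) [Fintype ι] [Fintype κ] (q : Fin n ⊕ Fin k → ℝ) :
    Fin (n + Fintype.card ι) ⊕ Fin (k + (Fintype.card ι + Fintype.card κ)) → ℝ :=
  Sum.elim (Fin.append (fun j => q (Sum.inl j)) 0) (Fin.append (fun i => q (Sum.inr i)) 0)

lemma extq_emb (q : Fin n ⊕ Fin k → ℝ) (v : Fin n ⊕ Fin k) :
    extq ι κ q (emb n k ι κ v) = q v := by
  rcases v with j | i <;> simp [extq, emb]

lemma extq_u (q : Fin n ⊕ Fin k → ℝ) (i : ι) : extq ι κ q (Sum.inl (uIdx n i)) = 0 := by
  simp [extq, uIdx]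

lemma extq_r (q : Fin n ⊕ Fin k → ℝ) (i : ι) : extq ι κ q (Sum.inr (rIdx k κ i)) = 0 := by
  simp only [extq, rIdx, Sum.elim_inr, Fin.append_right, Pi.zero_apply]

lemma extq_s (q : Fin n ⊕ Fin k → ℝ) (i : κ) : extq ι κ q (Sum.inr (sIdx k ι i)) = 0 := by
  simp only [extq, sIdx, Sum.elim_inr, Fin.append_right, Pi.zero_apply]

lemma lift_isReducedCost {x : Fin n → ℝ} {q : Fin n ⊕ Fin k → ℝ} (hq : P.IsReducedCost x q) :
    (pad P f C g H).IsReducedCost (lift f C x) (extq ι κ q) := by
  constructor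
  · refine var_cases (fun v => ?_) (fun i => ?_) (fun i => ?_) (fun i => ?_)
    · rw [lift_val_emb, extq_emb]; exact hq.1 v
    · rw [extq_u]; exact fun _ => rfl
    · rw [extq_r]; exact fun _ => rfl
    · rw [extq_s]; exact fun _ => rfl
  · intro z
    rw [pad_obj, lift_obj, hq.2, Fintype.sum_sum_type, Fintype.sum_sum_type, sum_dec, sum_con]
    have h1 : ∑ i : ι, extq ι κ q (Sum.inl (uIdx n i)) *
        (pad P f C g H).val z (Sum.inl (uIdx n i)) = 0 :=
      Finset.sum_eq_zero fun i _ => by rw [extq_u, zero_mul]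
    have h2 : ∑ i : ι, extq ι κ q (Sum.inr (rIdx k κ i)) *
        (pad P f C g H).val z (Sum.inr (rIdx k κ i)) = 0 :=
      Finset.sum_eq_zero fun i _ => by rw [extq_r, zero_mul]
    have h3 : ∑ i : κ, extq ι κ q (Sum.inr (sIdx k ι i)) *
        (pad P f C g H).val z (Sum.inr (sIdx k ι i)) = 0 :=
      Finset.sum_eq_zero fun i _ => by rw [extq_s, zero_mul]
    have h4 : ∀ j, extq ι κ q (Sum.inl (Fin.castAdd _ j)) *
        (pad P f C g H).val z (Sum.inl (Fin.castAdd _ j)) =
        q (Sum.inl j) * P.val (fun j => z (Fin.castAdd _ j)) (Sum.inl j) := by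
      intro j
      have e1 := extq_emb (ι := ι) (κ := κ) q (Sum.inl j)
      have e2 := pad_val_emb P f C g H z (Sum.inl j)
      simp only [emb, Sum.map_inl] at e1 e2
      rw [e1, e2]
    have h5 : ∀ j, extq ι κ q (Sum.inr (Fin.castAdd _ j)) *
        (pad P f C g H).val z (Sum.inr (Fin.castAdd _ j)) =
        q (Sum.inr j) * P.val (fun j => z (Fin.castAdd _ j)) (Sum.inr j) := by
      intro j
      have e1 := extq_emb (ι := ι) (κ := κ) q (Sum.inr j)
      have e2 := pad_val_emb P f C g H z (Sum.inr j)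
      simp only [emb, Sum.map_inr] at e1 e2
      rw [e1, e2]
    rw [h1, h2, h3, Finset.sum_congr rfl fun j _ => h4 j, Finset.sum_congr rfl fun j _ => h5 j]
    ring

lemma lift_reducedCost_unique {x : Fin n → ℝ} (hr : Rigid P x) (hg : Good f C g H x)
    (T : Finset (Fin n ⊕ Fin k)) (hT : ∀ v, P.val x v = 0 → v ∈ T) (hcard : T.card ≤ n)
    {q : Fin n ⊕ Fin k → ℝ} (hq : P.IsReducedCost x q)
    {q' : Fin (n + Fintype.card ι) ⊕ Fin (k + (Fintype.card ι + Fintype.card κ)) → ℝ}
    (hq' : (pad P f C g H).IsReducedCost (lift f C x) q') : q' = extq ι κ q := by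
  classical
  refine LP.reducedCost_unique_of_card _ (lift_rigid hr)
    (T.image (emb n k ι κ) ∪ (Finset.univ : Finset ι).image fun i => Sum.inr (rIdx k κ i))
    ?_ ?_ (lift_isReducedCost hq) hq'
  · refine var_cases (fun v => ?_) (fun i => ?_) (fun i => ?_) (fun i => ?_)
    · intro hv
      rw [lift_val_emb] at hv
      exact Finset.mem_union_left _ (Finset.mem_image_of_mem _ (hT v hv))
    · intro hv
      rw [lift_val_u] at hv
      linarith [hg.1 i]
    · intro _
      exact Finset.mem_union_right _ (Finset.mem_image_of_mem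
        (fun i => (Sum.inr (rIdx k κ i) : Fin (n + Fintype.card ι) ⊕
          Fin (k + (Fintype.card ι + Fintype.card κ)))) (Finset.mem_univ i))
    · intro hv
      rw [lift_val_s] at hv
      linarith [hg.2 i]
  · calc _ ≤ (T.image (emb n k ι κ)).card +
        ((Finset.univ : Finset ι).image fun i => (Sum.inr (rIdx k κ i) :
          Fin (n + Fintype.card ι) ⊕ Fin (k + (Fintype.card ι + Fintype.card κ)))).card :=
        Finset.card_union_le _ _
      _ ≤ T.card + Fintype.card ι :=
        Nat.add_le_add Finset.card_image_le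
          (Finset.card_image_le.trans (by rw [Finset.card_univ]))
      _ ≤ n + Fintype.card ι := by omega

end

end Pool.Agent.Lib.MP_4d246d_lc.Local
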