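import Pool.Agent.Lib.MP_4d246d_lc.Local.Tables
import Pool.Agent.Lib.MP_4d246d_lc.Local.Pad

/-!
# The unpadded linear programs
-/

namespace Pool.Agent.Lib.MP_4d246d_lc.Local

open Finset

/-- Weights of the blocks. -/
structure Wt where
  /-- half the length of the edges -/
  g : ℕ → ℤ
  /-- scale factor of the constraints -/
  u : ℕ → ℤ
  /-- weight of the additional decision variables -/
  q : ℕ → ℤ
  g_pos : ∀ p, 1 ≤ g p
  u_pos : ∀ p, 1 ≤ u p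
  q_nonneg : ∀ p, 0 ≤ q p
  g_le : ∀ p, g p ≤ p + 1
  u_le : ∀ p, u p ≤ p + 1
  q_le : ∀ p, q p ≤ 4 * (p + 1)

/-- `prev X ℓ = X (ℓ - 1)`, and `0` for `ℓ = 0`. -/
def prev (X : ℕ → ℝ) : ℕ → ℝ
  | 0 => 0
  | ℓ + 1 => X ℓ

/-- the block at level `ℓ` -/
def blk {m : ℕ} (σ : Equiv.Perm (Fin m)) (ℓ : ℕ) : ℕ :=
  if h : ℓ < m then (σ.symm ⟨ℓ, h⟩ : ℕ) else 0

lemma blk_eq {m : ℕ} (σ : Equiv.Perm (Fin m)) (p : Fin m) : blk σ (σ p) = p := by
  simp [blk]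

/-- bound for the first coordinates -/
def XS (W : Wt) {m : ℕ} (σ : Equiv.Perm (Fin m)) : ℕ → ℤ
  | 0 => 0
  | ℓ + 1 => 4 * W.g (blk σ ℓ) + 2 * XS W σ ℓ

/-- row index -/
def row {m : ℕ} (p : Fin m) (f : Fin 8) : Fin (m * 8) := finProdFinEquiv (p, f)

/-- column index -/
def col {m : ℕ} (ℓ : Fin m) (i : Fin 4) : Fin (m * 4) := finProdFinEquiv (ℓ, i)

/-- entries of the constraint matrix -/
def entA (W : Wt) {m : ℕ} (σ : Equiv.Perm (Fin m)) (p : Fin m) (f : Fin 8) (ℓ : Fin m)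
    (i : Fin 4) : ℤ :=
  -(W.u p * ((if ℓ = σ p then co f i else 0) +
    if (ℓ : ℕ) + 1 = (σ p : ℕ) ∧ i = 0 then cp f else 0))

/-- entries of the right-hand side -/
def entB (W : Wt) {m : ℕ} (σ : Equiv.Perm (Fin m)) (p : Fin m) (f : Fin 8) : ℤ :=
  W.u p * (k1 f + kg f * W.g p + kX f * XS W σ (σ p) - co f 0 * (XS W σ (σ p + 1) + 1) -
    cp f * if (σ p : ℕ) = 0 then 0 else XS W σ (σ p) + 1)

/-- The linear program. -/
def core (W : Wt) {m : ℕ} (σ : Equiv.Perm (Fin m)) : LP (m * 4) (m * 8) where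
  A i j := (entA W σ (finProdFinEquiv.symm i).1 (finProdFinEquiv.symm i).2
    (finProdFinEquiv.symm j).1 (finProdFinEquiv.symm j).2 : ℚ)
  b i := (entB W σ (finProdFinEquiv.symm i).1 (finProdFinEquiv.symm i).2 : ℚ)
  c j := if ((finProdFinEquiv.symm j).1 : ℕ) + 1 = m ∧ (finProdFinEquiv.symm j).2 = 0 then 1 else 0

/-- The point with given coordinates. -/
noncomputable def pt (W : Wt) {m : ℕ} (σ : Equiv.Perm (Fin m)) (V : ℕ → Fin 4 → ℝ) :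
    Fin (m * 4) → ℝ := fun j =>
  V (finProdFinEquiv.symm j).1 (finProdFinEquiv.symm j).2 +
    if (finProdFinEquiv.symm j).2 = 0 then (XS W σ ((finProdFinEquiv.symm j).1 + 1) : ℝ) + 1 else 0

lemma pt_col (W : Wt) {m : ℕ} (σ : Equiv.Perm (Fin m)) (V : ℕ → Fin 4 → ℝ) (ℓ : Fin m)
    (i : Fin 4) : pt W σ V (col ℓ i) = V ℓ i + if i = 0 then (XS W σ (ℓ + 1) : ℝ) + 1 else 0 := by
  simp only [pt, col, Equiv.symm_apply_apply]

lemma exists_col {m : ℕ} (j : Fin (m * 4)) : ∃ ℓ i, j = col ℓ i :=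
  ⟨(finProdFinEquiv.symm j).1, (finProdFinEquiv.symm j).2, by
    rw [col, Prod.mk.eta, Equiv.apply_symm_apply]⟩

lemma exists_row {m : ℕ} (j : Fin (m * 8)) : ∃ p f, j = row p f :=
  ⟨(finProdFinEquiv.symm j).1, (finProdFinEquiv.symm j).2, by
    rw [row, Prod.mk.eta, Equiv.apply_symm_apply]⟩

lemma sum_cols {m : ℕ} {M : Type*} [AddCommMonoid M] (F : Fin (m * 4) → M) :
    ∑ j, F j = ∑ ℓ, ∑ i, F (col ℓ i) := by
  rw [← Equiv.sum_comp finProdFinEquiv F, Fintype.sum_prod_type]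
  rfl

lemma sum_rows {m : ℕ} {M : Type*} [AddCommMonoid M] (F : Fin (m * 8) → M) :
    ∑ j, F j = ∑ p, ∑ f, F (row p f) := by
  rw [← Equiv.sum_comp finProdFinEquiv F, Fintype.sum_prod_type]
  rfl

lemma exists_pt (W : Wt) {m : ℕ} (σ : Equiv.Perm (Fin m)) (z : Fin (m * 4) → ℝ) :
    ∃ V : ℕ → Fin 4 → ℝ, z = pt W σ V := by
  refine ⟨fun ℓ i => if h : ℓ < m then z (col ⟨ℓ, h⟩ i) -
    (if i = 0 then (XS W σ (ℓ + 1) : ℝ) + 1 else 0) else 0, ?_⟩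
  funext j
  obtain ⟨ℓ, i, rfl⟩ := exists_col j
  rw [pt_col]
  simp only [ℓ.2, dif_pos, Fin.eta]
  ring

lemma pt_congr (W : Wt) {m : ℕ} (σ : Equiv.Perm (Fin m)) {V V' : ℕ → Fin 4 → ℝ}
    (h : ∀ ℓ < m, ∀ i, V ℓ i = V' ℓ i) : pt W σ V = pt W σ V' := by
  funext j
  obtain ⟨ℓ, i, rfl⟩ := exists_col j
  rw [pt_col, pt_col, h ℓ ℓ.2]

lemma val_row (W : Wt) {m : ℕ} (σ : Equiv.Perm (Fin m)) (V : ℕ → Fin 4 → ℝ) (p : Fin m)
    (f : Fin 8) : (core W σ).val (pt W σ V) (Sum.inr (row p f)) =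
      (W.u p : ℝ) * slackR f (W.g p) (XS W σ (σ p)) (V (σ p)) (prev (fun ℓ => V ℓ 0) (σ p)) := by
  have h1 : ∀ ℓ : Fin m, ∑ i, (entA W σ p f ℓ i : ℝ) *
      (V ℓ i + if i = 0 then (XS W σ (ℓ + 1) : ℝ) + 1 else 0) =
      (if ℓ = σ p then -(W.u p : ℝ) * (∑ i, (co f i : ℝ) * V (σ p) i +
        co f 0 * (XS W σ (σ p + 1) + 1)) else 0) +
      if (ℓ : ℕ) + 1 = (σ p : ℕ) then -(W.u p : ℝ) * (cp f * (V ℓ 0 + (XS W σ (ℓ + 1) + 1)))
        else 0 := by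
    intro ℓ
    simp only [entA, Fin.sum_univ_four]
    by_cases h : ℓ = σ p
    · have h' : ¬ (ℓ : ℕ) + 1 = (σ p : ℕ) := by rw [h]; omega
      simp [h]
      ring
    · by_cases h' : (ℓ : ℕ) + 1 = (σ p : ℕ)
      · simp [h, h']
        ring
      · simp [h, h']
  have h2 : ∑ ℓ : Fin m, (if (ℓ : ℕ) + 1 = (σ p : ℕ) then
      -(W.u p : ℝ) * (cp f * (V ℓ 0 + (XS W σ (ℓ + 1) + 1))) else 0) =
      -(W.u p : ℝ) * (cp f * (prev (fun ℓ => V ℓ 0) (σ p) +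
        if (σ p : ℕ) = 0 then 0 else (XS W σ (σ p) : ℝ) + 1)) := by
    rcases hσ : (σ p : ℕ) with _ | L
    · simp [prev]
    · have hL : L < m := by have := (σ p).2; omega
      rw [Finset.sum_eq_single (⟨L, hL⟩ : Fin m)]
      · simp [prev]
      · intro b _ hb
        have : (b : ℕ) + 1 ≠ L + 1 := fun h => hb (Fin.ext (by simpa using h))
        rw [if_neg this]
      · simp
  have h3 : ∑ j, ((core W σ).A (row p f) j : ℝ) * pt W σ V j =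
      -(W.u p : ℝ) * (∑ i, (co f i : ℝ) * V (σ p) i + co f 0 * (XS W σ (σ p + 1) + 1)) +
      -(W.u p : ℝ) * (cp f * (prev (fun ℓ => V ℓ 0) (σ p) +
        if (σ p : ℕ) = 0 then 0 else (XS W σ (σ p) : ℝ) + 1)) := by
    rw [sum_cols]
    have h4 : ∀ ℓ, ∑ i, ((core W σ).A (row p f) (col ℓ i) : ℝ) * pt W σ V (col ℓ i) =
        ∑ i, (entA W σ p f ℓ i : ℝ) *
      (V ℓ i + if i = 0 then (XS W σ (ℓ + 1) : ℝ) + 1 else 0) := by
      intro ℓ
      refine Finset.sum_congr rfl fun i _ => ?_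
      rw [pt_col]
      simp only [core, row, col, Equiv.symm_apply_apply, Rat.cast_intCast]
    rw [Finset.sum_congr rfl fun ℓ _ => (h4 ℓ).trans (h1 ℓ), Finset.sum_add_distrib, h2,
      Finset.sum_ite_eq' Finset.univ (σ p), if_pos (Finset.mem_univ _)]
  simp only [LP.val, Sum.elim_inr, h3]
  simp only [core, row, Equiv.symm_apply_apply, Rat.cast_intCast, entB, slackR]
  push_cast
  split_ifs with h <;> ring

lemma obj_pt (W : Wt) {m : ℕ} (σ : Equiv.Perm (Fin m)) (V : ℕ → Fin 4 → ℝ) :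
    (core W σ).obj (pt W σ V) = prev (fun ℓ => V ℓ 0) m +
      if m = 0 then 0 else (XS W σ m : ℝ) + 1 := by
  rw [LP.obj, sum_cols]
  have h1 : ∀ ℓ : Fin m, ∑ i, ((core W σ).c (col ℓ i) : ℝ) * pt W σ V (col ℓ i) =
      if (ℓ : ℕ) + 1 = m then V ℓ 0 + ((XS W σ (ℓ + 1) : ℝ) + 1) else 0 := by
    intro ℓ
    simp only [pt_col]
    simp only [core, col, Equiv.symm_apply_apply, Fin.sum_univ_four]
    by_cases h : (ℓ : ℕ) + 1 = m
    · simp [h]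
    · simp [h]
  rw [Finset.sum_congr rfl fun ℓ _ => h1 ℓ]
  rcases m with _ | m
  · simp [prev]
  · rw [Finset.sum_eq_single (Fin.last m)]
    · simp [prev]
    · intro b _ hb
      rw [if_neg]
      intro hh
      exact hb (Fin.ext (by simpa using hh))
    · simp

/-! ### Vertices -/

/-- first coordinates of the vertex -/
noncomputable def vx (W : Wt) {m : ℕ} (σ : Equiv.Perm (Fin m)) (π : ℕ → Fin 5) : ℕ → ℝ
  | 0 => posR (π 0) 0 (W.g (blk σ 0)) (XS W σ 0) 0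
  | ℓ + 1 => posR (π (ℓ + 1)) 0 (W.g (blk σ (ℓ + 1))) (XS W σ (ℓ + 1)) (vx W σ π ℓ)

/-- coordinates of the vertex -/
noncomputable def vV (W : Wt) {m : ℕ} (σ : Equiv.Perm (Fin m)) (π : ℕ → Fin 5) (ℓ : ℕ)
    (i : Fin 4) : ℝ := posR (π ℓ) i (W.g (blk σ ℓ)) (XS W σ ℓ) (prev (vx W σ π) ℓ)

lemma vx_eq (W : Wt) {m : ℕ} (σ : Equiv.Perm (Fin m)) (π : ℕ → Fin 5) (ℓ : ℕ) :
    vx W σ π ℓ = posR (π ℓ) 0 (W.g (blk σ ℓ)) (XS W σ ℓ) (prev (vx W σ π) ℓ) := by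
  cases ℓ <;> rfl

lemma vV_zero (W : Wt) {m : ℕ} (σ : Equiv.Perm (Fin m)) (π : ℕ → Fin 5) (ℓ : ℕ) :
    vV W σ π ℓ 0 = vx W σ π ℓ := (vx_eq W σ π ℓ).symm

lemma prev_vV (W : Wt) {m : ℕ} (σ : Equiv.Perm (Fin m)) (π : ℕ → Fin 5) (ℓ : ℕ) :
    prev (fun ℓ => vV W σ π ℓ 0) ℓ = prev (vx W σ π) ℓ := by
  cases ℓ <;> simp [prev, vV_zero]

/-- The vertex of the linear program with given positions. -/
noncomputable def vert (W : Wt) {m : ℕ} (σ : Equiv.Perm (Fin m)) (π : ℕ → Fin 5) :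
    Fin (m * 4) → ℝ := pt W σ (vV W σ π)

lemma val_row_vert (W : Wt) {m : ℕ} (σ : Equiv.Perm (Fin m)) (π : ℕ → Fin 5) (p : Fin m)
    (f : Fin 8) : (core W σ).val (vert W σ π) (Sum.inr (row p f)) =
      (W.u p : ℝ) * (MG (π (σ p)) f * W.g p + ME (π (σ p)) f *
        (XS W σ (σ p) - prev (vx W σ π) (σ p))) := by
  rw [vert, val_row, prev_vV, ← slackR_posR]
  congr 2
  funext i
  rw [vV, blk_eq]

lemma XS_nonneg (W : Wt) {m : ℕ} (σ : Equiv.Perm (Fin m)) (ℓ : ℕ) : 0 ≤ XS W σ ℓ := by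
  induction ℓ with
  | zero => simp [XS]
  | succ ℓ ih => have := W.g_pos (blk σ ℓ); simp only [XS]; linarith

lemma vx_bound (W : Wt) {m : ℕ} (σ : Equiv.Perm (Fin m)) (π : ℕ → Fin 5) (ℓ : ℕ) :
    |prev (vx W σ π) ℓ| ≤ (XS W σ ℓ : ℝ) := by
  induction ℓ with
  | zero => simp [prev, XS]
  | succ ℓ ih =>
    simp only [prev, XS]
    rw [vx_eq, posR, pp0, pX0]
    have hg : (1 : ℝ) ≤ W.g (blk σ ℓ) := by exact_mod_cast W.g_pos (blk σ ℓ)
    have hX : (0 : ℝ) ≤ XS W σ ℓ := by exact_mod_cast XS_nonneg W σ ℓ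
    have h1 : (-4 : ℝ) ≤ pg (π ℓ) 0 := by exact_mod_cast (pg0 (π ℓ)).1
    have h2 : (pg (π ℓ) 0 : ℝ) ≤ 4 := by exact_mod_cast (pg0 (π ℓ)).2
    have ih' := abs_le.1 ih
    have hp : ((pc 0 : ℤ) : ℝ) = 0 := by simp [pc]
    rw [hp]
    push_cast
    rcases kap_cases (π ℓ) with h | h | h <;> rw [h] <;> push_cast <;> rw [abs_le] <;>
      constructor <;> nlinarith

lemma E_nonneg (W : Wt) {m : ℕ} (σ : Equiv.Perm (Fin m)) (π : ℕ → Fin 5) (ℓ : ℕ) :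
    0 ≤ (XS W σ ℓ : ℝ) - prev (vx W σ π) ℓ := by
  linarith [(abs_le.1 (vx_bound W σ π ℓ)).2]

lemma gpos (W : Wt) (p : ℕ) : (0 : ℝ) < W.g p := by
  have : (1 : ℝ) ≤ W.g p := by exact_mod_cast W.g_pos p
  linarith

lemma upos (W : Wt) (p : ℕ) : (0 : ℝ) < W.u p := by
  have : (1 : ℝ) ≤ W.u p := by exact_mod_cast W.u_pos p
  linarith

lemma val_row_vert_nonneg (W : Wt) {m : ℕ} (σ : Equiv.Perm (Fin m)) (π : ℕ → Fin 5) (p : Fin m)
    (f : Fin 8) : 0 ≤ (core W σ).val (vert W σ π) (Sum.inr (row p f)) := by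
  rw [val_row_vert]
  have h1 : (0 : ℝ) ≤ MG (π (σ p)) f := by exact_mod_cast MG_nonneg _ _
  have h2 : (0 : ℝ) ≤ ME (π (σ p)) f := by exact_mod_cast ME_nonneg _ _
  have h3 := E_nonneg W σ π (σ p)
  have h4 := gpos W p
  have h5 := upos W p
  positivity

lemma val_row_vert_eq_zero (W : Wt) {m : ℕ} (σ : Equiv.Perm (Fin m)) (π : ℕ → Fin 5) (p : Fin m)
    {f : Fin 8} (h : tight (π (σ p)) f) :
    (core W σ).val (vert W σ π) (Sum.inr (row p f)) = 0 := by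
  rw [val_row_vert, (MG_tight _ _ h).1, (MG_tight _ _ h).2]
  simp

lemma val_row_vert_pos (W : Wt) {m : ℕ} (σ : Equiv.Perm (Fin m)) (π : ℕ → Fin 5) (p : Fin m)
    {f : Fin 8} (h : ¬ tight (π (σ p)) f) :
    0 < (core W σ).val (vert W σ π) (Sum.inr (row p f)) := by
  rw [val_row_vert]
  have h1 : (0 : ℝ) < MG (π (σ p)) f := by exact_mod_cast MG_pos _ _ h
  have h2 : (0 : ℝ) ≤ ME (π (σ p)) f := by exact_mod_cast ME_nonneg _ _
  have h3 := E_nonneg W σ π (σ p)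
  have h4 := gpos W p
  have h5 := upos W p
  positivity

lemma val_row_vert_eq_zero_iff (W : Wt) {m : ℕ} (σ : Equiv.Perm (Fin m)) (π : ℕ → Fin 5)
    (p : Fin m) (f : Fin 8) :
    (core W σ).val (vert W σ π) (Sum.inr (row p f)) = 0 ↔ tight (π (σ p)) f := by
  constructor
  · intro h
    by_contra h2
    exact (val_row_vert_pos W σ π p h2).ne' h
  · exact val_row_vert_eq_zero W σ π p

/-- bounds for the coordinates -/
lemma vert_bounds (W : Wt) {m : ℕ} (σ : Equiv.Perm (Fin m)) (π : ℕ → Fin 5) (ℓ : Fin m)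
    (i : Fin 4) : 1 ≤ vert W σ π (col ℓ i) ∧
      vert W σ π (col ℓ i) ≤ 2 * (XS W σ (ℓ + 1) : ℝ) + 1 := by
  rw [vert, pt_col]
  by_cases hi : i = 0
  · subst hi
    have h := abs_le.1 (vx_bound W σ π (ℓ + 1))
    simp only [prev] at h
    rw [vV_zero]
    simp only [if_true]
    constructor <;> linarith [h.1, h.2]
  · rw [if_neg hi, add_zero, vV, posR]
    obtain ⟨h1, h2, h3, h4, h5, h6⟩ := coord_pos (π ℓ) i hi
    have h7 := (pg_abs (π ℓ) i).2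
    have hb := abs_le.1 (vx_bound W σ π ℓ)
    have hg : (1 : ℝ) ≤ W.g (blk σ ℓ) := by exact_mod_cast W.g_pos (blk σ ℓ)
    have e1 : (pc i : ℝ) = 1 := by exact_mod_cast h1
    have e2 : (0 : ℝ) ≤ pg (π ℓ) i := by exact_mod_cast h2
    have e3 : (0 : ℝ) ≤ (pX (π ℓ) i : ℝ) + pp (π ℓ) i := by exact_mod_cast h3
    have e4 : (0 : ℝ) ≤ (pX (π ℓ) i : ℝ) - pp (π ℓ) i := by exact_mod_cast h4
    have e5 : (pX (π ℓ) i : ℝ) + pp (π ℓ) i ≤ 2 := by exact_mod_cast h5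
    have e6 : (pX (π ℓ) i : ℝ) - pp (π ℓ) i ≤ 4 := by exact_mod_cast h6
    have e7 : (pg (π ℓ) i : ℝ) ≤ 6 := by exact_mod_cast h7
    have hX : (XS W σ (ℓ + 1) : ℝ) = 4 * W.g (blk σ ℓ) + 2 * XS W σ ℓ := by
      simp only [XS]; push_cast; ring
    set X := (XS W σ ℓ : ℝ)
    set x' := prev (vx W σ π) ℓ
    have k1 : 0 ≤ X + x' := by linarith
    have k2 : 0 ≤ X - x' := by linarith
    have key : (pX (π ℓ) i : ℝ) * X + pp (π ℓ) i * x' =
      ((pX (π ℓ) i : ℝ) + pp (π ℓ) i) * ((X + x') / 2) +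
      ((pX (π ℓ) i : ℝ) - pp (π ℓ) i) * ((X - x') / 2) := by ring
    have m1 := mul_nonneg e3 k1
    have m2 := mul_nonneg e4 k2
    have m3 : ((pX (π ℓ) i : ℝ) + pp (π ℓ) i) * ((X + x') / 2) ≤ 2 * ((X + x') / 2) := by
      gcongr
    have m4 : ((pX (π ℓ) i : ℝ) - pp (π ℓ) i) * ((X - x') / 2) ≤ 4 * ((X - x') / 2) := by
      gcongr
    rw [e1, hX]
    constructor
    · nlinarith
    · nlinarith

lemma vert_feasible (W : Wt) {m : ℕ} (σ : Equiv.Perm (Fin m)) (π : ℕ → Fin 5) :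
    vert W σ π ∈ (core W σ).feasible := by
  rw [LP.mem_feasible]
  rintro (j | i)
  · obtain ⟨ℓ, i, rfl⟩ := exists_col j
    have := (vert_bounds W σ π ℓ i).1
    simp only [LP.val, Sum.elim_inl]
    linarith
  · obtain ⟨p, f, rfl⟩ := exists_row i
    exact val_row_vert_nonneg W σ π p f

lemma val_inl_vert_pos (W : Wt) {m : ℕ} (σ : Equiv.Perm (Fin m)) (π : ℕ → Fin 5)
    (j : Fin (m * 4)) : 0 < (core W σ).val (vert W σ π) (Sum.inl j) := by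
  obtain ⟨ℓ, i, rfl⟩ := exists_col j
  have := (vert_bounds W σ π ℓ i).1
  simp only [LP.val, Sum.elim_inl]
  linarith

/-- equation of a tight facet, in terms of the level -/
lemma row_eq_zero (W : Wt) {m : ℕ} (σ : Equiv.Perm (Fin m)) {V : ℕ → Fin 4 → ℝ} {ℓ : ℕ}
    (hℓ : ℓ < m) {f : Fin 8}
    (h : (core W σ).val (pt W σ V) (Sum.inr (row (σ.symm ⟨ℓ, hℓ⟩) f)) = 0) :
    slackR f (W.g (blk σ ℓ)) (XS W σ ℓ) (V ℓ) (prev (fun ℓ => V ℓ 0) ℓ) = 0 := by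
  rw [val_row] at h
  have h2 := (mul_eq_zero.1 h).resolve_left (upos W _).ne'
  simp only [Equiv.apply_symm_apply] at h2
  have h3 : blk σ ℓ = (σ.symm ⟨ℓ, hℓ⟩ : ℕ) := by simp [blk, hℓ]
  rw [h3]
  exact h2

lemma vert_rigid (W : Wt) {m : ℕ} (σ : Equiv.Perm (Fin m)) (π : ℕ → Fin 5) :
    Rigid (core W σ) (vert W σ π) := by
  intro z h
  obtain ⟨V, rfl⟩ := exists_pt W σ z
  refine pt_congr W σ fun ℓ hℓ => ?_
  induction ℓ with
  | zero =>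
    intro i
    refine solve4 (π 0) _ _ _ _ (fun f hf => ?_) i
    exact row_eq_zero W σ hℓ (h _ (val_row_vert_eq_zero W σ π _ (by simpa using hf)))
  | succ ℓ ih =>
    intro i
    refine solve4 (π (ℓ + 1)) _ _ _ _ (fun f hf => ?_) i
    have h1 := row_eq_zero W σ hℓ (h _ (val_row_vert_eq_zero W σ π _ (by simpa using hf)))
    have h2 := ih (by omega) 0
    simp only [prev] at h1 ⊢
    rw [h2, vV_zero] at h1
    exact h1

/-- the tight constraints -/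
noncomputable def tightSet {m : ℕ} (σ : Equiv.Perm (Fin m)) (π : ℕ → Fin 5) :
    Finset (Fin (m * 4) ⊕ Fin (m * 8)) := by
  classical
  exact (Finset.univ : Finset (Fin m × Fin 4)).image fun x =>
    Sum.inr (row x.1 (Fin.ofNat 8 ((π (σ x.1) : ℕ) + x.2)))

lemma mem_tightSet (W : Wt) {m : ℕ} (σ : Equiv.Perm (Fin m)) (π : ℕ → Fin 5)
    (v : Fin (m * 4) ⊕ Fin (m * 8)) (hv : (core W σ).val (vert W σ π) v = 0) :
    v ∈ tightSet σ π := by
  rcases v with j | i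
  · exact absurd hv (val_inl_vert_pos W σ π j).ne'
  · obtain ⟨p, f, rfl⟩ := exists_row i
    rw [val_row_vert_eq_zero_iff] at hv
    rw [tightSet, Finset.mem_image]
    have h8 := f.2
    refine ⟨(p, ⟨(f : ℕ) - π (σ p), by have := hv.2; omega⟩), Finset.mem_univ _, ?_⟩
    congr 2
    apply Fin.ext
    have h1 : ((π (σ p) : ℕ) + ((f : ℕ) - π (σ p))) = f := by have := hv.1; omega
    simp only [Fin.ofNat, h1]
    omega

lemma card_tightSet {m : ℕ} (σ : Equiv.Perm (Fin m)) (π : ℕ → Fin 5) :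
    (tightSet σ π).card ≤ m * 4 := by
  rw [tightSet]
  refine Finset.card_image_le.trans ?_
  simp

end Pool.Agent.Lib.MP_4d246d_lc.Local
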