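import Pool.Agent.Lib.MP_4d246d_lc.Local.Core

/-!
# Edges and reduced costs
-/

namespace Pool.Agent.Lib.MP_4d246d_lc.Local

open Finset

lemma prev_vx_update (W : Wt) {m : ℕ} (σ : Equiv.Perm (Fin m)) (π : ℕ → Fin 5) {ℓ₀ : ℕ}
    {J' : Fin 5} : ∀ ℓ, ℓ ≤ ℓ₀ →
      prev (vx W σ (Function.update π ℓ₀ J')) ℓ = prev (vx W σ π) ℓ := by
  intro ℓ
  induction ℓ with
  | zero => intro _; rfl
  | succ ℓ ih =>
    intro h
    simp only [prev]
    rw [vx_eq, vx_eq, ih (by omega), Function.update_of_ne (by omega)]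

lemma comb_pt (W : Wt) {m : ℕ} (σ : Equiv.Perm (Fin m)) (V V' : ℕ → Fin 4 → ℝ) (t : ℝ) :
    (1 - t) • pt W σ V + t • pt W σ V' =
      pt W σ (fun ℓ i => (1 - t) * V ℓ i + t * V' ℓ i) := by
  funext j
  obtain ⟨ℓ, i, rfl⟩ := exists_col j
  simp only [Pi.add_apply, Pi.smul_apply, smul_eq_mul, pt_col]
  split_ifs <;> ring

lemma adj_pg : ∀ J J' : Fin 5, (J : ℕ) + 1 = J' → pg J' 0 = pg J 0 + 2 ∧ kap J' ≤ kap J := by
  decide

lemma posR_zero (J : Fin 5) (g X x' : ℝ) :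
    posR J 0 g X x' = pg J 0 * g - kap J * (X - x') := by
  rw [posR, pp0, pX0]
  have hp : ((pc 0 : ℤ) : ℝ) = 0 := by simp [pc]
  rw [hp]; push_cast; ring

lemma line (W : Wt) {m : ℕ} (σ : Equiv.Perm (Fin m)) (π : ℕ → Fin 5) {ℓ₀ : ℕ} (h₀ : ℓ₀ < m)
    {J' : Fin 5} (hJ : ((π ℓ₀ : Fin 5) : ℕ) + 1 = J') :
    Line (core W σ) (vert W σ π) (vert W σ (Function.update π ℓ₀ J')) := by
  intro z h
  obtain ⟨V, rfl⟩ := exists_pt W σ z
  set π' := Function.update π ℓ₀ J' with hπ'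
  have hJ' : π' ℓ₀ = J' := by simp [hπ']
  obtain ⟨a1, a2⟩ := adj_pg _ _ hJ
  set g := (W.g (blk σ ℓ₀) : ℝ) with hg
  set X := (XS W σ ℓ₀ : ℝ) with hX
  set x' := prev (vx W σ π) ℓ₀ with hx'
  have hgpos : 0 < g := gpos W _
  have hE : 0 ≤ X - x' := E_nonneg W σ π ℓ₀
  have hdiff : 0 < posR J' 0 g X x' - posR (π ℓ₀) 0 g X x' := by
    rw [posR_zero, posR_zero]
    have e1 : (pg J' 0 : ℝ) = pg (π ℓ₀) 0 + 2 := by exact_mod_cast a1
    have e2 : (kap J' : ℝ) ≤ kap (π ℓ₀) := by exact_mod_cast a2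
    have e3 : 0 ≤ ((kap (π ℓ₀) : ℝ) - kap J') * (X - x') :=
      mul_nonneg (by linarith) hE
    rw [e1]
    nlinarith
  set t := (V ℓ₀ 0 - posR (π ℓ₀) 0 g X x') / (posR J' 0 g X x' - posR (π ℓ₀) 0 g X x') with ht
  have htV : V ℓ₀ 0 = (1 - t) * posR (π ℓ₀) 0 g X x' + t * posR J' 0 g X x' := by
    have : t * (posR J' 0 g X x' - posR (π ℓ₀) 0 g X x') = V ℓ₀ 0 - posR (π ℓ₀) 0 g X x' := by
      rw [ht]; field_simp
    linarith
  refine ⟨t, ?_⟩
  rw [vert, vert, comb_pt]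
  refine pt_congr W σ fun ℓ => ?_
  induction ℓ using Nat.strong_induction_on with
  | _ ℓ ih =>
  intro hm
  have hprev : prev (fun ℓ => V ℓ 0) ℓ =
      (1 - t) * prev (vx W σ π) ℓ + t * prev (vx W σ π') ℓ := by
    cases ℓ with
    | zero => simp [prev]
    | succ ℓ =>
      have := ih ℓ (by omega) (by omega) 0
      simp only [vV_zero] at this
      exact this
  by_cases hℓ : ℓ = ℓ₀
  · subst hℓ
    have hp : prev (fun ℓ => V ℓ 0) ℓ = x' := by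
      rw [hprev, prev_vx_update W σ π ℓ le_rfl]; ring
    intro i
    rw [vV, vV, hJ', prev_vx_update W σ π ℓ le_rfl]
    refine solve3 (π ℓ) J' hJ g X t (V ℓ) x' (fun f hf hf' => ?_) htV i
    have h1 := row_eq_zero W σ hm (h _ (val_row_vert_eq_zero W σ π _ (by simpa using hf))
      (val_row_vert_eq_zero W σ π' _ (by simpa [hJ'] using hf')))
    rw [hp] at h1
    exact h1
  · have hπℓ : π' ℓ = π ℓ := by simp [hπ', hℓ]
    intro i
    have h1 := solve4 (π ℓ) (W.g (blk σ ℓ)) (XS W σ ℓ) (V ℓ) (prev (fun ℓ => V ℓ 0) ℓ)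
      (fun f hf => row_eq_zero W σ hm (h _ (val_row_vert_eq_zero W σ π _ (by simpa using hf))
        (val_row_vert_eq_zero W σ π' _ (by simpa [hπℓ] using hf)))) i
    rw [h1, vV, vV, hπℓ, hprev]
    simp only [posR]
    ring

lemma Line.symm {n k : ℕ} {P : LP n k} {x y : Fin n → ℝ} (h : Line P x y) : Line P y x := by
  intro z hz
  obtain ⟨t, ht⟩ := h z fun v hv hv' => hz v hv' hv
  refine ⟨1 - t, ?_⟩
  rw [ht]
  simp only [sub_sub_cancel]
  rw [add_comm]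

/-- adjacent positions -/
def Adj (J J' : Fin 5) : Prop := (J : ℕ) + 1 = J' ∨ (J' : ℕ) + 1 = J

instance (J J' : Fin 5) : Decidable (Adj J J') := by unfold Adj; infer_instance

lemma line_adj (W : Wt) {m : ℕ} (σ : Equiv.Perm (Fin m)) (π : ℕ → Fin 5) {ℓ₀ : ℕ} (h₀ : ℓ₀ < m)
    {J' : Fin 5} (hJ : Adj (π ℓ₀) J') :
    Line (core W σ) (vert W σ π) (vert W σ (Function.update π ℓ₀ J')) := by
  rcases hJ with hJ | hJ
  · exact line W σ π h₀ hJ
  · have h1 := line W σ (Function.update π ℓ₀ J') h₀ (J' := π ℓ₀) (by simpa using hJ)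
    rw [Function.update_idem, Function.update_eq_self] at h1
    exact h1.symm

/-- the facet that is left when moving between adjacent positions -/
def ent (J J' : Fin 5) : Fin 8 := if (J : ℕ) < J' then ⟨J, by omega⟩ else ⟨J + 3, by omega⟩

lemma ent_props : ∀ J J' : Fin 5, Adj J J' → tight J (ent J J') ∧ ¬ tight J' (ent J J') ∧
    ¬ tight J (ent J' J) ∧ tight J' (ent J' J) ∧
    ∀ b, b ≠ ent J J' → tight J b → tight J' b := by
  decide

/-! ### Reduced costs -/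

/-- auxiliary: effective coefficients, from the top -/
noncomputable def Kd (m : ℕ) (π : ℕ → Fin 5) : ℕ → ℤ
  | 0 => 1
  | d + 1 => Kd m π d * kap (π (m - 1 - d))

/-- `K (ℓ+1)` is the effective coefficient of `x_ℓ`. -/
noncomputable def K (m : ℕ) (π : ℕ → Fin 5) (ℓ : ℕ) : ℤ := Kd m π (m - ℓ)

lemma K_top (m : ℕ) (π : ℕ → Fin 5) : K m π m = 1 := by simp [K, Kd]

lemma K_step {m : ℕ} (π : ℕ → Fin 5) {ℓ : ℕ} (h : ℓ < m) :
    K m π ℓ = K m π (ℓ + 1) * kap (π ℓ) := by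
  have h1 : m - ℓ = (m - (ℓ + 1)) + 1 := by omega
  have h2 : m - 1 - (m - (ℓ + 1)) = ℓ := by omega
  rw [K, h1, Kd, h2, K]

/-- The vector of reduced costs. -/
noncomputable def qv (W : Wt) {m : ℕ} (σ : Equiv.Perm (Fin m)) (π : ℕ → Fin 5) :
    Fin (m * 4) ⊕ Fin (m * 8) → ℝ :=
  Sum.elim (fun _ => 0) fun i =>
    QN (π (σ (finProdFinEquiv.symm i).1)) (finProdFinEquiv.symm i).2 *
      K m π (σ (finProdFinEquiv.symm i).1 + 1) / (2 * W.u (finProdFinEquiv.symm i).1)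

lemma qv_row (W : Wt) {m : ℕ} (σ : Equiv.Perm (Fin m)) (π : ℕ → Fin 5) (p : Fin m) (f : Fin 8) :
    qv W σ π (Sum.inr (row p f)) =
      QN (π (σ p)) f * K m π (σ p + 1) / (2 * W.u p) := by
  simp only [qv, row, Sum.elim_inr, Equiv.symm_apply_apply]

lemma sum_qv (W : Wt) {m : ℕ} (σ : Equiv.Perm (Fin m)) (π : ℕ → Fin 5) (V : ℕ → Fin 4 → ℝ) :
    ∑ v, qv W σ π v * (core W σ).val (pt W σ V) v =
      prev (fun ℓ => V ℓ 0) m - ∑ ℓ ∈ range m, (K m π (ℓ + 1) : ℝ) *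
        (pg (π ℓ) 0 * W.g (blk σ ℓ) - kap (π ℓ) * XS W σ ℓ) := by
  rw [Fintype.sum_sum_type]
  have h1 : ∑ j, qv W σ π (Sum.inl j) * (core W σ).val (pt W σ V) (Sum.inl j) = 0 := by
    simp [qv]
  rw [h1, zero_add, sum_rows]
  set F : ℕ → ℝ := fun ℓ => (K m π (ℓ + 1) : ℝ) * (V ℓ 0 -
    posR (π ℓ) 0 (W.g (blk σ ℓ)) (XS W σ ℓ) (prev (fun ℓ => V ℓ 0) ℓ)) with hF
  have h2 : ∀ p : Fin m, ∑ f, qv W σ π (Sum.inr (row p f)) *
      (core W σ).val (pt W σ V) (Sum.inr (row p f)) = F (σ p) := by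
    intro p
    have h3 := QN_identity (π (σ p)) (W.g p) (XS W σ (σ p)) (V (σ p))
      (prev (fun ℓ => V ℓ 0) (σ p))
    have h4 : ∀ f, qv W σ π (Sum.inr (row p f)) * (core W σ).val (pt W σ V) (Sum.inr (row p f)) =
        (K m π (σ p + 1) / 2) * (QN (π (σ p)) f * slackR f (W.g p) (XS W σ (σ p)) (V (σ p))
          (prev (fun ℓ => V ℓ 0) (σ p))) := by
      intro f
      rw [qv_row, val_row]
      have h6 := (upos W p).ne'
      field_simp
    rw [Finset.sum_congr rfl fun f _ => h4 f, ← Finset.mul_sum, h3, hF]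
    simp only [blk_eq]
    ring
  rw [Finset.sum_congr rfl fun p _ => h2 p, Equiv.sum_comp σ (fun ℓ : Fin m => F ℓ),
    ← Finset.sum_range F]
  have h7 := Finset.sum_range_sub (fun ℓ => (K m π ℓ : ℝ) * prev (fun ℓ => V ℓ 0) ℓ) m
  have h8 : ∀ ℓ ∈ range m, F ℓ = ((K m π (ℓ + 1) : ℝ) * prev (fun ℓ => V ℓ 0) (ℓ + 1) -
      K m π ℓ * prev (fun ℓ => V ℓ 0) ℓ) - (K m π (ℓ + 1) : ℝ) *
        (pg (π ℓ) 0 * W.g (blk σ ℓ) - kap (π ℓ) * XS W σ ℓ) := by
    intro ℓ hℓ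
    rw [hF, K_step π (Finset.mem_range.1 hℓ)]
    simp only [prev, posR_zero]
    push_cast
    ring
  rw [Finset.sum_congr rfl h8, Finset.sum_sub_distrib, h7, K_top]
  simp only [prev]
  push_cast
  ring

lemma isReducedCost (W : Wt) {m : ℕ} (σ : Equiv.Perm (Fin m)) (π : ℕ → Fin 5) :
    (core W σ).IsReducedCost (vert W σ π) (qv W σ π) := by
  have hbasic : ∀ v, (core W σ).val (vert W σ π) v ≠ 0 → qv W σ π v = 0 := by
    rintro (j | i) h
    · simp [qv]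
    · obtain ⟨p, f, rfl⟩ := exists_row i
      rw [ne_eq, val_row_vert_eq_zero_iff] at h
      rw [qv_row, QN_zero _ _ h]
      simp
  refine ⟨hbasic, fun z => ?_⟩
  obtain ⟨V, rfl⟩ := exists_pt W σ z
  have h1 := sum_qv W σ π V
  have h2 := sum_qv W σ π (vV W σ π)
  have h3 : ∑ v, qv W σ π v * (core W σ).val (pt W σ (vV W σ π)) v = 0 := by
    refine Finset.sum_eq_zero fun v _ => ?_
    by_cases h : (core W σ).val (vert W σ π) v = 0
    · rw [← vert, h, mul_zero]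
    · rw [hbasic v h, zero_mul]
  rw [vert, obj_pt, obj_pt, h1]
  linarith

end Pool.Agent.Lib.MP_4d246d_lc.Local
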