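import Pool.Agent.Lib.MP_4d246d_lc.Local.Full

/-!
# The local data of the edges
-/

namespace Pool.Agent.Lib.MP_4d246d_lc.Local

open Finset

/-- sum of the values of a function on a multiset -/
noncomputable def ms (F : ℝ → ℝ) : Multiset ℝ →+ ℝ where
  toFun M := (M.map F).sum
  map_zero' := by simp
  map_add' M N := by simp

lemma ms_apply (F : ℝ → ℝ) (M : Multiset ℝ) : ms F M = (M.map F).sum := rfl

lemma ms_univ (F : ℝ → ℝ) {α : Type*} [Fintype α] (G : α → ℝ) :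
    ms F ((Finset.univ : Finset α).val.map G) = ∑ i, F (G i) := by
  rw [ms_apply, Multiset.map_map]
  rfl

lemma ms_replicate (F : ℝ → ℝ) (k : ℕ) (a : ℝ) : ms F (Multiset.replicate k a) = k * F a := by
  rw [ms_apply, Multiset.map_replicate, Multiset.sum_replicate, nsmul_eq_mul]

lemma ms_count (a : ℝ) (M : Multiset ℝ) : ms (fun b => if b = a then 1 else 0) M = M.count a := by
  induction M using Multiset.induction_on with
  | empty => simp [ms]
  | cons b M ih =>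
    rw [Multiset.count_cons, ← Multiset.singleton_add, map_add, ih]
    have : ms (fun b => if b = a then (1 : ℝ) else 0) {b} = if a = b then 1 else 0 := by
      simp [ms_apply, eq_comm]
    rw [this]
    push_cast
    ring

/-- multisets with the same sums are equal -/
lemma ms_ext {M N : Multiset ℝ} (h : ∀ F, ms F M = ms F N) : M = N := by
  refine Multiset.ext.2 fun a => ?_
  have := h fun b => if b = a then 1 else 0
  rw [ms_count, ms_count] at this
  exact_mod_cast this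

/-- `k` copies of `a` and `-a` each -/
noncomputable def sym (a : ℝ) (k : ℕ) : Multiset ℝ :=
  Multiset.replicate k a + Multiset.replicate k (-a)

lemma ms_sym (F : ℝ → ℝ) (a : ℝ) (k : ℕ) : ms F (sym a k) = k * (F a + F (-a)) := by
  rw [sym, map_add, ms_replicate, ms_replicate]; ring

/-- changes of the decision variables along an edge of block `p` -/
noncomputable def ddat (W : Wt) (m p : ℕ) : Multiset ℝ :=
  sym (2 * W.g p) 4 + sym (W.q p * (2 * W.g p)) 3 +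
    (m - 1) • (sym (2 * W.g p) 3 + sym 0 4) + ((m - 1) * m) • sym 0 3

/-- changes of the slack variables along an edge of block `p` -/
noncomputable def sdat (W : Wt) (m R : ℕ) (p : Fin m) : Multiset ℝ :=
  sym (4 * (W.u p * W.g p)) 5 + sym 0 6 +
    (∑ p' ∈ Finset.univ.erase p, (sym (2 * (W.u p' * (2 * W.g p))) 1 +
      sym (4 * (W.u p' * (2 * W.g p))) 2 + sym 0 8)) + ((m - 1) * m) • sym 0 3 +
      Multiset.replicate (R + Fintype.card (IT m)) 0

lemma sum_sgn (F : ℝ → ℝ) (a : ℤ) (y : ℝ) :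
    ∑ s : Fin 2, F (-((((sgn s * a : ℤ) : ℚ) : ℝ) * y)) = F (a * y) + F (-(a * y)) := by
  simp only [Rat.cast_intCast]
  simp [Fin.sum_univ_two, sgn]
  ring

section

variable {W : Wt} {m : ℕ} {σ : Equiv.Perm (Fin m)} {π : ℕ → Fin 5} {ℓ₀ : ℕ} {J' : Fin 5}

lemma vert_col_sub (π π' : ℕ → Fin 5) (ℓ : Fin m) (i : Fin 4) :
    vert W σ π' (col ℓ i) - vert W σ π (col ℓ i) = vV W σ π' ℓ i - vV W σ π ℓ i := by
  simp only [vert, pt_col]
  ring

/-- the sum over the additional functionals -/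
lemma sum_own (h : Vis W σ π ℓ₀ J') {S : ℝ → ℝ} (hS : ∀ a, S (-a) = S a)
    (A : Fin m → Fin m → Fin 3 → ℤ) :
    ∑ ℓ : Fin m, ∑ ℓ' : Fin m, ∑ i : Fin 3,
      S (A ℓ ℓ' i * (vV W σ (Function.update π ℓ₀ J') ℓ 2 - vV W σ π ℓ 2)) =
      ∑ ℓ' : Fin m, ∑ i : Fin 3, S (A ⟨ℓ₀, h.lt⟩ ℓ' i * (2 * W.g (blk σ ℓ₀))) +
        ((m - 1 : ℕ) : ℝ) * (m * (3 * S 0)) := by
  rw [← Finset.add_sum_erase _ _ (Finset.mem_univ (⟨ℓ₀, h.lt⟩ : Fin m))]
  congr 1
  · refine Finset.sum_congr rfl fun ℓ' _ => Finset.sum_congr rfl fun i _ => ?_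
    have := dz h hS h.lt (A ⟨ℓ₀, h.lt⟩ ℓ' i)
    rw [if_pos rfl] at this
    exact this
  · have h1 : ∀ ℓ ∈ (Finset.univ : Finset (Fin m)).erase ⟨ℓ₀, h.lt⟩,
        ∑ ℓ' : Fin m, ∑ i : Fin 3,
          S (A ℓ ℓ' i * (vV W σ (Function.update π ℓ₀ J') ℓ 2 - vV W σ π ℓ 2)) =
          m * (3 * S 0) := by
      intro ℓ hℓ
      have hne : (ℓ : ℕ) ≠ ℓ₀ := fun hh => (Finset.mem_erase.1 hℓ).1 (Fin.ext hh)
      have h2 : ∀ ℓ' i, S (A ℓ ℓ' i * (vV W σ (Function.update π ℓ₀ J') ℓ 2 -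
          vV W σ π ℓ 2)) = S 0 := by
        intro ℓ' i
        have := dz h hS ℓ.2 (A ℓ ℓ' i)
        rwa [if_neg hne] at this
      simp [h2]
    rw [Finset.sum_congr rfl h1, Finset.sum_const, Finset.card_erase_of_mem (Finset.mem_univ _),
      Finset.card_univ, Fintype.card_fin, nsmul_eq_mul]

lemma sum_one_rest {m : ℕ} (p : Fin m) (f : Fin m → ℝ) (A : ℝ) (B : Fin m → ℝ)
    (h1 : f p = A) (h2 : ∀ p', p' ≠ p → f p' = B p') :
    ∑ p', f p' = A + ∑ p' ∈ Finset.univ.erase p, B p' := by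
  rw [← Finset.add_sum_erase _ _ (Finset.mem_univ p), h1]
  congr 1
  exact Finset.sum_congr rfl fun p' hp' => h2 p' (Finset.mem_erase.1 hp').1

lemma dec_data (h : Vis W σ π ℓ₀ J') :
    ((Finset.univ : Finset (Fin (m * 4 + Fintype.card (IT m)))).val.map fun j =>
      fvert W σ (Function.update π ℓ₀ J') j - fvert W σ π j) = ddat W m (blk σ ℓ₀) := by
  refine ms_ext fun F => ?_
  rw [ms_univ, sum_dec]
  set S : ℝ → ℝ := fun a => F a + F (-a) with hSdef
  have hS : ∀ a, S (-a) = S a := by intro a; simp only [hSdef, neg_neg]; ring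
  have e1 : ∀ j : Fin (m * 4), fvert W σ (Function.update π ℓ₀ J') (Fin.castAdd _ j) -
      fvert W σ π (Fin.castAdd _ j) =
      vert W σ (Function.update π ℓ₀ J') j - vert W σ π j := by
    intro j; simp [fvert, lift]
  have e2 : ∀ i : IT m, fvert W σ (Function.update π ℓ₀ J') (uIdx _ i) -
      fvert W σ π (uIdx _ i) =
      -(fv (fF W σ i) (vert W σ (Function.update π ℓ₀ J')) - fv (fF W σ i) (vert W σ π)) := by
    intro i; rw [fvert, fvert, lift_u, lift_u]; ring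
  simp only [e1, e2]
  rw [Fintype.sum_sum_type, Fintype.sum_prod_type]
  have e3 : ∀ j : Fin (m * 4), F (-(fv (fF W σ (Sum.inl j))
      (vert W σ (Function.update π ℓ₀ J')) - fv (fF W σ (Sum.inl j)) (vert W σ π))) =
      F (-(vert W σ (Function.update π ℓ₀ J') j - vert W σ π j)) := by
    intro j
    simp only [fF, Sum.elim_inl, fv_single, Rat.cast_one, one_mul]
  have e4 : ∀ ℓ : Fin m, ∑ y : Fin m × Fin 3 × Fin 2, F (-(fv (fF W σ (Sum.inr (ℓ, y)))
      (vert W σ (Function.update π ℓ₀ J')) - fv (fF W σ (Sum.inr (ℓ, y))) (vert W σ π))) =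
      ∑ ℓ' : Fin m, ∑ _i : Fin 3, S (amp1 W σ ℓ ℓ' *
        (vV W σ (Function.update π ℓ₀ J') ℓ 2 - vV W σ π ℓ 2)) := by
    intro ℓ
    rw [Fintype.sum_prod_type]
    refine Finset.sum_congr rfl fun ℓ' _ => ?_
    rw [Fintype.sum_prod_type]
    refine Finset.sum_congr rfl fun i _ => ?_
    rw [← vert_col_sub, hSdef]
    simp only
    rw [← sum_sgn F (amp1 W σ ℓ ℓ')]
    refine Finset.sum_congr rfl fun s _ => ?_
    simp only [fF, Sum.elim_inr, fv_single]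
    congr 1
    ring
  rw [Finset.sum_congr rfl fun j _ => e3 j, Finset.sum_congr rfl fun ℓ _ => e4 ℓ, ← add_assoc,
    ← Finset.sum_add_distrib]
  rw [sum_own h hS fun ℓ ℓ' _ => amp1 W σ ℓ ℓ']
  change ∑ j, S (vert W σ (Function.update π ℓ₀ J') j - vert W σ π j) + _ = _
  rw [sum_cols]
  simp only [vert_col_sub]
  rw [Finset.sum_congr rfl fun ℓ _ => sum_dV h hS ℓ.2, ← add_assoc, ← Finset.sum_add_distrib]
  rw [sum_one_rest (⟨ℓ₀, h.lt⟩ : Fin m) _ (4 * S (2 * W.g (blk σ ℓ₀)) +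
    3 * S (W.q (blk σ ℓ₀) * (2 * W.g (blk σ ℓ₀))))
    (fun _ => 3 * S (2 * W.g (blk σ ℓ₀)) + 4 * S 0)]
  · rw [Finset.sum_const, Finset.card_erase_of_mem (Finset.mem_univ _), Finset.card_univ,
      Fintype.card_fin, ddat]
    simp only [map_add, map_nsmul, ms_sym, nsmul_eq_mul, hSdef]
    push_cast
    ring
  · simp [amp1]
  · intro ℓ hℓ
    have hne : (ℓ : ℕ) ≠ ℓ₀ := fun hh => hℓ (Fin.ext hh)
    have hne' : ¬ ℓ = ⟨ℓ₀, h.lt⟩ := hℓ
    rcases lt_or_gt_of_ne hne with h2 | h2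
    · have h3 : ℓ < (⟨ℓ₀, h.lt⟩ : Fin m) := h2
      simp [amp1, h2, h3]
      ring
    · have h3 : ¬ ℓ < (⟨ℓ₀, h.lt⟩ : Fin m) := not_lt.2 (le_of_lt h2)
      have h4 : ¬ (ℓ : ℕ) < ℓ₀ := by omega
      simp [amp1, h4, h3, hne, hne']
      ring

lemma slack_data (h : Vis W σ π ℓ₀ J') (R : ℕ) :
    ((Finset.univ : Finset (Fin (m * 8 + (Fintype.card (IT m) +
      Fintype.card (KT m R))))).val.map fun j =>
      (full W σ R).val (fvert W σ (Function.update π ℓ₀ J')) (Sum.inr j) -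
      (full W σ R).val (fvert W σ π) (Sum.inr j)) =
      sdat W m R (σ.symm ⟨ℓ₀, h.lt⟩) := by
  refine ms_ext fun F => ?_
  have hb : blk σ ℓ₀ = (σ.symm ⟨ℓ₀, h.lt⟩ : ℕ) := by simp [blk, h.lt]
  rw [ms_univ, sum_con]
  set S : ℝ → ℝ := fun a => F a + F (-a) with hSdef
  have hS : ∀ a, S (-a) = S a := by intro a; simp only [hSdef, neg_neg]; ring
  have e1 : ∀ j : Fin (m * 8), (full W σ R).val (fvert W σ (Function.update π ℓ₀ J'))
      (Sum.inr (Fin.castAdd _ j)) - (full W σ R).val (fvert W σ π) (Sum.inr (Fin.castAdd _ j)) =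
      (core W σ).val (vert W σ (Function.update π ℓ₀ J')) (Sum.inr j) -
        (core W σ).val (vert W σ π) (Sum.inr j) := by
    intro j
    have h1 := lift_val_emb (core W σ) (fF W σ) (cF W σ) (gF W σ R) (hF W σ R)
      (vert W σ (Function.update π ℓ₀ J')) (Sum.inr j)
    have h2 := lift_val_emb (core W σ) (fF W σ) (cF W σ) (gF W σ R) (hF W σ R)
      (vert W σ π) (Sum.inr j)
    simp only [emb, Sum.map_inr] at h1 h2
    rw [full, fvert, fvert, h1, h2]
  have e2 : ∀ i : IT m, (full W σ R).val (fvert W σ (Function.update π ℓ₀ J'))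
      (Sum.inr (rIdx _ (KT m R) i)) -
      (full W σ R).val (fvert W σ π) (Sum.inr (rIdx _ (KT m R) i)) = 0 := by
    intro i
    rw [full, fvert, fvert, lift_val_r, lift_val_r, sub_self]
  have e3 : ∀ i : KT m R, (full W σ R).val (fvert W σ (Function.update π ℓ₀ J'))
      (Sum.inr (sIdx _ (IT m) i)) -
      (full W σ R).val (fvert W σ π) (Sum.inr (sIdx _ (IT m) i)) =
      -(fv (gF W σ R i) (vert W σ (Function.update π ℓ₀ J')) -
        fv (gF W σ R i) (vert W σ π)) := by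
    intro i
    rw [full, fvert, fvert, lift_val_s, lift_val_s]; ring
  simp only [e1, e2, e3]
  rw [Finset.sum_const, Fintype.sum_sum_type, Fintype.sum_sum_type, Fintype.sum_prod_type]
  have e4 : ∀ j : Fin (m * 8), F (-(fv (gF W σ R (Sum.inl j))
      (vert W σ (Function.update π ℓ₀ J')) - fv (gF W σ R (Sum.inl j)) (vert W σ π))) =
      F (-((core W σ).val (vert W σ (Function.update π ℓ₀ J')) (Sum.inr j) -
        (core W σ).val (vert W σ π) (Sum.inr j))) := by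
    intro j
    simp only [gF, Sum.elim_inl, fv_neg]
    congr 1
    ring
  have e5 : ∀ ℓ : Fin m, ∑ y : Fin m × Fin 3 × Fin 2,
      F (-(fv (gF W σ R (Sum.inr (Sum.inl (ℓ, y))))
      (vert W σ (Function.update π ℓ₀ J')) -
        fv (gF W σ R (Sum.inr (Sum.inl (ℓ, y)))) (vert W σ π))) =
      ∑ ℓ' : Fin m, ∑ i : Fin 3, S (amp2 W σ ℓ ℓ' i *
        (vV W σ (Function.update π ℓ₀ J') ℓ 2 - vV W σ π ℓ 2)) := by
    intro ℓ
    rw [Fintype.sum_prod_type]
    refine Finset.sum_congr rfl fun ℓ' _ => ?_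
    rw [Fintype.sum_prod_type]
    refine Finset.sum_congr rfl fun i _ => ?_
    rw [← vert_col_sub, hSdef]
    simp only
    rw [← sum_sgn F (amp2 W σ ℓ ℓ' i)]
    refine Finset.sum_congr rfl fun s _ => ?_
    simp only [gF, Sum.elim_inr, Sum.elim_inl, fv_single]
    congr 1
    ring
  have e6 : ∀ r : Fin R, F (-(fv (gF W σ R (Sum.inr (Sum.inr r)))
      (vert W σ (Function.update π ℓ₀ J')) -
        fv (gF W σ R (Sum.inr (Sum.inr r))) (vert W σ π))) = F 0 := by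
    intro r
    simp [gF, fv]
  rw [Finset.sum_congr rfl fun j _ => e4 j, Finset.sum_congr rfl fun ℓ _ => e5 ℓ,
    Finset.sum_congr rfl fun r _ => e6 r, sum_own h hS (amp2 W σ)]
  have e7 : ∑ j : Fin (m * 8), F ((core W σ).val (vert W σ (Function.update π ℓ₀ J'))
      (Sum.inr j) - (core W σ).val (vert W σ π) (Sum.inr j)) +
      ∑ j : Fin (m * 8), F (-((core W σ).val (vert W σ (Function.update π ℓ₀ J'))
      (Sum.inr j) - (core W σ).val (vert W σ π) (Sum.inr j))) =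
      ∑ p : Fin m, ∑ f, S ((core W σ).val (vert W σ (Function.update π ℓ₀ J'))
      (Sum.inr (row p f)) - (core W σ).val (vert W σ π) (Sum.inr (row p f))) := by
    rw [← Finset.sum_add_distrib, sum_rows]
  have e8 : ∑ ℓ' : Fin m, ∑ i : Fin 3, S (amp2 W σ ⟨ℓ₀, h.lt⟩ ℓ' i * (2 * W.g (blk σ ℓ₀))) =
      ∑ p : Fin m, ∑ i : Fin 3, S (amp2 W σ ⟨ℓ₀, h.lt⟩ (σ p) i * (2 * W.g (blk σ ℓ₀))) :=
    (Equiv.sum_comp σ fun ℓ' => ∑ i : Fin 3,
      S (amp2 W σ ⟨ℓ₀, h.lt⟩ ℓ' i * (2 * W.g (blk σ ℓ₀)))).symm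
  have e9 : ∑ p : Fin m, (∑ f, S ((core W σ).val (vert W σ (Function.update π ℓ₀ J'))
      (Sum.inr (row p f)) - (core W σ).val (vert W σ π) (Sum.inr (row p f))) +
      ∑ i : Fin 3, S (amp2 W σ ⟨ℓ₀, h.lt⟩ (σ p) i * (2 * W.g (blk σ ℓ₀)))) =
      (5 * S (4 * (W.u (blk σ ℓ₀) * W.g (blk σ ℓ₀))) + 6 * S 0) +
      ∑ p' ∈ Finset.univ.erase (σ.symm ⟨ℓ₀, h.lt⟩),
        (S (2 * (W.u p' * (2 * W.g (blk σ ℓ₀)))) + 2 * S (4 * (W.u p' * (2 * W.g (blk σ ℓ₀)))) +
          8 * S 0) := by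
    refine sum_one_rest (σ.symm ⟨ℓ₀, h.lt⟩) _ _ _ ?_ ?_
    · rw [sum_dS h hS]
      simp [amp2, hb]
      ring
    · intro p hp
      rw [sum_dS h hS]
      have hne' : σ p ≠ ⟨ℓ₀, h.lt⟩ := fun hh => hp (by rw [← hh, Equiv.symm_apply_apply])
      have hne : (σ p : ℕ) ≠ ℓ₀ := fun hh => hne' (Fin.ext hh)
      rcases lt_or_gt_of_ne hne with h2 | h2
      · have h3 : σ p < (⟨ℓ₀, h.lt⟩ : Fin m) := h2
        simp [amp2, h2, h3, Fin.sum_univ_three, am, blk_eq]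
        simp only [mul_assoc]
        ring
      · have h3 : ¬ σ p < (⟨ℓ₀, h.lt⟩ : Fin m) := not_lt.2 (le_of_lt h2)
        have h4 : ¬ (σ p : ℕ) < ℓ₀ := by omega
        simp [amp2, h4, h3, hne]
        ring
  rw [Finset.sum_add_distrib] at e9
  have e10 : ms F (sdat W m R (σ.symm ⟨ℓ₀, h.lt⟩)) =
      (5 * S (4 * (W.u (blk σ ℓ₀) * W.g (blk σ ℓ₀))) + 6 * S 0) +
      ∑ p' ∈ Finset.univ.erase (σ.symm ⟨ℓ₀, h.lt⟩),
        (S (2 * (W.u p' * (2 * W.g (blk σ ℓ₀)))) + 2 * S (4 * (W.u p' * (2 * W.g (blk σ ℓ₀)))) +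
          8 * S 0) + ((m - 1 : ℕ) : ℝ) * (m * (3 * S 0)) + (R + Fintype.card (IT m)) * F 0 := by
    rw [sdat]
    simp only [map_add, map_nsmul, map_sum, ms_sym, ms_replicate, nsmul_eq_mul, hSdef, hb]
    push_cast
    simp only [one_mul]
    ring
  rw [e10, ← e9, ← e8, ← e7]
  simp only [Finset.sum_const, Finset.card_univ, Fintype.card_fin, nsmul_eq_mul]
  ring

end

end Pool.Agent.Lib.MP_4d246d_lc.Local
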