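import Mathlib

/-!
# Linear programs, vertices, edges, reduced costs and local pivot rules

Definitions for the lower bound on pivot rules that choose among the improving edges on the basis
of local data of these edges.
-/

namespace Pool.Agent.Lib.MP_4d246d_lc.Local

/-- A linear program `maximise c·x subject to A x ≤ b, x ≥ 0` with rational data, in `n` decision
variables and with `k` inequality constraints. -/
structure LP (n k : ℕ) where
  /-- the constraint matrix -/
  A : Matrix (Fin k) (Fin n) ℚ
  /-- the right-hand side -/
  b : Fin k → ℚ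
  /-- the objective vector -/
  c : Fin n → ℚ

/-- Bit length of a rational number: sign, numerator and denominator. -/
def bitLength (q : ℚ) : ℕ := 1 + Nat.size q.num.natAbs + Nat.size q.den

/-- The local data of an improving edge, see `LP.datum`. -/
abbrev Datum : Type := ℝ × ℝ × Multiset ℝ × Multiset ℝ

namespace LP

variable {n k : ℕ} (P : LP n k)

/-- Total bit length of the data `(A, b, c)`. -/
def size : ℕ :=
  (∑ i, ∑ j, bitLength (P.A i j)) + (∑ i, bitLength (P.b i)) + ∑ j, bitLength (P.c j)

/-- The constraints `A_i x ≤ b_i`, without their order. -/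
def constraints : Multiset ((Fin n → ℚ) × ℚ) :=
  (Finset.univ : Finset (Fin k)).val.map fun i => (P.A i, P.b i)

/-- The objective function `x ↦ c·x`. -/
def obj (x : Fin n → ℝ) : ℝ := ∑ j, (P.c j : ℝ) * x j

/-- The `n + k` variables of the linear program and their values at `x`: the decision variables
`x j`, and the slack variables `b i - (A x) i`. -/
def val (x : Fin n → ℝ) : Fin n ⊕ Fin k → ℝ :=
  Sum.elim x fun i => (P.b i : ℝ) - ∑ j, (P.A i j : ℝ) * x j

/-- The feasible polyhedron `{x | A x ≤ b, x ≥ 0}` in `ℝ^n`. -/
def feasible : Set (Fin n → ℝ) :=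
  {x | (∀ j, 0 ≤ x j) ∧ ∀ i, ∑ j, (P.A i j : ℝ) * x j ≤ (P.b i : ℝ)}

/-- `x` is a vertex of the polyhedron. -/
def IsVertex (x : Fin n → ℝ) : Prop := x ∈ P.feasible.extremePoints ℝ

/-- The vertices `x ≠ y` are joined by an edge: the segment `[x, y]` is a face. -/
def IsEdge (x y : Fin n → ℝ) : Prop :=
  x ≠ y ∧ P.IsVertex x ∧ P.IsVertex y ∧ IsExtreme ℝ P.feasible (segment ℝ x y)

/-- `q` is the vector of reduced costs at `x`: it vanishes on the variables that are nonzero at
`x`, and the objective function is `c·z = c·x + ∑ v, q v * val z v` for all `z ∈ ℝ^n` (this is the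
objective row of the simplex dictionary at `x`). -/
def IsReducedCost (x : Fin n → ℝ) (q : Fin n ⊕ Fin k → ℝ) : Prop :=
  (∀ v, P.val x v ≠ 0 → q v = 0) ∧ ∀ z, P.obj z = P.obj x + ∑ v, q v * P.val z v

/-- `y` is the vertex reached from the vertex `x` when the variable `v` enters the basis: `[x, y]`
is an edge along which `v` increases, while all other variables that vanish at `x` remain zero. -/
def IsNeighbor (x : Fin n → ℝ) (v : Fin n ⊕ Fin k) (y : Fin n → ℝ) : Prop :=
  P.IsEdge x y ∧ P.val x v = 0 ∧ 0 < P.val y v ∧ ∀ w, w ≠ v → P.val x w = 0 → P.val y w = 0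

/-- `(q, nb)` is the local view at the vertex `x`: `q` is the vector of the reduced costs at `x`,
which are uniquely determined, and for every improving variable `v` (that is, `0 < q v`) the pivot
step in which `v` enters leads along an edge to the vertex `nb v`. -/
def IsLocalView (x : Fin n → ℝ) (q : Fin n ⊕ Fin k → ℝ) (nb : Fin n ⊕ Fin k → Fin n → ℝ) : Prop :=
  P.IsReducedCost x q ∧ (∀ q', P.IsReducedCost x q' → q' = q) ∧
    ∀ v, 0 < q v → P.IsNeighbor x v (nb v)

/-- The local data of the edge from `x` to `nb v` along which `v` enters: the reduced cost of `v`,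
the gain `c·(nb v) - c·x`, the multiset of the changes of the decision variables along the edge
(the coordinates of the edge vector `nb v - x`, without their order), and the multiset of the
changes of the slack variables along the edge. -/
def datum (x : Fin n → ℝ) (q : Fin n ⊕ Fin k → ℝ) (nb : Fin n ⊕ Fin k → Fin n → ℝ)
    (v : Fin n ⊕ Fin k) : Datum :=
  (q v, P.obj (nb v) - P.obj x,
    (Finset.univ : Finset (Fin n)).val.map fun j => nb v j - x j,
    (Finset.univ : Finset (Fin k)).val.map fun i =>
      P.val (nb v) (Sum.inr i) - P.val x (Sum.inr i))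

end LP

/-- The decision and slack variables, in the order `x_1, ..., x_n, s_1, ..., s_k`. -/
def varList (n k : ℕ) : List (Fin n ⊕ Fin k) :=
  (List.finRange n).map Sum.inl ++ (List.finRange k).map Sum.inr

open Classical in
/-- The variables of positive reduced cost, in the order of `varList n k`. -/
noncomputable def improving {n k : ℕ} (q : Fin n ⊕ Fin k → ℝ) : List (Fin n ⊕ Fin k) :=
  (varList n k).filter (fun v => 0 < q v)

end Pool.Agent.Lib.MP_4d246d_lc.Local
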