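import Pool.Agent.Lib.MP_4d246d_lc.Local.Moves

/-!
# The padded linear programs
-/

namespace Pool.Agent.Lib.MP_4d246d_lc.Local

open Finset

/-- additional decision variables -/
abbrev IT (m : ℕ) : Type := Fin (m * 4) ⊕ (Fin m × Fin m × Fin 3 × Fin 2)

/-- additional constraints -/
abbrev KT (m R : ℕ) : Type := Fin (m * 8) ⊕ (Fin m × Fin m × Fin 3 × Fin 2) ⊕ Fin R

/-- signs -/
def sgn : Fin 2 → ℤ := ![1, -1]

/-- amplitudes -/
def am : Fin 3 → ℤ := ![2, 4, 4]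

/-- amplitudes of the additional decision variables -/
def amp1 (W : Wt) {m : ℕ} (σ : Equiv.Perm (Fin m)) (ℓ ℓ' : Fin m) : ℤ :=
  if ℓ' < ℓ then 1 else if ℓ' = ℓ then W.q (blk σ ℓ) else 0

/-- amplitudes of the additional constraints -/
def amp2 (W : Wt) {m : ℕ} (σ : Equiv.Perm (Fin m)) (ℓ ℓ' : Fin m) (i : Fin 3) : ℤ :=
  if ℓ' < ℓ then am i * W.u (blk σ ℓ') else 0

/-- a large constant -/
def Hc (W : Wt) {m : ℕ} (σ : Equiv.Perm (Fin m)) : ℤ :=
  4 * m * (2 * XS W σ m + 1) + 2 * XS W σ m + 2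

/-- functionals for the additional decision variables -/
def fF (W : Wt) {m : ℕ} (σ : Equiv.Perm (Fin m)) : IT m → Fin (m * 4) → ℚ :=
  Sum.elim (fun j => Pi.single j 1)
    (fun x => Pi.single (col x.1 2) ((sgn x.2.2.2 * amp1 W σ x.1 x.2.1 : ℤ) : ℚ))

/-- right-hand sides for the additional decision variables -/
def cF (W : Wt) {m : ℕ} (σ : Equiv.Perm (Fin m)) : IT m → ℚ := fun _ => (Hc W σ : ℚ)

/-- functionals for the additional constraints -/
def gF (W : Wt) {m : ℕ} (σ : Equiv.Perm (Fin m)) (R : ℕ) : KT m R → Fin (m * 4) → ℚ :=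
  Sum.elim (fun i => - (core W σ).A i) (Sum.elim
    (fun x => Pi.single (col x.1 2) ((sgn x.2.2.2 * amp2 W σ x.1 x.2.1 x.2.2.1 : ℤ) : ℚ))
    fun _ => 0)

/-- right-hand sides for the additional constraints -/
def hF (W : Wt) {m : ℕ} (σ : Equiv.Perm (Fin m)) (R : ℕ) : KT m R → ℚ :=
  Sum.elim (fun i => (Hc W σ : ℚ) - (core W σ).b i) (Sum.elim (fun _ => (Hc W σ : ℚ)) fun _ => 1)

/-- The padded linear program. -/
noncomputable def full (W : Wt) {m : ℕ} (σ : Equiv.Perm (Fin m)) (R : ℕ) :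
    LP (m * 4 + Fintype.card (IT m)) (m * 8 + (Fintype.card (IT m) + Fintype.card (KT m R))) :=
  pad (core W σ) (fF W σ) (cF W σ) (gF W σ R) (hF W σ R)

/-- The vertices of the padded linear program. -/
noncomputable def fvert (W : Wt) {m : ℕ} (σ : Equiv.Perm (Fin m)) (π : ℕ → Fin 5) :
    Fin (m * 4 + Fintype.card (IT m)) → ℝ :=
  lift (fF W σ) (cF W σ) (vert W σ π)

/-- The slack variables of the original constraints -/
noncomputable def frow (m R : ℕ) (p : Fin m) (f : Fin 8) :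
    Fin (m * 4 + Fintype.card (IT m)) ⊕
      Fin (m * 8 + (Fintype.card (IT m) + Fintype.card (KT m R))) :=
  Sum.inr (Fin.castAdd _ (row p f))

lemma frow_eq (m R : ℕ) (p : Fin m) (f : Fin 8) :
    frow m R p f = emb (m * 4) (m * 8) (IT m) (KT m R) (Sum.inr (row p f)) := rfl

lemma fv_single {n : ℕ} (j : Fin n) (a : ℚ) (x : Fin n → ℝ) : fv (Pi.single j a) x = a * x j := by
  rw [fv, Finset.sum_eq_single j]
  · simp
  · intro b _ hb; simp [hb]
  · simp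

lemma fv_neg {n k : ℕ} (P : LP n k) (i : Fin k) (x : Fin n → ℝ) :
    fv (-P.A i) x = P.val x (Sum.inr i) - P.b i := by
  simp [fv, LP.val]

lemma XS_mono (W : Wt) {m : ℕ} (σ : Equiv.Perm (Fin m)) {ℓ ℓ' : ℕ} (h : ℓ ≤ ℓ') :
    XS W σ ℓ ≤ XS W σ ℓ' := by
  induction h with
  | refl => exact le_rfl
  | step h ih =>
    refine ih.trans ?_
    rename_i k
    have h1 := W.g_pos (blk σ k)
    have h2 := XS_nonneg W σ k
    simp only [XS]
    linarith

lemma blk_lt {m : ℕ} (σ : Equiv.Perm (Fin m)) (ℓ : Fin m) : blk σ ℓ < m := by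
  have := (σ.symm ℓ).2
  simp only [blk, ℓ.2, dif_pos, Fin.eta]
  exact this

lemma amp1_bound (W : Wt) {m : ℕ} (σ : Equiv.Perm (Fin m)) (ℓ ℓ' : Fin m) :
    0 ≤ amp1 W σ ℓ ℓ' ∧ amp1 W σ ℓ ℓ' ≤ 4 * m := by
  have hm : (1 : ℤ) ≤ m := by have := ℓ.2; omega
  have h1 := W.q_nonneg (blk σ ℓ)
  have h2 := W.q_le (blk σ ℓ)
  have h3 : (blk σ ℓ : ℤ) + 1 ≤ m := by exact_mod_cast blk_lt σ ℓ
  unfold amp1
  split_ifs <;> constructor <;> linarith

lemma amp2_bound (W : Wt) {m : ℕ} (σ : Equiv.Perm (Fin m)) (ℓ ℓ' : Fin m) (i : Fin 3) :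
    0 ≤ amp2 W σ ℓ ℓ' i ∧ amp2 W σ ℓ ℓ' i ≤ 4 * m := by
  have hm : (1 : ℤ) ≤ m := by have := ℓ.2; omega
  have h1 := W.u_pos (blk σ ℓ')
  have h2 := W.u_le (blk σ ℓ')
  have h3 : (blk σ ℓ' : ℤ) + 1 ≤ m := by exact_mod_cast blk_lt σ ℓ'
  have h4 : ∀ i, 2 ≤ am i ∧ am i ≤ 4 := by decide
  unfold amp2
  split_ifs
  · obtain ⟨h5, h6⟩ := h4 i
    constructor
    · positivity
    · nlinarith
  · constructor <;> linarith

lemma Hc_bound (W : Wt) {m : ℕ} (σ : Equiv.Perm (Fin m)) (π : ℕ → Fin 5) {a : ℤ}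
    (ha : 0 ≤ a ∧ a ≤ 4 * m) (s : Fin 2) (ℓ : Fin m) :
    (((sgn s * a : ℤ) : ℚ) : ℝ) * vert W σ π (col ℓ 2) < (Hc W σ : ℝ) := by
  obtain ⟨h1, h2⟩ := vert_bounds W σ π ℓ 2
  have h3 : (XS W σ (ℓ + 1) : ℝ) ≤ XS W σ m := by exact_mod_cast XS_mono W σ ℓ.2
  have h4 : (0 : ℝ) ≤ XS W σ m := by exact_mod_cast XS_nonneg W σ m
  have ha0 : (0 : ℝ) ≤ a := by exact_mod_cast ha.1
  have ha1 : (a : ℝ) ≤ 4 * m := by exact_mod_cast ha.2
  have hm : (0 : ℝ) ≤ m := by positivity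
  have h5 : (a : ℝ) * vert W σ π (col ℓ 2) ≤ 4 * m * (2 * XS W σ m + 1) := by
    have : vert W σ π (col ℓ 2) ≤ 2 * XS W σ m + 1 := by linarith
    calc (a : ℝ) * vert W σ π (col ℓ 2) ≤ a * (2 * XS W σ m + 1) := by gcongr
      _ ≤ 4 * m * (2 * XS W σ m + 1) := by gcongr
  have h6 : (0 : ℝ) ≤ a * vert W σ π (col ℓ 2) := by positivity
  simp only [Hc, Rat.cast_intCast]
  fin_cases s
  · simp [sgn]
    linarith
  · simp [sgn]
    have : (0 : ℝ) ≤ 4 * m * (2 * XS W σ m + 1) := by positivity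
    linarith

lemma val_row_le (W : Wt) {m : ℕ} (σ : Equiv.Perm (Fin m)) (π : ℕ → Fin 5) (p : Fin m)
    (f : Fin 8) :
    (core W σ).val (vert W σ π) (Sum.inr (row p f)) ≤ 4 * m * XS W σ m := by
  rw [val_row_vert]
  have h1 : (MG (π (σ p)) f : ℝ) ≤ 16 := by exact_mod_cast (MG_le (π (σ p)) f).1
  have h2 : (ME (π (σ p)) f : ℝ) ≤ 4 := by exact_mod_cast (MG_le (π (σ p)) f).2
  have h3 := E_nonneg W σ π (σ p)
  have h3' := (abs_le.1 (vx_bound W σ π (σ p))).1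
  have h4 := (gpos W p).le
  have h5 := (upos W p).le
  have h6 : (W.u p : ℝ) ≤ m := by
    have h7 : W.u p ≤ m := (W.u_le p).trans (by exact_mod_cast p.2)
    exact_mod_cast h7
  have h8 : (XS W σ (σ p + 1) : ℝ) = 4 * W.g p + 2 * XS W σ (σ p) := by
    simp only [XS, blk_eq]; push_cast; ring
  have h9 : (XS W σ (σ p + 1) : ℝ) ≤ XS W σ m := by exact_mod_cast XS_mono W σ (σ p).2
  have h10 : (0 : ℝ) ≤ XS W σ m := by exact_mod_cast XS_nonneg W σ m
  have h11 : (MG (π (σ p)) f : ℝ) * W.g p + ME (π (σ p)) f *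
      (XS W σ (σ p) - prev (vx W σ π) (σ p)) ≤ 4 * XS W σ m := by
    have e1 : (MG (π (σ p)) f : ℝ) * W.g p ≤ 16 * W.g p := by gcongr
    have e2 : (ME (π (σ p)) f : ℝ) * (XS W σ (σ p) - prev (vx W σ π) (σ p)) ≤
      4 * (XS W σ (σ p) - prev (vx W σ π) (σ p)) := by gcongr
    linarith
  calc (W.u p : ℝ) * (MG (π (σ p)) f * W.g p + ME (π (σ p)) f *
      (XS W σ (σ p) - prev (vx W σ π) (σ p))) ≤ W.u p * (4 * XS W σ m) := by gcongr
    _ ≤ m * (4 * XS W σ m) := by gcongr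
    _ = 4 * m * XS W σ m := by ring

lemma good (W : Wt) {m : ℕ} (σ : Equiv.Perm (Fin m)) (R : ℕ) (π : ℕ → Fin 5) :
    Good (fF W σ) (cF W σ) (gF W σ R) (hF W σ R) (vert W σ π) := by
  have h4 : (0 : ℝ) ≤ XS W σ m := by exact_mod_cast XS_nonneg W σ m
  have hm : (0 : ℝ) ≤ m := by positivity
  have h5 : (0 : ℝ) ≤ 4 * m * (2 * XS W σ m + 1) := by positivity
  constructor
  · rintro (j | x)
    · simp only [fF, Sum.elim_inl, fv_single, cF, Rat.cast_one, one_mul, Rat.cast_intCast]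
      obtain ⟨ℓ, i, rfl⟩ := exists_col j
      have h1 := (vert_bounds W σ π ℓ i).2
      have h3 : (XS W σ (ℓ + 1) : ℝ) ≤ XS W σ m := by exact_mod_cast XS_mono W σ ℓ.2
      simp only [Hc]
      push_cast
      linarith
    · simp only [fF, Sum.elim_inr, fv_single, cF]
      have := Hc_bound W σ π (amp1_bound W σ x.1 x.2.1) x.2.2.2 x.1
      simpa only [Rat.cast_intCast] using this
  · rintro (i | x | r)
    · simp only [gF, hF, Sum.elim_inl, fv_neg, Rat.cast_sub, Rat.cast_intCast]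
      obtain ⟨p, f, rfl⟩ := exists_row i
      have h1 := val_row_le W σ π p f
      have h2 : (0 : ℝ) ≤ 4 * m * XS W σ m := by positivity
      have h3 : (Hc W σ : ℝ) = 4 * m * (2 * XS W σ m + 1) + 2 * XS W σ m + 2 := by
        simp only [Hc]; push_cast; ring
      rw [h3]
      nlinarith
    · simp only [gF, hF, Sum.elim_inl, Sum.elim_inr, fv_single]
      have := Hc_bound W σ π (amp2_bound W σ x.1 x.2.1 x.2.2.1) x.2.2.2 x.1
      simpa only [Rat.cast_intCast] using this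
    · simp [gF, hF, fv]

/-! ### Vertices, edges and reduced costs of the padded linear program -/

lemma fvert_isVertex (W : Wt) {m : ℕ} (σ : Equiv.Perm (Fin m)) (R : ℕ) (π : ℕ → Fin 5) :
    (full W σ R).IsVertex (fvert W σ π) :=
  lift_isVertex (vert_feasible W σ π) (vert_rigid W σ π) (good W σ R π)

lemma fvert_neighbor (W : Wt) {m : ℕ} (σ : Equiv.Perm (Fin m)) (R : ℕ) (π : ℕ → Fin 5) {ℓ₀ : ℕ}
    (h₀ : ℓ₀ < m) {J' : Fin 5} (hJ : Adj (π ℓ₀) J') :
    (full W σ R).IsNeighbor (fvert W σ π) (frow m R (σ.symm ⟨ℓ₀, h₀⟩) (ent (π ℓ₀) J'))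
      (fvert W σ (Function.update π ℓ₀ J')) := by
  obtain ⟨e1, e2, e3, e4, e5⟩ := ent_props _ _ hJ
  rw [frow_eq]
  refine lift_isNeighbor (vert_feasible W σ π) (vert_rigid W σ π) (good W σ R π)
    (vert_feasible W σ _) (vert_rigid W σ _) (good W σ R _) (line_adj W σ π h₀ hJ)
    (w := Sum.inr (row (σ.symm ⟨ℓ₀, h₀⟩) (ent J' (π ℓ₀)))) ?_ ?_ ?_ ?_ ?_
  · exact val_row_vert_eq_zero W σ π _ (by simpa using e1)
  · exact val_row_vert_pos W σ _ _ (by simpa using e2)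
  · exact val_row_vert_pos W σ _ _ (by simpa using e3)
  · exact val_row_vert_eq_zero W σ _ _ (by simpa using e4)
  · rintro (j | i) hw hz
    · exact absurd hz (val_inl_vert_pos W σ π j).ne'
    · obtain ⟨p, b, rfl⟩ := exists_row i
      rw [val_row_vert_eq_zero_iff] at hz ⊢
      by_cases hp : (σ p : ℕ) = ℓ₀
      · have hp' : p = σ.symm ⟨ℓ₀, h₀⟩ := by
          rw [Equiv.eq_symm_apply]; exact Fin.ext hp
        rw [hp] at hz ⊢
        rw [Function.update_self]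
        refine e5 b (fun hbf => hw ?_) hz
        rw [hbf, hp']
      · rw [Function.update_of_ne hp]; exact hz

/-- the reduced costs -/
noncomputable def fq (W : Wt) {m : ℕ} (σ : Equiv.Perm (Fin m)) (R : ℕ) (π : ℕ → Fin 5) :
    Fin (m * 4 + Fintype.card (IT m)) ⊕
      Fin (m * 8 + (Fintype.card (IT m) + Fintype.card (KT m R))) → ℝ :=
  extq (IT m) (KT m R) (qv W σ π)

lemma fq_isReducedCost (W : Wt) {m : ℕ} (σ : Equiv.Perm (Fin m)) (R : ℕ) (π : ℕ → Fin 5) :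
    (full W σ R).IsReducedCost (fvert W σ π) (fq W σ R π) :=
  lift_isReducedCost (isReducedCost W σ π)

lemma fq_unique (W : Wt) {m : ℕ} (σ : Equiv.Perm (Fin m)) (R : ℕ) (π : ℕ → Fin 5)
    (q' : Fin (m * 4 + Fintype.card (IT m)) ⊕
      Fin (m * 8 + (Fintype.card (IT m) + Fintype.card (KT m R))) → ℝ)
    (h : (full W σ R).IsReducedCost (fvert W σ π) q') : q' = fq W σ R π :=
  lift_reducedCost_unique (vert_rigid W σ π) (good W σ R π) (tightSet σ π)
    (mem_tightSet W σ π) (card_tightSet σ π) (isReducedCost W σ π) h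

lemma fq_frow (W : Wt) {m : ℕ} (σ : Equiv.Perm (Fin m)) (R : ℕ) (π : ℕ → Fin 5) (p : Fin m)
    (f : Fin 8) : fq W σ R π (frow m R p f) =
      QN (π (σ p)) f * K m π (σ p + 1) / (2 * W.u p) := by
  rw [frow_eq, fq, extq_emb, qv_row]

lemma fq_pos (W : Wt) {m : ℕ} (σ : Equiv.Perm (Fin m)) (R : ℕ) (π : ℕ → Fin 5)
    (v : Fin (m * 4 + Fintype.card (IT m)) ⊕
      Fin (m * 8 + (Fintype.card (IT m) + Fintype.card (KT m R)))) (hv : 0 < fq W σ R π v) :
    ∃ p f, v = frow m R p f := by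
  revert v
  refine var_cases (fun v => ?_) (fun i => ?_) (fun i => ?_) (fun i => ?_)
  · rcases v with j | i
    · intro h
      rw [fq, extq_emb] at h
      simp [qv] at h
    · intro _
      obtain ⟨p, f, rfl⟩ := exists_row i
      exact ⟨p, f, rfl⟩
  · intro h; rw [fq, extq_u] at h; exact absurd h (lt_irrefl _)
  · intro h; rw [fq, extq_r] at h; exact absurd h (lt_irrefl _)
  · intro h; rw [fq, extq_s] at h; exact absurd h (lt_irrefl _)

end Pool.Agent.Lib.MP_4d246d_lc.Local
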