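import Pool.Agent.Lib.MP_4d246d_lc.Local.Defs

/-!
# General facts on linear programs
-/

namespace Pool.Agent.Lib.MP_4d246d_lc.Local

open Finset

namespace LP

variable {n k : ℕ} (P : LP n k)

lemma mem_feasible {x : Fin n → ℝ} : x ∈ P.feasible ↔ ∀ v, 0 ≤ P.val x v := by
  simp [feasible, val, Sum.forall, Set.mem_ofPred_eq]

lemma val_comb (x y : Fin n → ℝ) {a b : ℝ} (hab : a + b = 1) (v : Fin n ⊕ Fin k) :
    P.val (a • x + b • y) v = a * P.val x v + b * P.val y v := by
  cases v with
  | inl j => simp [val]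
  | inr i =>
    simp only [val, Sum.elim_inr, Pi.add_apply, Pi.smul_apply, smul_eq_mul, mul_add,
      Finset.sum_add_distrib]
    have h1 : ∑ j, (P.A i j : ℝ) * (a * x j) = a * ∑ j, (P.A i j : ℝ) * x j := by
      rw [Finset.mul_sum]; exact Finset.sum_congr rfl fun j _ => by ring
    have h2 : ∑ j, (P.A i j : ℝ) * (b * y j) = b * ∑ j, (P.A i j : ℝ) * y j := by
      rw [Finset.mul_sum]; exact Finset.sum_congr rfl fun j _ => by ring
    rw [h1, h2]
    linear_combination (-(P.b i : ℝ)) * hab

/-- In the feasible polyhedron, a constraint that is tight inside a segment is tight at its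
endpoints. -/
lemma val_eq_zero_of_openSegment {x y z : Fin n → ℝ} (hx : x ∈ P.feasible) (hy : y ∈ P.feasible)
    (hz : z ∈ openSegment ℝ x y) {v : Fin n ⊕ Fin k} (hv : P.val z v = 0) :
    P.val x v = 0 ∧ P.val y v = 0 := by
  obtain ⟨a, b, ha, hb, hab, rfl⟩ := hz
  rw [P.val_comb _ _ hab] at hv
  have h1 := P.mem_feasible.1 hx v
  have h2 := P.mem_feasible.1 hy v
  have h3 := mul_nonneg ha.le h1
  have h4 := mul_nonneg hb.le h2
  have h5 : a * P.val x v = 0 := by linarith
  have h6 : b * P.val y v = 0 := by linarith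
  exact ⟨(mul_eq_zero.1 h5).resolve_left ha.ne', (mul_eq_zero.1 h6).resolve_left hb.ne'⟩

lemma convex_feasible : Convex ℝ P.feasible := by
  intro x hx y hy a b ha hb hab
  rw [P.mem_feasible] at hx hy ⊢
  intro v
  rw [P.val_comb _ _ hab]
  exact add_nonneg (mul_nonneg ha (hx v)) (mul_nonneg hb (hy v))

/-- A feasible point that is determined by its tight constraints is a vertex. -/
lemma isVertex_of_rigid {x : Fin n → ℝ} (hx : x ∈ P.feasible)
    (h : ∀ z, (∀ v, P.val x v = 0 → P.val z v = 0) → z = x) : P.IsVertex x := by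
  refine ⟨hx, fun y hy z hz hseg => h y fun v hv => ?_⟩
  exact (P.val_eq_zero_of_openSegment hy hz hseg hv).1

/-- Criterion for an edge. -/
lemma isEdge_of_line {x y : Fin n → ℝ} (hx : P.IsVertex x) (hy : P.IsVertex y) (hxy : x ≠ y)
    (h : ∀ z, (∀ v, P.val x v = 0 → P.val y v = 0 → P.val z v = 0) →
      ∃ t : ℝ, z = (1 - t) • x + t • y)
    {v w : Fin n ⊕ Fin k} (hv : P.val x v = 0) (hv' : 0 < P.val y v)
    (hw : 0 < P.val x w) (hw' : P.val y w = 0) : P.IsEdge x y := by
  refine ⟨hxy, hx, hy, ?_, ?_⟩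
  · exact P.convex_feasible.segment_subset hx.1 hy.1
  · intro z₁ hz₁ z₂ hz₂ z hz hseg
    obtain ⟨a, b, ha, hb, hab, rfl⟩ := hz
    obtain ⟨t, ht⟩ := h z₁ fun u hu hu' => by
      refine (P.val_eq_zero_of_openSegment hz₁ hz₂ hseg ?_).1
      rw [P.val_comb _ _ hab, hu, hu']
      ring
    have hz₁' := P.mem_feasible.1 hz₁
    have h1 := hz₁' v
    have h2 := hz₁' w
    rw [ht, P.val_comb _ _ (by ring), hv] at h1
    rw [ht, P.val_comb _ _ (by ring), hw'] at h2
    have ht0 : 0 ≤ t := by
      by_contra hneg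
      have := mul_neg_of_neg_of_pos (not_le.1 hneg) hv'
      linarith
    have ht1 : 0 ≤ 1 - t := by
      by_contra hneg
      have := mul_neg_of_neg_of_pos (not_le.1 hneg) hw
      linarith
    exact ⟨1 - t, t, ht1, ht0, by ring, ht.symm⟩

lemma IsEdge.symm {x y : Fin n → ℝ} (h : P.IsEdge x y) : P.IsEdge y x :=
  ⟨h.1.symm, h.2.2.1, h.2.1, by rw [segment_symm]; exact h.2.2.2⟩

lemma val_comb3 (x y z : Fin n → ℝ) {a b c : ℝ} (hab : a + b + c = 1) (v : Fin n ⊕ Fin k) :
    P.val (a • x + b • y + c • z) v = a * P.val x v + b * P.val y v + c * P.val z v := by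
  cases v with
  | inl j => simp [val]
  | inr i =>
    simp only [val, Sum.elim_inr, Pi.add_apply, Pi.smul_apply, smul_eq_mul, mul_add,
      Finset.sum_add_distrib]
    have h1 (x : Fin n → ℝ) (a : ℝ) :
        ∑ j, (P.A i j : ℝ) * (a * x j) = a * ∑ j, (P.A i j : ℝ) * x j := by
      rw [Finset.mul_sum]; exact Finset.sum_congr rfl fun j _ => by ring
    rw [h1, h1, h1]
    linear_combination (-(P.b i : ℝ)) * hab

/-- Two points on the same ray from a vertex which are both vertices are equal. -/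
lemma ray_unique {x y y' : Fin n → ℝ} {s : ℝ} (hx : P.IsVertex x) (hy' : P.IsVertex y')
    (hy : P.IsVertex y) (hs : 0 < s) (hxy : x ≠ y) (hxy' : x ≠ y')
    (h : y' = (1 - s) • x + s • y) : y' = y := by
  rcases lt_trichotomy s 1 with h1 | h1 | h1
  · exfalso
    exact hxy' (hy'.2 hx.1 hy.1 ⟨1 - s, s, by linarith, hs, by ring, h.symm⟩)
  · rw [h, h1]; simp
  · exfalso
    refine hxy (hy.2 hx.1 hy'.1 ⟨1 - 1 / s, 1 / s, ?_, by positivity, by ring, ?_⟩)
    · have : 1 / s < 1 := by rw [div_lt_one hs]; exact h1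
      linarith
    · rw [h, smul_add, smul_smul, smul_smul, ← add_assoc, ← add_smul]
      have e1 : 1 - 1 / s + 1 / s * (1 - s) = 0 := by field_simp; ring
      have e2 : 1 / s * s = 1 := by field_simp
      rw [e1, e2, zero_smul, one_smul, zero_add]

/-- The vertex reached by a simplex step is determined. -/
lemma step_unique {x y y' : Fin n → ℝ} {q : Fin n ⊕ Fin k → ℝ} (hq : P.IsReducedCost x q)
    {v : Fin n ⊕ Fin k} (hy : P.IsEdge x y) (hy' : P.IsEdge x y')
    (ho : P.obj x < P.obj y) (ho' : P.obj x < P.obj y')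
    (h : ∀ w, w ≠ v → P.val x w = 0 → P.val y w = 0)
    (h' : ∀ w, w ≠ v → P.val x w = 0 → P.val y' w = 0) : y' = y := by
  have key : ∀ z : Fin n → ℝ, P.IsVertex z → P.obj x < P.obj z →
      (∀ w, w ≠ v → P.val x w = 0 → P.val z w = 0) → P.val x v = 0 ∧ 0 < P.val z v := by
    intro z hz hoz hzw
    have h1 := hq.2 z
    rw [Finset.sum_eq_single v] at h1
    · have h2 : 0 < q v * P.val z v := by linarith
      have h3 : q v ≠ 0 := left_ne_zero_of_mul h2.ne'
      have h4 : P.val z v ≠ 0 := right_ne_zero_of_mul h2.ne'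
      refine ⟨by_contra fun h5 => h3 (hq.1 v h5), lt_of_le_of_ne ?_ h4.symm⟩
      exact P.mem_feasible.1 hz.1 v
    · intro w _ hw
      by_cases h5 : P.val x w = 0
      · rw [hzw w hw h5, mul_zero]
      · rw [hq.1 w h5, zero_mul]
    · simp
  obtain ⟨hxv, hyv⟩ := key y hy.2.2.1 ho h
  obtain ⟨-, hyv'⟩ := key y' hy'.2.2.1 ho' h'
  set τ := P.val y v with hτ
  set τ' := P.val y' v with hτ'
  have hx := P.mem_feasible.1 hy.2.1.1
  -- a small multiple of the direction `τ' (y - x) - τ (y' - x)` keeps `x` feasible both ways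
  have hval : ∀ (e : ℝ) w, P.val ((1 - e * τ' + e * τ) • x + (e * τ') • y + (-(e * τ)) • y') w =
      P.val x w + e * (τ' * (P.val y w - P.val x w) - τ * (P.val y' w - P.val x w)) := by
    intro e w
    rw [P.val_comb3 _ _ _ (by ring)]
    ring
  obtain ⟨e, he, hepos⟩ : ∃ e : ℝ, (∀ w, |e * (τ' * (P.val y w - P.val x w) -
      τ * (P.val y' w - P.val x w))| ≤ P.val x w) ∧ 0 < e := by
    have hev : ∀ᶠ e in nhdsWithin (0 : ℝ) (Set.Ioi 0), ∀ w, |e * (τ' * (P.val y w - P.val x w) -
        τ * (P.val y' w - P.val x w))| ≤ P.val x w := by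
      rw [Filter.eventually_all]
      intro w
      by_cases hw : P.val x w = 0
      · refine Filter.Eventually.of_forall fun e => ?_
        by_cases hwv : w = v
        · subst hwv
          rw [hw, ← hτ, ← hτ']
          have : e * (τ' * (τ - 0) - τ * (τ' - 0)) = 0 := by ring
          rw [this, abs_zero]
        · rw [h w hwv hw, h' w hwv hw, hw]
          simp
      · have hpos : 0 < P.val x w := lt_of_le_of_ne (hx w) (Ne.symm hw)
        refine Filter.Eventually.filter_mono nhdsWithin_le_nhds ?_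
        have hc : Continuous fun e : ℝ => |e * (τ' * (P.val y w - P.val x w) -
            τ * (P.val y' w - P.val x w))| := by fun_prop
        have := hc.tendsto 0
        simp only [zero_mul, abs_zero] at this
        exact (this.eventually (gt_mem_nhds hpos)).mono fun e he => le_of_lt he
    exact (hev.and self_mem_nhdsWithin).exists
  have hz1 : (1 - e * τ' + e * τ) • x + (e * τ') • y + (-(e * τ)) • y' ∈ P.feasible := by
    rw [P.mem_feasible]
    intro w
    rw [hval]
    have := he w
    rw [abs_le] at this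
    linarith [this.1]
  have hz2 : (1 - (-e) * τ' + (-e) * τ) • x + ((-e) * τ') • y + (-((-e) * τ)) • y' ∈
      P.feasible := by
    rw [P.mem_feasible]
    intro w
    rw [hval]
    have := he w
    rw [abs_le] at this
    linarith [this.2]
  have hmid := hy.2.1.2 hz1 hz2 ⟨1 / 2, 1 / 2, by norm_num, by norm_num, by norm_num, by
    funext j
    simp only [Pi.add_apply, Pi.smul_apply, smul_eq_mul]
    ring⟩
  have hlin : y' = (1 - τ' / τ) • x + (τ' / τ) • y := by
    funext j
    have hj := congrFun hmid j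
    simp only [Pi.add_apply, Pi.smul_apply, smul_eq_mul] at hj ⊢
    have h1 : e * (τ * y' j - (τ * x j - τ' * x j + τ' * y j)) = 0 := by linarith
    have h2 := (mul_eq_zero.1 h1).resolve_left hepos.ne'
    field_simp
    linarith
  have hne : x ≠ y' := hy'.1
  exact P.ray_unique hy.2.1 hy'.2.2.1 hy.2.2.1 (by positivity) hy.1 hne hlin

end LP

end Pool.Agent.Lib.MP_4d246d_lc.Local
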