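import Pool.Agent.Lib.MP_4d246d_lc.Local.Ties

/-!
# The lower bound for local rules
-/

namespace Pool.Agent.Lib.MP_4d246d_lc.Local

open Finset

lemma state_zero (m : ℕ) : IsState m 0 (fun _ => 0) :=
  ⟨by omega, fun ℓ hℓ => by omega, fun _ => by decide, fun _ _ => Or.inl rfl, fun _ _ => rfl⟩

theorem main (r : LocalRule) {a C : ℕ}
    (hr : ∀ n k, r.labels n k ^ (a + 1) ≤ C * (n + k + 1) ^ a) (m : ℕ) :
    ∃ (n k : ℕ) (P : LP n k) (x : ℕ → Fin n → ℝ),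
      P.size ≤ 54 * (12 + C * 3 ^ a * 8 ^ (a + 1)) * (m + 1) ^ (2 * a + 5) ∧
      IsRun r P (4 * (2 ^ m - 1)) x ∧
      (r.IgnoresConstraints → ∀ t < 4 * (2 ^ m - 1), NoTies P (x t)) := by
  classical
  obtain ⟨R, hR⟩ : ∃ R, R = RR a C m := ⟨_, rfl⟩
  rcases Nat.eq_zero_or_pos m with rfl | hm
  · refine ⟨nn 0, kk 0 R, full W1 1 R, fun _ => fvert W1 1 fun _ => 0, ?_, ?_, ?_⟩
    · rw [hR]; exact final_size W1 1 a C
    · exact ⟨fvert_isVertex W1 1 R _, fun t ht => absurd ht (by simp)⟩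
    · intro _ t ht
      exact absurd ht (by simp)
  · have hRk : 8 * r.labels (nn m) (kk m R) * m * m ≤ kk m R := by
      rw [hR]; exact enough_names hm (hr _ _)
    obtain ⟨φ', -, -, f, hf0, -, hf⟩ := path m le_rfl _ (state_zero m) fun _ _ => rfl
    have key : ∀ (W : Wt) (C₀ : Multiset ((Fin (nn m) → ℚ) × ℚ)) (X₀ : Fin (nn m) → ℝ),
        (∀ σ : Equiv.Perm (Fin m), r.Agree m R (full W σ R).constraints C₀
          (fvert W σ (f 0)) X₀) →
        ∃ (σ : Equiv.Perm (Fin m)) (ρ : Equiv.Perm (Fin (kk m R))),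
          ((full W σ R).permRows ρ).size ≤
            54 * (12 + C * 3 ^ a * 8 ^ (a + 1)) * (m + 1) ^ (2 * a + 5) ∧
          IsRun r ((full W σ R).permRows ρ) (4 * (2 ^ m - 1)) fun t => fvert W σ (f t) := by
      intro W C₀ X₀ hag
      obtain ⟨σ, ρ, hσ⟩ := run W hm R r hRk C₀ X₀ (f 0) hag
      refine ⟨σ, ρ, ?_, ?_, fun t ht => ?_⟩
      · rw [permRows_size, hR]; exact final_size W σ a C
      · rw [permRows_isVertex]; exact fvert_isVertex W σ R _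
      · have h1 := hσ _ _ (hf t ht)
        exact ⟨h1, fun y hy => simplexStep_unique r h1 hy⟩
    by_cases hign : r.IgnoresConstraints
    · obtain ⟨σ, ρ, h1, h2⟩ := key W2 0 0 fun σ => hign (nn m) (kk m R) _ _ rfl
      refine ⟨nn m, kk m R, _, _, h1, h2, fun _ t ht => ?_⟩
      obtain ⟨a, φ, -, hφ, hπ, -⟩ := hf t ht
      simp only [hπ]
      exact noTies hm hφ ρ
    · obtain ⟨σ, ρ, h1, h2⟩ := key W1 (full W1 1 R).constraints (fvert W1 (1 : Equiv.Perm (Fin m))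
        (f 0)) fun σ => by
          rw [constraints_W1 σ, fvert_W1 σ]
          exact ⟨rfl, rfl, rfl⟩
      exact ⟨nn m, kk m R, _, _, h1, h2, fun h => absurd h hign⟩

/-! ### Polynomials -/

lemma eval_mono (p : Polynomial ℕ) {a b : ℕ} (h : a ≤ b) : p.eval a ≤ p.eval b := by
  rw [Polynomial.eval_eq_sum_range, Polynomial.eval_eq_sum_range]
  exact Finset.sum_le_sum fun i _ => Nat.mul_le_mul_left _ (Nat.pow_le_pow_left h i)

lemma eval_le (p : Polynomial ℕ) {a : ℕ} (h : 1 ≤ a) : p.eval a ≤ p.eval 1 * a ^ p.natDegree := by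
  rw [Polynomial.eval_eq_sum_range, Polynomial.eval_eq_sum_range, Finset.sum_mul]
  refine Finset.sum_le_sum fun i hi => ?_
  rw [one_pow, mul_one]
  exact Nat.mul_le_mul_left _ (Nat.pow_le_pow_right h
    (Nat.lt_succ_iff.1 (Finset.mem_range.1 hi)))

lemma exists_large (A D : ℕ) : ∃ m : ℕ, 1 ≤ m ∧ A * (m + 1) ^ D < 2 ^ m := by
  have h1 := tendsto_pow_const_div_const_pow_of_one_lt D (one_lt_two : (1 : ℝ) < 2)
  have h2 : Filter.Tendsto (fun n : ℕ => ((A : ℝ) * 2 ^ D) * ((n : ℝ) ^ D / 2 ^ n)) Filter.atTop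
      (nhds 0) := by
    have := h1.const_mul ((A : ℝ) * 2 ^ D)
    simpa using this
  have h3 := (h2.eventually (gt_mem_nhds one_pos)).and (Filter.eventually_ge_atTop 1)
  obtain ⟨m, hm, hm1⟩ := h3.exists
  refine ⟨m, hm1, ?_⟩
  have h4 : (0 : ℝ) < 2 ^ m := by positivity
  have h5 : ((A : ℝ) * 2 ^ D) * (m : ℝ) ^ D < 2 ^ m := by
    have : ((A : ℝ) * 2 ^ D) * ((m : ℝ) ^ D / 2 ^ m) = ((A : ℝ) * 2 ^ D) * (m : ℝ) ^ D / 2 ^ m := by
      ring
    rw [this, div_lt_one h4] at hm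
    exact hm
  have h6 : A * 2 ^ D * m ^ D < 2 ^ m := by exact_mod_cast h5
  calc A * (m + 1) ^ D ≤ A * (2 * m) ^ D := by
        apply Nat.mul_le_mul_left
        apply Nat.pow_le_pow_left
        omega
    _ = A * 2 ^ D * m ^ D := by rw [mul_pow]; ring
    _ < 2 ^ m := h6

theorem main_poly (r : LocalRule) {a C : ℕ}
    (hr : ∀ n k, r.labels n k ^ (a + 1) ≤ C * (n + k + 1) ^ a) (p : Polynomial ℕ) :
    ∃ (n k T : ℕ) (P : LP n k) (x : ℕ → Fin n → ℝ), p.eval P.size < T ∧ IsRun r P T x ∧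
      (r.IgnoresConstraints → ∀ t < T, NoTies P (x t)) := by
  set B := 54 * (12 + C * 3 ^ a * 8 ^ (a + 1)) with hB
  obtain ⟨m, hm, hlarge⟩ := exists_large
    (p.eval 1 * B ^ p.natDegree) ((2 * a + 5) * p.natDegree)
  obtain ⟨n, k, P, x, h1, h2, h3⟩ := main r hr m
  refine ⟨n, k, _, P, x, ?_, h2, h3⟩
  have h4 : 1 ≤ B * (m + 1) ^ (2 * a + 5) := Nat.one_le_iff_ne_zero.2 (by positivity)
  calc p.eval P.size ≤ p.eval (B * (m + 1) ^ (2 * a + 5)) := eval_mono p h1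
    _ ≤ p.eval 1 * (B * (m + 1) ^ (2 * a + 5)) ^ p.natDegree := eval_le p h4
    _ = p.eval 1 * B ^ p.natDegree * (m + 1) ^ ((2 * a + 5) * p.natDegree) := by
        rw [mul_pow, ← pow_mul]; ring
    _ < 2 ^ m := hlarge
    _ ≤ 4 * (2 ^ m - 1) := by
        have : 2 ≤ 2 ^ m := by
          calc 2 = 2 ^ 1 := by norm_num
            _ ≤ 2 ^ m := Nat.pow_le_pow_right (by norm_num) hm
        omega

end Pool.Agent.Lib.MP_4d246d_lc.Local
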