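import Pool.Agent.Lib.MP_4d246d_lc.Local.Cost

/-!
# Changes of the variables along edges
-/

namespace Pool.Agent.Lib.MP_4d246d_lc.Local

open Finset

lemma tblA : ∀ J J' : Fin 5, Adj J J' → ∀ i, pg J' i - pg J i = 2 ∨ pg J' i - pg J i = -2 := by
  decide
lemma tblB : ∀ J J' : Fin 5, ∀ i, pX J' i - pX J i = -(pp J' i - pp J i) := by decide
lemma tblC : ∀ J J' : Fin 5, kap J' = kap J → ∀ i, pp J' i = pp J i := by decide
lemma tblD : ∀ J J' : Fin 5, kap J' = kap J → ∀ f, ME J' f = ME J f := by decide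
lemma tblE : ∀ J : Fin 5, J ≠ 2 → (pp J 0 = 1 ∨ pp J 0 = -1) ∧ (pp J 1 = 1 ∨ pp J 1 = -1) ∧
    pp J 2 = 0 ∧ (pp J 3 = 1 ∨ pp J 3 = -1) := by decide

/-- The changes along the edge are independent of the state. -/
structure Vis (W : Wt) {m : ℕ} (σ : Equiv.Perm (Fin m)) (π : ℕ → Fin 5) (ℓ₀ : ℕ) (J' : Fin 5) :
    Prop where
  lt : ℓ₀ < m
  adj : Adj (π ℓ₀) J'
  own : kap J' = kap (π ℓ₀) ∨ (XS W σ ℓ₀ : ℝ) - prev (vx W σ π) ℓ₀ = 0
  upper : ∀ ℓ, ℓ₀ < ℓ → ℓ < m → π ℓ ≠ 2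

section

variable {W : Wt} {m : ℕ} {σ : Equiv.Perm (Fin m)} {π : ℕ → Fin 5} {ℓ₀ : ℕ} {J' : Fin 5}

lemma dV_lower {ℓ : ℕ} (hℓ : ℓ < ℓ₀) (i : Fin 4) :
    vV W σ (Function.update π ℓ₀ J') ℓ i - vV W σ π ℓ i = 0 := by
  rw [vV, vV, Function.update_of_ne (by omega), prev_vx_update W σ π ℓ (by omega), sub_self]

lemma dV_own (h : Vis W σ π ℓ₀ J') (i : Fin 4) :
    vV W σ (Function.update π ℓ₀ J') ℓ₀ i - vV W σ π ℓ₀ i = 2 * W.g (blk σ ℓ₀) ∨
    vV W σ (Function.update π ℓ₀ J') ℓ₀ i - vV W σ π ℓ₀ i = -(2 * W.g (blk σ ℓ₀)) := by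
  have h1 : vV W σ (Function.update π ℓ₀ J') ℓ₀ i - vV W σ π ℓ₀ i =
      ((pg J' i - pg (π ℓ₀) i : ℤ) : ℝ) * W.g (blk σ ℓ₀) := by
    rw [vV, vV, Function.update_self, prev_vx_update W σ π ℓ₀ le_rfl, posR, posR]
    have hB : (pX J' i : ℝ) - pX (π ℓ₀) i = -(pp J' i - pp (π ℓ₀) i) := by
      exact_mod_cast tblB (π ℓ₀) J' i
    rcases h.own with h2 | h2
    · have hC : (pp J' i : ℝ) = pp (π ℓ₀) i := by exact_mod_cast tblC _ _ h2 i
      push_cast
      linear_combination (XS W σ ℓ₀ : ℝ) * hB + (prev (vx W σ π) ℓ₀ - XS W σ ℓ₀) * hC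
    · push_cast
      linear_combination (XS W σ ℓ₀ : ℝ) * hB - ((pp J' i : ℝ) - pp (π ℓ₀) i) * h2
  rw [h1]
  rcases tblA _ _ h.adj i with h2 | h2 <;> rw [h2]
  · left; push_cast; ring
  · right; push_cast; ring

lemma dV_upper {ℓ : ℕ} (hℓ : ℓ₀ < ℓ) (i : Fin 4) :
    vV W σ (Function.update π ℓ₀ J') ℓ i - vV W σ π ℓ i =
      pp (π ℓ) i * (prev (vx W σ (Function.update π ℓ₀ J')) ℓ - prev (vx W σ π) ℓ) := by
  rw [vV, vV, Function.update_of_ne (by omega), posR, posR]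
  ring

lemma dx (h : Vis W σ π ℓ₀ J') : ∀ ℓ, ℓ₀ < ℓ → ℓ ≤ m →
    prev (vx W σ (Function.update π ℓ₀ J')) ℓ - prev (vx W σ π) ℓ = 2 * W.g (blk σ ℓ₀) ∨
    prev (vx W σ (Function.update π ℓ₀ J')) ℓ - prev (vx W σ π) ℓ = -(2 * W.g (blk σ ℓ₀)) := by
  intro ℓ
  induction ℓ with
  | zero => intro h1; omega
  | succ ℓ ih =>
    intro h1 h2
    simp only [prev]
    by_cases hℓ : ℓ = ℓ₀
    · subst hℓ
      have := dV_own h 0
      simpa only [vV_zero] using this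
    · have h3 := dV_upper (W := W) (σ := σ) (π := π) (J' := J') (show ℓ₀ < ℓ by omega) 0
      simp only [vV_zero] at h3
      rw [h3]
      have h4 := ih (by omega) (by omega)
      rcases (tblE _ (h.upper ℓ (by omega) (by omega))).1 with h5 | h5 <;> rw [h5] <;>
        push_cast <;> rcases h4 with h6 | h6 <;> rw [h6]
      · left; ring
      · right; ring
      · right; ring
      · left; ring

/-- `S (±a)` -/
lemma even_of {S : ℝ → ℝ} (hS : ∀ a, S (-a) = S a) {a b : ℝ} (h : a = b ∨ a = -b) : S a = S b := by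
  rcases h with rfl | rfl
  · rfl
  · exact hS b

/-- sums over the coordinates of a level -/
lemma sum_dV (h : Vis W σ π ℓ₀ J') {S : ℝ → ℝ} (hS : ∀ a, S (-a) = S a) {ℓ : ℕ} (hm : ℓ < m) :
    ∑ i, S (vV W σ (Function.update π ℓ₀ J') ℓ i - vV W σ π ℓ i) =
      if ℓ < ℓ₀ then 4 * S 0 else if ℓ = ℓ₀ then 4 * S (2 * W.g (blk σ ℓ₀)) else
        3 * S (2 * W.g (blk σ ℓ₀)) + S 0 := by
  split_ifs with h1 h2
  · rw [Finset.sum_congr rfl fun i _ => by rw [dV_lower h1 i]]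
    simp
  · subst h2
    rw [Finset.sum_congr rfl fun i _ => even_of hS (dV_own h i)]
    simp
  · have h3 := dx h ℓ (by omega) hm.le
    rw [Finset.sum_congr rfl fun i _ => by rw [dV_upper (show ℓ₀ < ℓ by omega) i],
      Fin.sum_univ_four]
    obtain ⟨e0, e1, e2, e3⟩ := tblE _ (h.upper ℓ (by omega) hm)
    have key : ∀ c : ℤ, (c = 1 ∨ c = -1) →
        S (c * (prev (vx W σ (Function.update π ℓ₀ J')) ℓ - prev (vx W σ π) ℓ)) =
        S (2 * W.g (blk σ ℓ₀)) := by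
      intro c hc
      refine even_of hS ?_
      rcases hc with rfl | rfl <;> rcases h3 with h4 | h4 <;> rw [h4]
      · left; push_cast; ring
      · right; push_cast; ring
      · right; push_cast; ring
      · left; push_cast; ring
    rw [key _ e0, key _ e1, key _ e3, e2]
    push_cast
    rw [zero_mul]
    ring

/-- the coordinate `z_2` changes only by moves of its own level -/
lemma dz (h : Vis W σ π ℓ₀ J') {S : ℝ → ℝ} (hS : ∀ a, S (-a) = S a) {ℓ : ℕ} (hm : ℓ < m) (c : ℝ) :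
    S (c * (vV W σ (Function.update π ℓ₀ J') ℓ 2 - vV W σ π ℓ 2)) =
      if ℓ = ℓ₀ then S (c * (2 * W.g (blk σ ℓ₀))) else S 0 := by
  split_ifs with h1
  · subst h1
    refine even_of hS ?_
    rcases dV_own h 2 with h2 | h2 <;> rw [h2]
    · left; rfl
    · right; ring
  · rcases lt_or_gt_of_ne h1 with h2 | h2
    · rw [dV_lower h2, mul_zero]
    · rw [dV_upper h2, (tblE _ (h.upper ℓ h2 hm)).2.2.1]
      push_cast
      rw [zero_mul, mul_zero]

/-! ### Slacks -/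

lemma tblF (J J' : Fin 5) (h : Adj J J') {S : ℝ → ℝ} (hS : ∀ a, S (-a) = S a) (c : ℝ) :
    ∑ f, S (((MG J' f - MG J f : ℤ) : ℝ) * c) = 5 * S (4 * c) + 3 * S 0 := by
  have hcases : (J = 0 ∧ J' = 1) ∨ (J = 1 ∧ J' = 2) ∨ (J = 2 ∧ J' = 3) ∨ (J = 3 ∧ J' = 4) ∨
      (J' = 0 ∧ J = 1) ∨ (J' = 1 ∧ J = 2) ∨ (J' = 2 ∧ J = 3) ∨ (J' = 3 ∧ J = 4) := by
    rcases h with h | h
    · rcases adj_cases _ _ h with h | h | h | h <;> simp [h]
    · rcases adj_cases _ _ h with h | h | h | h <;> simp [h]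
  have h4 : S (-4 * c) = S (4 * c) := by rw [← hS]; congr 1; ring
  rcases hcases with ⟨rfl, rfl⟩ | ⟨rfl, rfl⟩ | ⟨rfl, rfl⟩ | ⟨rfl, rfl⟩ | ⟨rfl, rfl⟩ | ⟨rfl, rfl⟩ |
    ⟨rfl, rfl⟩ | ⟨rfl, rfl⟩ <;>
  · rw [Fin.sum_univ_eight]
    simp [MG]
    try simp only [← neg_mul, h4]
    ring

lemma tblG (J : Fin 5) (h : J ≠ 2) (S : ℝ → ℝ) (c : ℝ) :
    ∑ f, S ((ME J f : ℝ) * c) = S (2 * c) + 2 * S (4 * c) + 5 * S 0 := by
  fin_cases J <;> simp at h <;> simp [ME, Fin.sum_univ_eight] <;> ring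

/-- sums over the slacks of a block -/
lemma sum_dS (h : Vis W σ π ℓ₀ J') {S : ℝ → ℝ} (hS : ∀ a, S (-a) = S a) (p : Fin m) :
    ∑ f, S ((core W σ).val (vert W σ (Function.update π ℓ₀ J')) (Sum.inr (row p f)) -
      (core W σ).val (vert W σ π) (Sum.inr (row p f))) =
      if (σ p : ℕ) < ℓ₀ then 8 * S 0 else if (σ p : ℕ) = ℓ₀ then
        5 * S (4 * (W.u p * W.g (blk σ ℓ₀))) + 3 * S 0 else
        S (2 * (W.u p * (2 * W.g (blk σ ℓ₀)))) + 2 * S (4 * (W.u p * (2 * W.g (blk σ ℓ₀)))) +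
          5 * S 0 := by
  split_ifs with h1 h2
  · have h3 : ∀ f, (core W σ).val (vert W σ (Function.update π ℓ₀ J')) (Sum.inr (row p f)) -
      (core W σ).val (vert W σ π) (Sum.inr (row p f)) = 0 := by
      intro f
      rw [val_row_vert, val_row_vert, Function.update_of_ne (by omega),
        prev_vx_update W σ π _ (by omega), sub_self]
    rw [Finset.sum_congr rfl fun f _ => by rw [h3 f]]
    simp
  · have h3 : ∀ f, (core W σ).val (vert W σ (Function.update π ℓ₀ J')) (Sum.inr (row p f)) -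
      (core W σ).val (vert W σ π) (Sum.inr (row p f)) =
      ((MG J' f - MG (π ℓ₀) f : ℤ) : ℝ) * (W.u p * W.g (blk σ ℓ₀)) := by
      intro f
      have hb : W.g p = W.g (blk σ ℓ₀) := by rw [← h2, blk_eq]
      rw [val_row_vert, val_row_vert, hb, h2, Function.update_self,
        prev_vx_update W σ π _ le_rfl]
      rcases h.own with h4 | h4
      · rw [tblD _ _ h4 f]
        push_cast; ring
      · rw [h4]; push_cast; ring
    rw [Finset.sum_congr rfl fun f _ => by rw [h3 f], tblF _ _ h.adj hS]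
  · have h3 : ∀ f, (core W σ).val (vert W σ (Function.update π ℓ₀ J')) (Sum.inr (row p f)) -
      (core W σ).val (vert W σ π) (Sum.inr (row p f)) =
      (ME (π (σ p)) f : ℝ) * (-(W.u p * (prev (vx W σ (Function.update π ℓ₀ J')) (σ p) -
        prev (vx W σ π) (σ p)))) := by
      intro f
      rw [val_row_vert, val_row_vert, Function.update_of_ne (by omega)]
      ring
    rw [Finset.sum_congr rfl fun f _ => by rw [h3 f],
      tblG _ (h.upper _ (by omega) (σ p).2)]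
    have h4 := dx h (σ p) (by omega) (σ p).2.le
    have key : ∀ c : ℝ, S (c * (-(W.u p * (prev (vx W σ (Function.update π ℓ₀ J')) (σ p) -
        prev (vx W σ π) (σ p))))) = S (c * (W.u p * (2 * W.g (blk σ ℓ₀)))) := by
      intro c
      refine even_of hS ?_
      rcases h4 with h5 | h5 <;> rw [h5]
      · right; ring
      · left; ring
    rw [key, key]

end

end Pool.Agent.Lib.MP_4d246d_lc.Local
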