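import Mathlib

/-!
# Choice of names and of the order of the levels
-/

namespace Pool.Agent.Lib.MP_4d246d_lc.Local

open Finset

/-- Separated names: for every block `p` one can choose eight names with the same label such that
the keys of the names of different blocks are separated. -/
lemma extract {β Λ : Type*} [DecidableEq β] [LinearOrder Λ] {k s : ℕ} (v₀ : Fin k)
    (κ : β → Fin k → Λ) (hκ : ∀ p, Function.Injective (κ p)) (lab : β → Fin k → Fin s) :
    ∀ (b : ℕ) (B : Finset β) (S : Finset (Fin k)), B.card = b → 8 * s * b * b ≤ S.card →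
      ∃ (ord : List β) (N : β → Fin 8 → Fin k) (c : β → Fin s), ord.Nodup ∧
        (∀ p, p ∈ ord ↔ p ∈ B) ∧
        (∀ p ∈ B, ∀ f, N p f ∈ S ∧ lab p (N p f) = c p) ∧
        (∀ p ∈ B, ∀ p' ∈ B, ∀ f f', N p f = N p' f' → p = p' ∧ f = f') ∧
        ord.Pairwise fun p p' => ∀ f f', κ p (N p f) < κ p' (N p' f') := by
  classical
  intro b
  induction b with
  | zero =>
    intro B S hB _
    rw [Finset.card_eq_zero] at hB
    subst hB
    exact ⟨[], fun _ _ => v₀, fun p => lab p v₀, by simp, by simp, by simp, by simp, by simp⟩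
  | succ b ih =>
    intro B S hB hS
    have hBne : B.Nonempty := by rw [← Finset.card_pos]; omega
    obtain ⟨p₁, hp₁⟩ := hBne
    have hs : 0 < s := (Nat.zero_le _).trans_lt (lab p₁ v₀).2
    -- eight names with the same label
    have hmono : ∀ (p : β) (S : Finset (Fin k)), 8 * s ≤ S.card →
        ∃ A ⊆ S, A.card = 8 ∧ ∃ c, ∀ v ∈ A, lab p v = c := by
      intro p S hS
      obtain ⟨c, -, hc⟩ := Finset.exists_le_card_fiber_of_mul_le_card_of_maps_to
        (s := S) (t := (Finset.univ : Finset (Fin s))) (f := lab p) (n := 8)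
        (fun _ _ => Finset.mem_univ _) ⟨lab p v₀, Finset.mem_univ _⟩
        (by rw [Finset.card_univ, Fintype.card_fin, mul_comm]; exact hS)
      obtain ⟨A, hA, hA8⟩ := Finset.exists_subset_card_eq hc
      exact ⟨A, hA.trans (Finset.filter_subset _ _), hA8, c, fun v hv =>
        (Finset.mem_filter.1 (hA hv)).2⟩
    have h8s : 8 * s ≤ S.card := by
      calc 8 * s ≤ 8 * s * ((b + 1) * (b + 1)) := Nat.le_mul_of_pos_right _ (by positivity)
        _ = 8 * s * (b + 1) * (b + 1) := by ring
        _ ≤ S.card := hS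
    obtain ⟨A, hAS, hA, hAc⟩ := hmono p₁ S h8s
    have hne : ∀ A : Finset (Fin k), A.card = 8 → A.Nonempty := fun A hA => by
      rw [← Finset.card_pos]; omega
    -- minimise the largest key
    let val : β × Finset (Fin k) → Λ := fun x =>
      if h : x.2.Nonempty then x.2.sup' h (κ x.1) else κ x.1 v₀
    have hval : ∀ p A (h : A.Nonempty), val (p, A) = A.sup' h (κ p) := fun p A h => by
      simp only [val, h, dif_pos]
    obtain ⟨⟨p₀, A₀⟩, hmem, hmin⟩ := Finset.exists_min_image
      ((B ×ˢ S.powersetCard 8).filter fun x => ∃ c, ∀ v ∈ x.2, lab x.1 v = c) val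
      ⟨(p₁, A), Finset.mem_filter.2 ⟨Finset.mem_product.2
        ⟨hp₁, Finset.mem_powersetCard.2 ⟨hAS, hA⟩⟩, hAc⟩⟩
    rw [Finset.mem_filter, Finset.mem_product, Finset.mem_powersetCard] at hmem
    obtain ⟨⟨hp₀, hA₀S, hA₀⟩, c₀, hc₀⟩ := hmem
    simp only at hp₀ hA₀S hA₀ hc₀
    set t := val (p₀, A₀) with ht
    have hA₀t : ∀ v ∈ A₀, κ p₀ v ≤ t := by
      intro v hv
      rw [ht, hval p₀ A₀ (hne _ hA₀)]
      exact Finset.le_sup' (κ p₀) hv
    let D : β → Finset (Fin k) := fun p => S.filter fun v => κ p v ≤ t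
    have hD : ∀ p ∈ B, (D p).card ≤ 8 * s := by
      intro p hp
      by_contra hcon
      have h1 : D p ⊆ (S.filter fun v => κ p v < t) ∪ (S.filter fun v => κ p v = t) := by
        intro v hv
        rw [Finset.mem_filter] at hv
        rw [Finset.mem_union, Finset.mem_filter, Finset.mem_filter]
        rcases lt_or_eq_of_le hv.2 with h | h
        · exact Or.inl ⟨hv.1, h⟩
        · exact Or.inr ⟨hv.1, h⟩
      have h2 : (S.filter fun v => κ p v = t).card ≤ 1 := by
        rw [Finset.card_le_one]
        intro v hv w hw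
        rw [Finset.mem_filter] at hv hw
        exact hκ p (hv.2.trans hw.2.symm)
      have h3 := (Finset.card_le_card h1).trans (Finset.card_union_le _ _)
      obtain ⟨A', hA', hA'8, hA'c⟩ := hmono p (S.filter fun v => κ p v < t) (by omega)
      have h4 := hmin (p, A') (Finset.mem_filter.2 ⟨Finset.mem_product.2
        ⟨hp, Finset.mem_powersetCard.2
        ⟨hA'.trans (Finset.filter_subset _ _), hA'8⟩⟩, hA'c⟩)
      rw [hval p A' (hne _ hA'8)] at h4
      have h5 : A'.sup' (hne _ hA'8) (κ p) < t := by
        rw [Finset.sup'_lt_iff]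
        intro v hv
        exact (Finset.mem_filter.1 (hA' hv)).2
      exact absurd h4 (not_le.2 h5)
    let S' := S \ B.biUnion D
    have hS' : 8 * s * b * b ≤ S'.card := by
      have h1 : (B.biUnion D).card ≤ B.card * (8 * s) :=
        Finset.card_biUnion_le_card_mul _ _ _ hD
      have h2 : S.card ≤ S'.card + (B.biUnion D).card := by
        rw [← Finset.card_union_of_disjoint Finset.sdiff_disjoint]
        exact Finset.card_le_card (by
          intro v hv
          rw [Finset.mem_union]
          by_cases h : v ∈ B.biUnion D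
          · exact Or.inr h
          · exact Or.inl (Finset.mem_sdiff.2 ⟨hv, h⟩))
      rw [hB] at h1
      nlinarith
    obtain ⟨ord, N, c, h1, h2, h3, h4, h5⟩ := ih (B.erase p₀) S'
      (by rw [Finset.card_erase_of_mem hp₀, hB]; rfl) hS'
    have hN0 : ∀ p ∈ B.erase p₀, ∀ f, ¬ N p f ∈ A₀ := by
      intro p hp f hf
      have h6 := (h3 p hp f).1
      rw [Finset.mem_sdiff] at h6
      refine h6.2 (Finset.mem_biUnion.2 ⟨p₀, hp₀, Finset.mem_filter.2 ⟨h6.1, hA₀t _ hf⟩⟩)
    refine ⟨p₀ :: ord, Function.update N p₀ (A₀.orderEmbOfFin hA₀), Function.update c p₀ c₀,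
      ?_, ?_, ?_, ?_, ?_⟩
    · rw [List.nodup_cons]
      refine ⟨fun h => ?_, h1⟩
      have := (h2 p₀).1 h
      simp at this
    · intro p
      rw [List.mem_cons, h2, Finset.mem_erase]
      constructor
      · rintro (rfl | h)
        · exact hp₀
        · exact h.2
      · intro h
        by_cases hpp : p = p₀
        · exact Or.inl hpp
        · exact Or.inr ⟨hpp, h⟩
    · intro p hp f
      by_cases hpp : p = p₀
      · subst hpp
        rw [Function.update_self, Function.update_self]
        exact ⟨hA₀S (Finset.orderEmbOfFin_mem A₀ hA₀ f),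
          hc₀ _ (Finset.orderEmbOfFin_mem A₀ hA₀ f)⟩
      · rw [Function.update_of_ne hpp, Function.update_of_ne hpp]
        have := h3 p (Finset.mem_erase.2 ⟨hpp, hp⟩) f
        exact ⟨(Finset.mem_sdiff.1 this.1).1, this.2⟩
    · intro p hp p' hp' f f' hff
      by_cases hpp : p = p₀
      · subst hpp
        rw [Function.update_self] at hff
        by_cases hpp' : p' = p
        · subst hpp'
          rw [Function.update_self] at hff
          exact ⟨rfl, (A₀.orderEmbOfFin hA₀).injective hff⟩
        · rw [Function.update_of_ne hpp'] at hff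
          exact absurd (hff ▸ Finset.orderEmbOfFin_mem A₀ hA₀ f)
            (hN0 p' (Finset.mem_erase.2 ⟨hpp', hp'⟩) f')
      · rw [Function.update_of_ne hpp] at hff
        by_cases hpp' : p' = p₀
        · subst hpp'
          rw [Function.update_self] at hff
          exact absurd (hff ▸ Finset.orderEmbOfFin_mem A₀ hA₀ f')
            (hN0 p (Finset.mem_erase.2 ⟨hpp, hp⟩) f)
        · rw [Function.update_of_ne hpp'] at hff
          exact h4 p (Finset.mem_erase.2 ⟨hpp, hp⟩) p' (Finset.mem_erase.2 ⟨hpp', hp'⟩) f f' hff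
    · rw [List.pairwise_cons]
      constructor
      · intro p' hp' f f'
        have h6 := (h2 p').1 hp'
        have h7 := Finset.mem_erase.1 h6
        rw [Function.update_self, Function.update_of_ne h7.1]
        have h8 := Finset.mem_sdiff.1 (h3 p' h6 f').1
        refine lt_of_le_of_lt (hA₀t _ (Finset.orderEmbOfFin_mem A₀ hA₀ f)) ?_
        by_contra hcon
        exact h8.2 (Finset.mem_biUnion.2 ⟨p', h7.2, Finset.mem_filter.2
          ⟨h8.1, not_lt.1 hcon⟩⟩)
      · refine List.Pairwise.imp_of_mem ?_ h5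
        intro p p' hp hp' h f f'
        rw [Function.update_of_ne (Finset.mem_erase.1 ((h2 p).1 hp)).1,
          Function.update_of_ne (Finset.mem_erase.1 ((h2 p').1 hp')).1]
        exact h f f'

/-- a permutation with prescribed values -/
lemma exists_perm {α γ : Type*} [Fintype α] (e₁ e₂ : γ → α) (h₁ : Function.Injective e₁)
    (h₂ : Function.Injective e₂) : ∃ ρ : Equiv.Perm α, ∀ x, ρ (e₁ x) = e₂ x := by
  classical
  let e : {x // x ∈ Set.range e₁} ≃ {x // x ∈ Set.range e₂} :=
    (Equiv.ofInjective e₁ h₁).symm.trans (Equiv.ofInjective e₂ h₂)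
  refine ⟨e.extendSubtype, fun x => ?_⟩
  rw [e.extendSubtype_apply_of_mem (e₁ x) ⟨x, rfl⟩]
  have : (Equiv.ofInjective e₁ h₁).symm ⟨e₁ x, ⟨x, rfl⟩⟩ = x :=
    Equiv.ofInjective_symm_apply h₁ x
  simp only [e, Equiv.trans_apply, this, Equiv.ofInjective_apply]

lemma peel_aux {α : Type*} [DecidableEq α] (F : List α → ℕ) (hF : ∀ l, l ≠ [] → F l < l.length) :
    ∀ (N : ℕ) (l : List α), l.Nodup → l.length = N → ∃ t : List α, t.Perm l ∧
      ∀ a, a < N → (l.filter fun p => decide (p ∉ t.take a))[F (l.filter fun p =>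
        decide (p ∉ t.take a))]? = t[a]? := by
  intro N
  induction N with
  | zero => intro l _ _; exact ⟨l, List.Perm.refl _, fun a ha => absurd ha (by omega)⟩
  | succ N ih =>
    intro l hl hlen
    have hne : l ≠ [] := by rintro rfl; simp at hlen
    have hlt := hF l hne
    obtain ⟨p₀, hp₀⟩ : ∃ p₀, l[F l] = p₀ := ⟨_, rfl⟩
    have hmem : p₀ ∈ l := hp₀ ▸ List.getElem_mem hlt
    have hl' : (l.erase p₀).Nodup := hl.erase p₀
    have hlen' : (l.erase p₀).length = N := by
      rw [List.length_erase_of_mem hmem, hlen]; rfl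
    obtain ⟨t, ht, hta⟩ := ih (l.erase p₀) hl' hlen'
    refine ⟨p₀ :: t, (List.Perm.cons p₀ ht).trans (List.perm_cons_erase hmem).symm, ?_⟩
    intro a ha
    cases a with
    | zero =>
      simp only [List.take_zero, List.not_mem_nil, not_false_eq_true, decide_true,
        List.filter_true, List.getElem?_cons_zero]
      rw [List.getElem?_eq_getElem hlt, hp₀]
    | succ a =>
      have h1 : (l.filter fun p => decide (p ∉ (p₀ :: t).take (a + 1))) =
          (l.erase p₀).filter fun p => decide (p ∉ t.take a) := by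
        rw [hl.erase_eq_filter, List.filter_filter]
        refine List.filter_congr fun p _ => ?_
        simp only [List.take_succ_cons, List.mem_cons, not_or, Bool.decide_and]
        by_cases hpp : p = p₀ <;> simp [hpp]
      rw [h1, List.getElem?_cons_succ]
      exact hta a (by omega)

/-- The order of the levels can be adapted to the rule. -/
lemma peel {m : ℕ} (ord : List (Fin m)) (hnd : ord.Nodup) (hmem : ∀ p, p ∈ ord)
    (F : List (Fin m) → ℕ) (hF : ∀ l, l ≠ [] → F l < l.length) :
    ∃ σ : Equiv.Perm (Fin m), ∀ a (ha : a < m),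
      (ord.filter fun p => decide (a ≤ (σ p : ℕ)))[F (ord.filter fun p =>
        decide (a ≤ (σ p : ℕ)))]? = some (σ.symm ⟨a, ha⟩) := by
  have hlen0 : ord.length = m := by
    have h1 : ord.Perm (List.finRange m) :=
      (List.perm_ext_iff_of_nodup hnd (List.nodup_finRange m)).2 fun p =>
        ⟨fun _ => List.mem_finRange p, fun _ => hmem p⟩
    rw [h1.length_eq, List.length_finRange]
  obtain ⟨t, ht, hta⟩ := peel_aux F hF m ord hnd hlen0
  have hnd' : t.Nodup := ht.nodup_iff.2 hnd
  have hlen : t.length = m := by rw [ht.length_eq, hlen0]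
  have hmem' : ∀ p : Fin m, p ∈ t := fun p => ht.mem_iff.2 (hmem p)
  let e : Fin m ≃ Fin m := (finCongr hlen.symm).trans (hnd'.getEquivOfForallMemList t hmem')
  have he : ∀ (a : ℕ) (ha : a < m), e ⟨a, ha⟩ = t[a]'(by omega) := fun a ha => rfl
  refine ⟨e.symm, fun a ha => ?_⟩
  have h1 : (ord.filter fun p => decide (a ≤ (e.symm p : ℕ))) =
      ord.filter fun p => decide (p ∉ t.take a) := by
    refine List.filter_congr fun p _ => ?_
    rw [decide_eq_decide]
    obtain ⟨b, rfl⟩ := e.surjective p
    rw [Equiv.symm_apply_apply, he b b.2]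
    constructor
    · intro hab hin
      obtain ⟨c, hc, hcb⟩ := List.mem_take_iff_getElem.1 hin
      have := (hnd'.getElem_inj_iff).1 hcb
      omega
    · intro hnot
      by_contra hlt
      exact hnot (List.mem_take_iff_getElem.2 ⟨b, by omega, rfl⟩)
  rw [h1, hta a ha, Equiv.symm_symm, he a ha, List.getElem?_eq_getElem]

end Pool.Agent.Lib.MP_4d246d_lc.Local
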