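import Pool.Agent.Lib.MP_4d246d_lc.Local.Defs

/-!
# Local rules
-/

namespace Pool.Agent.Lib.MP_4d246d_lc.Local

/-- What a local rule knows about the linear program, apart from the number `n` of decision
variables and the number `k` of constraints: the objective vector, the constraints `A_i x ≤ b_i` as
a multiset (that is, without their order), and the vertex at which the simplex method is
started. -/
structure Context (n k : ℕ) where
  /-- objective vector -/
  c : Fin n → ℚ
  /-- the constraints, without their order -/
  C : Multiset ((Fin n → ℚ) × ℚ)
  /-- the initial vertex -/
  x₀ : Fin n → ℝ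

/-- The context given by a linear program and an initial vertex. -/
def LP.context {n k : ℕ} (P : LP n k) (x₀ : Fin n → ℝ) : Context n k :=
  ⟨P.c, P.constraints, x₀⟩

/-- A *local rule*.  In the context `X` it works as follows.  The improving variables `v` at the
current vertex are listed in the order of increasing keys `key X v d`, where `d` is the local datum
of `v`; variables with equal keys are listed in the order `x_1, ..., x_n, s_1, ..., s_k`.  The rule
then sees, for each entry of this list, the local datum `d` of the variable `v` and a label
`label X v d`, and answers with a position in the list.  The functions `label`, `key` and `pick`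
are arbitrary. -/
structure LocalRule where
  /-- the number of labels -/
  labels : ℕ → ℕ → ℕ
  /-- the label of a variable with given local datum -/
  label : {n k : ℕ} → Context n k → Fin n ⊕ Fin k → Datum → Fin (labels n k)
  /-- the key of a variable with given local datum -/
  key : {n k : ℕ} → Context n k → Fin n ⊕ Fin k → Datum → ℝ
  /-- the chosen position -/
  pick : {n k : ℕ} → Context n k → List (Fin (labels n k) × Datum) → ℕ
  /-- it is a position of the list -/
  pick_lt : ∀ {n k : ℕ} (X : Context n k) (l : List (Fin (labels n k) × Datum)), l ≠ [] →
    pick X l < l.length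

/-- Of the context, the rule uses only `n`, `k` and the objective vector. -/
def LocalRule.IgnoresConstraints (r : LocalRule) : Prop :=
  ∀ (n k : ℕ) (X X' : Context n k), X.c = X'.c →
    r.label X = r.label X' ∧ r.key X = r.key X' ∧ r.pick X = r.pick X'

open Classical in
/-- The improving variables in the order of increasing keys, and in the order of `varList` for
equal keys (`List.insertionSort` is stable). -/
noncomputable def LocalRule.sorted {n k : ℕ} (r : LocalRule) (P : LP n k)
    (x₀ x : Fin n → ℝ) (q : Fin n ⊕ Fin k → ℝ) (nb : Fin n ⊕ Fin k → Fin n → ℝ) :
    List (Fin n ⊕ Fin k) :=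
  (improving q).insertionSort fun v w =>
    r.key (P.context x₀) v (P.datum x q nb v) ≤ r.key (P.context x₀) w (P.datum x q nb w)

/-- One step of the simplex method, started at `x₀`, with the local rule `r` on the linear program
`P`, from the vertex `x` to the vertex `y`: `(q, nb)` is the local view at `x`; the rule is applied
to the sorted list of the labels and the local data of the improving variables and points at a
variable `v`; and `y = nb v`, where the objective value is larger than at `x`. -/
def SimplexStep (r : LocalRule) {n k : ℕ} (P : LP n k) (x₀ x y : Fin n → ℝ) : Prop :=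
  ∃ q nb, P.IsLocalView x q nb ∧
    ∃ v, (r.sorted P x₀ x q nb)[r.pick (P.context x₀) ((r.sorted P x₀ x q nb).map fun v =>
      (r.label (P.context x₀) v (P.datum x q nb v), P.datum x q nb v))]? = some v ∧
      y = nb v ∧ P.obj x < P.obj y

/-- At the vertex `x`, no two improving variables have the same reduced cost, the same gain, the
same slope with respect to the Euclidean norm in the space of the decision variables, or the same
slope with respect to the Euclidean norm in the space of the decision and slack variables. -/
def NoTies {n k : ℕ} (P : LP n k) (x : Fin n → ℝ) : Prop :=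
  ∀ q nb, P.IsLocalView x q nb → ∀ v w, 0 < q v → 0 < q w → v ≠ w →
    q v ≠ q w ∧
    P.obj (nb v) - P.obj x ≠ P.obj (nb w) - P.obj x ∧
    (P.obj (nb v) - P.obj x) / √(∑ j, (nb v j - x j) ^ 2) ≠
      (P.obj (nb w) - P.obj x) / √(∑ j, (nb w j - x j) ^ 2) ∧
    (P.obj (nb v) - P.obj x) / √(∑ u, (P.val (nb v) u - P.val x u) ^ 2) ≠
      (P.obj (nb w) - P.obj x) / √(∑ u, (P.val (nb w) u - P.val x u) ^ 2)

/-- `x 0, ..., x T` is the path of the simplex method with the rule `r` on `P`, started at `x 0`:
`x 0` is a vertex, every step is a simplex step with the rule `r`, and it is the only one. -/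
def IsRun (r : LocalRule) {n k : ℕ} (P : LP n k) (T : ℕ) (x : ℕ → Fin n → ℝ) : Prop :=
  P.IsVertex (x 0) ∧ ∀ t < T, SimplexStep r P (x 0) (x t) (x (t + 1)) ∧
    ∀ y, SimplexStep r P (x 0) (x t) y → y = x (t + 1)

end Pool.Agent.Lib.MP_4d246d_lc.Local
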