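import Pool.Agent.Lib.MP_4d246d_lc.Local.General

/-!
# Uniqueness of reduced costs and of neighbours
-/

namespace Pool.Agent.Lib.MP_4d246d_lc.Local

open Finset

namespace LP

variable {n k : ℕ} (P : LP n k)

/-- linear part of the variables -/
def lin (d : Fin n → ℝ) : Fin n ⊕ Fin k → ℝ :=
  Sum.elim d fun i => - ∑ j, (P.A i j : ℝ) * d j

lemma val_add (x d : Fin n → ℝ) (v : Fin n ⊕ Fin k) :
    P.val (x + d) v = P.val x v + P.lin d v := by
  cases v with
  | inl j => simp [val, lin]
  | inr i => simp only [val, lin, Sum.elim_inr, Pi.add_apply, mul_add, Finset.sum_add_distrib]; ring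

/-- restriction of the linear part to a set of variables, as a linear map -/
noncomputable def linMap (T : Finset (Fin n ⊕ Fin k)) : (Fin n → ℝ) →ₗ[ℝ] (T → ℝ) where
  toFun d := fun v => P.lin d v
  map_add' d e := by
    funext v
    rcases v with ⟨j | i, hv⟩
    · simp [lin]
    · simp only [lin, Sum.elim_inr, Pi.add_apply, mul_add, Finset.sum_add_distrib]; ring
  map_smul' a d := by
    funext v
    rcases v with ⟨j | i, hv⟩
    · simp [lin]
    · simp only [lin, Sum.elim_inr, Pi.smul_apply, smul_eq_mul, RingHom.id_apply]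
      rw [mul_neg, Finset.mul_sum]
      congr 1
      exact Finset.sum_congr rfl fun j _ => by ring

/-- At a point determined by at most `n` tight constraints the reduced costs are unique. -/
lemma reducedCost_unique_of_card {x : Fin n → ℝ}
    (hr : ∀ z, (∀ v, P.val x v = 0 → P.val z v = 0) → z = x)
    (T : Finset (Fin n ⊕ Fin k)) (hT : ∀ v, P.val x v = 0 → v ∈ T) (hcard : T.card ≤ n)
    {q q' : Fin n ⊕ Fin k → ℝ} (hq : P.IsReducedCost x q) (hq' : P.IsReducedCost x q') :
    q' = q := by
  have hinj : Function.Injective (P.linMap T) := by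
    rw [← LinearMap.ker_eq_bot, LinearMap.ker_eq_bot']
    intro d hd
    have h1 : x + d = x := by
      refine hr _ fun v hv => ?_
      rw [P.val_add, hv, zero_add]
      exact congrFun hd ⟨v, hT v hv⟩
    simpa using h1
  have hle := LinearMap.finrank_le_finrank_of_injective hinj
  rw [Module.finrank_fin_fun, Module.finrank_fintype_fun_eq_card, Fintype.card_coe] at hle
  have hfin : Module.finrank ℝ (Fin n → ℝ) = Module.finrank ℝ (T → ℝ) := by
    rw [Module.finrank_fin_fun, Module.finrank_fintype_fun_eq_card, Fintype.card_coe]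
    omega
  have hsurj := (LinearMap.injective_iff_surjective_of_finrank_eq_finrank hfin).1 hinj
  funext w
  by_cases hw : P.val x w = 0
  · obtain ⟨d, hd⟩ := hsurj (Pi.single ⟨w, hT w hw⟩ 1)
    have e1 := hq.2 (x + d)
    have e2 := hq'.2 (x + d)
    have e3 := hq.2 x
    have e4 := hq'.2 x
    have h1 : ∑ v, (q' v - q v) * P.lin d v = 0 := by
      have h2 : ∀ v, (q' v - q v) * P.lin d v =
          (q' v * P.val (x + d) v - q v * P.val (x + d) v) -
          (q' v * P.val x v - q v * P.val x v) := by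
        intro v; rw [P.val_add]; ring
      rw [Finset.sum_congr rfl fun v _ => h2 v]
      simp only [Finset.sum_sub_distrib]
      linarith
    rw [Finset.sum_eq_single w] at h1
    · have h3 : P.lin d w = 1 := by
        have := congrFun hd ⟨w, hT w hw⟩
        rw [Pi.single_eq_same] at this
        exact this
      rw [h3, mul_one] at h1
      linarith
    · intro v _ hvw
      by_cases hv : P.val x v = 0
      · have h4 : P.lin d v = 0 := by
          have := congrFun hd ⟨v, hT v hv⟩
          rw [Pi.single_apply, if_neg (by simpa using hvw)] at this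
          exact this
        rw [h4, mul_zero]
      · rw [hq.1 v hv, hq'.1 v hv]; ring
    · simp
  · rw [hq.1 w hw, hq'.1 w hw]

variable {P}

lemma IsReducedCost.obj_neighbor {x y : Fin n → ℝ} {q : Fin n ⊕ Fin k → ℝ}
    (hq : P.IsReducedCost x q) {v : Fin n ⊕ Fin k}
    (h : ∀ w, w ≠ v → P.val x w = 0 → P.val y w = 0) :
    P.obj y = P.obj x + q v * P.val y v := by
  rw [hq.2 y, Finset.sum_eq_single v]
  · intro w _ hw
    by_cases h5 : P.val x w = 0
    · rw [h w hw h5, mul_zero]
    · rw [hq.1 w h5, zero_mul]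
  · simp

lemma IsReducedCost.obj_lt {x y : Fin n → ℝ} {q : Fin n ⊕ Fin k → ℝ}
    (hq : P.IsReducedCost x q) {v : Fin n ⊕ Fin k} (hv : 0 < q v) (h : P.IsNeighbor x v y) :
    P.obj x < P.obj y := by
  rw [hq.obj_neighbor h.2.2.2]
  have := mul_pos hv h.2.2.1
  linarith

lemma IsReducedCost.neighbor_unique {x y y' : Fin n → ℝ} {q : Fin n ⊕ Fin k → ℝ}
    (hq : P.IsReducedCost x q) {v : Fin n ⊕ Fin k} (hv : 0 < q v) (h : P.IsNeighbor x v y)
    (h' : P.IsNeighbor x v y') : y' = y :=
  P.step_unique hq h.1 h'.1 (hq.obj_lt hv h) (hq.obj_lt hv h') h.2.2.2 h'.2.2.2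

lemma IsLocalView.unique {x : Fin n → ℝ} {q q' : Fin n ⊕ Fin k → ℝ}
    {nb nb' : Fin n ⊕ Fin k → Fin n → ℝ} (h : P.IsLocalView x q nb)
    (h' : P.IsLocalView x q' nb') : q' = q ∧ ∀ v, 0 < q v → nb' v = nb v := by
  obtain rfl := h.2.1 q' h'.1
  exact ⟨rfl, fun v hv => h.1.neighbor_unique hv (h.2.2 v hv) (h'.2.2 v hv)⟩

lemma IsLocalView.datum_eq {x : Fin n → ℝ} {q q' : Fin n ⊕ Fin k → ℝ}
    {nb nb' : Fin n ⊕ Fin k → Fin n → ℝ} (h : P.IsLocalView x q nb)
    (h' : P.IsLocalView x q' nb') {v : Fin n ⊕ Fin k} (hv : 0 < q v) :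
    P.datum x q' nb' v = P.datum x q nb v := by
  obtain ⟨rfl, h2⟩ := h.unique h'
  simp only [datum, h2 v hv]

end LP

end Pool.Agent.Lib.MP_4d246d_lc.Local
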