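import Pool.Agent.Lib.MP_4d246d_lc.Local.Rules
import Pool.Agent.Lib.MP_4d246d_lc.Local.Unique

/-!
# Sorted lists and permutations of the constraints
-/

namespace Pool.Agent.Lib.MP_4d246d_lc.Local

open Finset

/-! ### Stable sorting -/

/-- lexicographic order by key and index -/
def Lex {α : Type*} (κ : α → ℝ) (idx : α → ℕ) (v w : α) : Prop :=
  κ v < κ w ∨ (κ v = κ w ∧ idx v < idx w)

lemma Lex.trans {α : Type*} {κ : α → ℝ} {idx : α → ℕ} {u v w : α} (h : Lex κ idx u v)
    (h' : Lex κ idx v w) : Lex κ idx u w := by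
  rcases h with h | ⟨h1, h2⟩ <;> rcases h' with h' | ⟨h1', h2'⟩
  · exact Or.inl (h.trans h')
  · exact Or.inl (h1' ▸ h)
  · exact Or.inl (h1 ▸ h')
  · exact Or.inr ⟨h1.trans h1', h2.trans h2'⟩

lemma Lex.irrefl {α : Type*} {κ : α → ℝ} {idx : α → ℕ} (v : α) : ¬ Lex κ idx v v := by
  rintro (h | ⟨-, h⟩)
  · exact lt_irrefl _ h
  · exact lt_irrefl _ h

section

open Classical

variable {α : Type*} (κ : α → ℝ) (idx : α → ℕ)

lemma orderedInsert_lex (a : α) : ∀ s : List α, s.Pairwise (Lex κ idx) →
    (∀ b ∈ s, idx a < idx b) →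
    (s.orderedInsert (fun v w => κ v ≤ κ w) a).Pairwise (Lex κ idx) := by
  intro s
  induction s with
  | nil => intro _ _; simp
  | cons b s ih =>
    intro hs hb
    rw [List.pairwise_cons] at hs
    by_cases hab : κ a ≤ κ b
    · rw [List.orderedInsert, if_pos hab, List.pairwise_cons]
      refine ⟨fun c hc => ?_, List.pairwise_cons.2 hs⟩
      have hac : κ a ≤ κ c := by
        rcases List.mem_cons.1 hc with rfl | hc'
        · exact hab
        · rcases hs.1 c hc' with h | h
          · linarith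
          · linarith [h.1]
      rcases lt_or_eq_of_le hac with h | h
      · exact Or.inl h
      · exact Or.inr ⟨h, hb c hc⟩
    · rw [List.orderedInsert, if_neg hab, List.pairwise_cons]
      refine ⟨fun c hc => ?_, ih hs.2 fun c hc => hb c (List.mem_cons_of_mem _ hc)⟩
      rw [List.mem_orderedInsert] at hc
      rcases hc with rfl | hc
      · exact Or.inl (not_le.1 hab)
      · exact hs.1 c hc

lemma insertionSort_lex : ∀ l : List α, l.Pairwise (fun v w => idx v < idx w) →
    (l.insertionSort fun v w => κ v ≤ κ w).Pairwise (Lex κ idx) := by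
  intro l
  induction l with
  | nil => intro _; simp
  | cons a l ih =>
    intro h
    rw [List.pairwise_cons] at h
    rw [List.insertionSort_cons]
    refine orderedInsert_lex κ idx a _ (ih h.2) fun b hb => h.1 b ?_
    exact (List.perm_insertionSort _ l).mem_iff.1 hb

/-- a list sorted strictly is determined by its elements -/
lemma eq_insertionSort {l l' : List α} (h : l.Pairwise (fun v w => idx v < idx w))
    (h' : l'.Pairwise (Lex κ idx)) (hmem : ∀ v, v ∈ l ↔ v ∈ l') :
    (l.insertionSort fun v w => κ v ≤ κ w) = l' := by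
  have : Std.Irrefl (Lex κ idx) := ⟨fun v => Lex.irrefl v⟩
  have : IsTrans α (Lex κ idx) := ⟨fun _ _ _ => Lex.trans⟩
  refine List.Pairwise.eq_of_mem_iff (r := Lex κ idx) (insertionSort_lex κ idx l h) h'
    fun v => ?_
  rw [(List.perm_insertionSort _ l).mem_iff, hmem]

end

/-- position of a variable in the list `varList n k` -/
def vidx {n k : ℕ} : Fin n ⊕ Fin k → ℕ := Sum.elim (fun j => (j : ℕ)) fun i => n + i

lemma varList_pairwise (n k : ℕ) : (varList n k).Pairwise (fun v w => vidx v < vidx w) := by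
  rw [varList, List.pairwise_append]
  refine ⟨?_, ?_, ?_⟩
  · rw [List.pairwise_map]
    exact (List.sortedLT_finRange n).pairwise
  · rw [List.pairwise_map]
    refine (List.sortedLT_finRange k).pairwise.imp ?_
    intro a b hab
    simp only [vidx, Sum.elim_inr]
    have : (a : ℕ) < b := hab
    omega
  · intro v hv w hw
    obtain ⟨j, -, rfl⟩ := List.mem_map.1 hv
    obtain ⟨i, -, rfl⟩ := List.mem_map.1 hw
    simp only [vidx, Sum.elim_inl, Sum.elim_inr]
    omega

lemma improving_pairwise {n k : ℕ} (q : Fin n ⊕ Fin k → ℝ) :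
    (improving q).Pairwise (fun v w => vidx v < vidx w) := by
  classical
  exact (varList_pairwise n k).filter _

lemma mem_improving {n k : ℕ} (q : Fin n ⊕ Fin k → ℝ) (v : Fin n ⊕ Fin k) :
    v ∈ improving q ↔ 0 < q v := by
  classical
  rw [improving, List.mem_filter]
  simp only [decide_eq_true_eq, and_iff_right_iff_imp]
  intro _
  rw [varList, List.mem_append, List.mem_map, List.mem_map]
  rcases v with j | i
  · left; exact ⟨j, List.mem_finRange j, rfl⟩
  · right; exact ⟨i, List.mem_finRange i, rfl⟩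

/-! ### Permutations of the constraints -/

variable {n k : ℕ}

/-- The linear program with permuted constraints. -/
def LP.permRows (P : LP n k) (ρ : Equiv.Perm (Fin k)) : LP n k where
  A i := P.A (ρ.symm i)
  b i := P.b (ρ.symm i)
  c := P.c

/-- the action on the variables -/
def pvar (n : ℕ) (ρ : Equiv.Perm (Fin k)) : Fin n ⊕ Fin k ≃ Fin n ⊕ Fin k :=
  Equiv.sumCongr (Equiv.refl _) ρ

lemma permRows_val (P : LP n k) (ρ : Equiv.Perm (Fin k)) (x : Fin n → ℝ) (v : Fin n ⊕ Fin k) :
    (P.permRows ρ).val x (pvar n ρ v) = P.val x v := by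
  rcases v with j | i
  · rfl
  · simp [LP.val, LP.permRows, pvar]

lemma permRows_obj (P : LP n k) (ρ : Equiv.Perm (Fin k)) (x : Fin n → ℝ) :
    (P.permRows ρ).obj x = P.obj x := rfl

lemma permRows_feasible (P : LP n k) (ρ : Equiv.Perm (Fin k)) :
    (P.permRows ρ).feasible = P.feasible := by
  ext x
  rw [LP.mem_feasible, LP.mem_feasible]
  constructor
  · intro h v
    rw [← permRows_val P ρ]; exact h _
  · intro h v
    obtain ⟨w, rfl⟩ := (pvar n ρ).surjective v
    rw [permRows_val]; exact h w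

lemma permRows_isVertex (P : LP n k) (ρ : Equiv.Perm (Fin k)) (x : Fin n → ℝ) :
    (P.permRows ρ).IsVertex x ↔ P.IsVertex x := by
  rw [LP.IsVertex, LP.IsVertex, permRows_feasible]

lemma permRows_isNeighbor (P : LP n k) (ρ : Equiv.Perm (Fin k)) {x y : Fin n → ℝ}
    {v : Fin n ⊕ Fin k} (h : P.IsNeighbor x v y) :
    (P.permRows ρ).IsNeighbor x (pvar n ρ v) y := by
  obtain ⟨h1, h2, h3, h4⟩ := h
  refine ⟨?_, ?_, ?_, ?_⟩
  · simp only [LP.IsEdge, LP.IsVertex, permRows_feasible] at h1 ⊢
    exact h1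
  · rw [permRows_val]; exact h2
  · rw [permRows_val]; exact h3
  · intro w hw hw'
    obtain ⟨u, rfl⟩ := (pvar n ρ).surjective w
    rw [permRows_val] at hw' ⊢
    exact h4 u (fun hh => hw (by rw [hh])) hw'

lemma permRows_isReducedCost (P : LP n k) (ρ : Equiv.Perm (Fin k)) {x : Fin n → ℝ}
    (q : Fin n ⊕ Fin k → ℝ) :
    (P.permRows ρ).IsReducedCost x q ↔ P.IsReducedCost x (q ∘ pvar n ρ) := by
  constructor
  · rintro ⟨h1, h2⟩
    refine ⟨fun v hv => h1 _ (by rwa [permRows_val]), fun z => ?_⟩
    have := h2 z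
    rw [permRows_obj, permRows_obj, ← Equiv.sum_comp (pvar n ρ)] at this
    rw [this]
    congr 1
    exact Finset.sum_congr rfl fun v _ => by rw [permRows_val]; rfl
  · rintro ⟨h1, h2⟩
    refine ⟨fun v hv => ?_, fun z => ?_⟩
    · obtain ⟨u, rfl⟩ := (pvar n ρ).surjective v
      rw [permRows_val] at hv
      exact h1 u hv
    · rw [permRows_obj, permRows_obj, h2 z,
        ← Equiv.sum_comp (pvar n ρ) fun v => q v * (P.permRows ρ).val z v]
      congr 1
      exact Finset.sum_congr rfl fun v _ => by rw [permRows_val]; rfl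

lemma map_univ_comp {α β : Type*} [Fintype α] (e : Equiv.Perm α) (f : α → β) :
    ((Finset.univ : Finset α).val.map fun i => f (e i)) = (Finset.univ : Finset α).val.map f := by
  have h1 : (Finset.univ : Finset α).val.map e = (Finset.univ : Finset α).val := by
    exact congrArg Finset.val (Finset.map_univ_equiv e)
  conv_rhs => rw [← h1]
  rw [Multiset.map_map]
  rfl

lemma permRows_constraints (P : LP n k) (ρ : Equiv.Perm (Fin k)) :
    (P.permRows ρ).constraints = P.constraints :=
  map_univ_comp ρ.symm fun i => (P.A i, P.b i)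

lemma permRows_datum (P : LP n k) (ρ : Equiv.Perm (Fin k)) (x : Fin n → ℝ)
    (q : Fin n ⊕ Fin k → ℝ) (nb : Fin n ⊕ Fin k → Fin n → ℝ) (v : Fin n ⊕ Fin k) :
    (P.permRows ρ).datum x q nb (pvar n ρ v) =
      P.datum x (q ∘ pvar n ρ) (nb ∘ pvar n ρ) v := by
  simp only [LP.datum, Function.comp_apply, permRows_obj]
  congr 3
  have h1 : ∀ (z : Fin n → ℝ) (i : Fin k), (P.permRows ρ).val z (Sum.inr i) =
      P.val z (Sum.inr (ρ.symm i)) := by
    intro z i
    have := permRows_val P ρ z (Sum.inr (ρ.symm i))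
    simpa [pvar] using this
  simp only [h1]
  exact map_univ_comp ρ.symm fun i => P.val (nb (pvar n ρ v)) (Sum.inr i) -
    P.val x (Sum.inr i)

/-- The local view after permuting the constraints. -/
lemma permRows_isLocalView (P : LP n k) (ρ : Equiv.Perm (Fin k)) {x : Fin n → ℝ}
    {q : Fin n ⊕ Fin k → ℝ} {nb : Fin n ⊕ Fin k → Fin n → ℝ} (h : P.IsLocalView x q nb) :
    (P.permRows ρ).IsLocalView x (q ∘ (pvar n ρ).symm) (nb ∘ (pvar n ρ).symm) := by
  obtain ⟨h1, h2, h3⟩ := h
  refine ⟨?_, ?_, ?_⟩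
  · rw [permRows_isReducedCost]
    simpa [Function.comp_assoc] using h1
  · intro q' hq'
    rw [permRows_isReducedCost] at hq'
    have := h2 _ hq'
    rw [← this]
    funext v
    simp
  · intro v hv
    obtain ⟨u, rfl⟩ := (pvar n ρ).surjective v
    simp only [Function.comp_apply, Equiv.symm_apply_apply] at hv ⊢
    exact permRows_isNeighbor P ρ (h3 u hv)

lemma permRows_size (P : LP n k) (ρ : Equiv.Perm (Fin k)) : (P.permRows ρ).size = P.size := by
  simp only [LP.size, LP.permRows]
  rw [Equiv.sum_comp ρ.symm fun i => ∑ j, bitLength (P.A i j),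
    Equiv.sum_comp ρ.symm fun i => bitLength (P.b i)]

end Pool.Agent.Lib.MP_4d246d_lc.Local
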