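import Pool.Agent.Lib.MP_4d246d_lc.Local.States
import Pool.Agent.Lib.MP_4d246d_lc.Local.Sort
import Pool.Agent.Lib.MP_4d246d_lc.Local.Peel

/-!
# The run of a local rule
-/

namespace Pool.Agent.Lib.MP_4d246d_lc.Local

open Finset

section

variable {n k : ℕ}

open Classical in
/-- the neighbour along the edge of an entering variable -/
noncomputable def LP.nbC (P : LP n k) (x : Fin n → ℝ) (v : Fin n ⊕ Fin k) : Fin n → ℝ :=
  if h : ∃ y, P.IsNeighbor x v y then h.choose else x

lemma LP.nbC_eq {P : LP n k} {x y : Fin n → ℝ} {q : Fin n ⊕ Fin k → ℝ}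
    (hq : P.IsReducedCost x q) {v : Fin n ⊕ Fin k} (hv : 0 < q v) (h : P.IsNeighbor x v y) :
    P.nbC x v = y := by
  have h1 : ∃ y, P.IsNeighbor x v y := ⟨y, h⟩
  rw [LP.nbC, dif_pos h1]
  exact hq.neighbor_unique hv h h1.choose_spec

/-! ### Uniqueness of the steps -/

lemma sorted_congr (r : LocalRule) {P : LP n k} {x₀ x : Fin n → ℝ}
    {q : Fin n ⊕ Fin k → ℝ} {nb nb' : Fin n ⊕ Fin k → Fin n → ℝ}
    (h : ∀ v, 0 < q v → P.datum x q nb' v = P.datum x q nb v) :
    r.sorted P x₀ x q nb' = r.sorted P x₀ x q nb := by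
  classical
  unfold LocalRule.sorted
  symm
  refine eq_insertionSort _ vidx (improving_pairwise q) ?_ fun v =>
    ((List.perm_insertionSort _ _).mem_iff).symm
  refine List.Pairwise.imp_of_mem ?_ (insertionSort_lex
    (fun v => r.key (P.context x₀) v (P.datum x q nb' v)) vidx _ (improving_pairwise q))
  intro v w hv hw hvw
  rw [(List.perm_insertionSort _ _).mem_iff, mem_improving] at hv hw
  simp only [Lex, h v hv, h w hw] at hvw ⊢
  exact hvw

lemma simplexStep_unique (r : LocalRule) {P : LP n k} {x₀ x y y' : Fin n → ℝ}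
    (h : SimplexStep r P x₀ x y) (h' : SimplexStep r P x₀ x y') : y' = y := by
  obtain ⟨q, nb, hv, v, hpick, rfl, -⟩ := h
  obtain ⟨q', nb', hv', v', hpick', rfl, -⟩ := h'
  obtain ⟨rfl, hnb⟩ := hv.unique hv'
  have hdat : ∀ v, 0 < q' v → P.datum x q' nb' v = P.datum x q' nb v := fun v hvv => by
    simp only [LP.datum, hnb v hvv]
  have hs := sorted_congr r (x₀ := x₀) hdat
  have hmem : ∀ w ∈ r.sorted P x₀ x q' nb, 0 < q' w := by
    intro w hw
    unfold LocalRule.sorted at hw
    rw [(List.perm_insertionSort _ _).mem_iff, mem_improving] at hw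
    exact hw
  rw [hs] at hpick'
  have hmap : ((r.sorted P x₀ x q' nb).map fun v =>
      (r.label (P.context x₀) v (P.datum x q' nb' v), P.datum x q' nb' v)) =
      (r.sorted P x₀ x q' nb).map fun v =>
      (r.label (P.context x₀) v (P.datum x q' nb v), P.datum x q' nb v) :=
    List.map_congr_left fun w hw => by rw [hdat w (hmem w hw)]
  rw [hmap, hpick] at hpick'
  have hvv : v = v' := Option.some.inj hpick'
  rw [← hvv]
  exact hnb v (hmem v (List.mem_of_getElem? hpick))

end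

/-! ### The local view at the vertices of the run -/

/-- the local data of block `p` -/
noncomputable def dat (W : Wt) (m R : ℕ) (p : Fin m) : Datum :=
  (1 / (2 * W.u p), 2 * W.g p, ddat W m p, sdat W m R p)

section

variable {W : Wt} {m a : ℕ} {σ : Equiv.Perm (Fin m)} {φ : ℕ → Fin 5} {R : ℕ}

lemma neighbor_state (h : IsState m a φ) (R : ℕ) {p : Fin m} (ha : a ≤ (σ p : ℕ)) :
    (full W σ R).IsNeighbor (fvert W σ (posOf φ)) (frow m R p (fac φ (σ p)))
      (fvert W σ (Function.update (posOf φ) (σ p) (nextPos φ (σ p)))) := by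
  have hv := state_vis (W := W) (σ := σ) h ha (σ p).2
  have hn := fvert_neighbor W σ R (posOf φ) (σ p).2 hv.adj
  have hp : σ.symm ⟨(σ p : ℕ), (σ p).2⟩ = p := by simp
  rw [hp] at hn
  exact hn

lemma view_state (h : IsState m a φ) (R : ℕ) :
    (full W σ R).IsLocalView (fvert W σ (posOf φ)) (fq W σ R (posOf φ))
      ((full W σ R).nbC (fvert W σ (posOf φ))) := by
  have hq := fq_isReducedCost W σ R (posOf φ)
  refine ⟨hq, fun q' hq' => fq_unique W σ R _ q' hq', fun v hv => ?_⟩
  obtain ⟨p, f, rfl⟩ := fq_pos W σ R _ v hv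
  have hv' := hv
  rw [fq_pos_iff h] at hv'
  obtain ⟨ha, rfl⟩ := hv'
  have hn := neighbor_state (W := W) h R ha
  rw [LP.nbC_eq hq hv hn]
  exact hn

lemma nbC_state (h : IsState m a φ) (R : ℕ) {p : Fin m} (ha : a ≤ (σ p : ℕ)) :
    (full W σ R).nbC (fvert W σ (posOf φ)) (frow m R p (fac φ (σ p))) =
      fvert W σ (Function.update (posOf φ) (σ p) (nextPos φ (σ p))) :=
  LP.nbC_eq (fq_isReducedCost W σ R (posOf φ)) ((fq_pos_iff h R p _).2 ⟨ha, rfl⟩)
    (neighbor_state h R ha)

lemma datum_state (h : IsState m a φ) (R : ℕ) {p : Fin m} (ha : a ≤ (σ p : ℕ)) :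
    (full W σ R).datum (fvert W σ (posOf φ)) (fq W σ R (posOf φ))
      ((full W σ R).nbC (fvert W σ (posOf φ))) (frow m R p (fac φ (σ p))) = dat W m R p := by
  have hv := state_vis (W := W) (σ := σ) h ha (σ p).2
  have h1 := dec_data hv
  have h2 := slack_data hv R
  have hp : σ.symm ⟨(σ p : ℕ), (σ p).2⟩ = p := by simp
  rw [blk_eq] at h1
  rw [hp] at h2
  rw [LP.datum, nbC_state h R ha, fq_fac h R ha, gain h R ha, h1, h2, dat]

end

/-! ### The run -/

/-- number of decision variables -/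
abbrev nn (m : ℕ) : ℕ := m * 4 + Fintype.card (IT m)

/-- number of constraints -/
abbrev kk (m R : ℕ) : ℕ := m * 8 + (Fintype.card (IT m) + Fintype.card (KT m R))

/-- The objective vector. -/
noncomputable def cc (m : ℕ) : Fin (nn m) → ℚ :=
  (full ⟨fun _ => 1, fun _ => 1, fun _ => 1, by simp, by simp, by simp, by intro p; simp,
    by intro p; simp, by intro p; linarith⟩ (1 : Equiv.Perm (Fin m)) 0).c

lemma full_c (W : Wt) {m : ℕ} (σ : Equiv.Perm (Fin m)) (R : ℕ) : (full W σ R).c = cc m := rfl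

/-- The context used for the choice of the linear program. -/
noncomputable def ctx (m R : ℕ) (C : Multiset ((Fin (nn m) → ℚ) × ℚ)) (x₀ : Fin (nn m) → ℝ) :
    Context (nn m) (kk m R) := ⟨cc m, C, x₀⟩

/-- The rule answers in the same way in the contexts `ctx m R C x₀` and `ctx m R C' x₀'`. -/
def LocalRule.Agree (r : LocalRule) (m R : ℕ)
    (C C' : Multiset ((Fin (nn m) → ℚ) × ℚ)) (x₀ x₀' : Fin (nn m) → ℝ) : Prop :=
  r.label (ctx m R C x₀) = r.label (ctx m R C' x₀') ∧
  r.key (ctx m R C x₀) = r.key (ctx m R C' x₀') ∧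
  r.pick (ctx m R C x₀) = r.pick (ctx m R C' x₀')

lemma permRows_context (W : Wt) {m : ℕ} (σ : Equiv.Perm (Fin m)) (R : ℕ)
    (ρ : Equiv.Perm (Fin (kk m R))) (x₀ : Fin (nn m) → ℝ) :
    ((full W σ R).permRows ρ).context x₀ = ctx m R (full W σ R).constraints x₀ := by
  unfold LP.context ctx
  rw [permRows_constraints]
  rfl

theorem run (W : Wt) {m : ℕ} (hm : 0 < m) (R : ℕ) (r : LocalRule)
    (hR : 8 * r.labels (nn m) (kk m R) * m * m ≤ kk m R)
    (C₀ : Multiset ((Fin (nn m) → ℚ) × ℚ)) (X₀ : Fin (nn m) → ℝ) (π₀ : ℕ → Fin 5)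
    (hag : ∀ σ : Equiv.Perm (Fin m), r.Agree m R (full W σ R).constraints C₀
      (fvert W σ π₀) X₀) :
    ∃ (σ : Equiv.Perm (Fin m)) (ρ : Equiv.Perm (Fin (kk m R))), ∀ π π', Rel m π π' →
        SimplexStep r ((full W σ R).permRows ρ) (fvert W σ π₀) (fvert W σ π) (fvert W σ π') := by
  classical
  have hkpos : 0 < kk m R := by show 0 < m * 8 + _; omega
  let v₀ : Fin (kk m R) := ⟨0, hkpos⟩
  -- separated names
  let κ : Fin m → Fin (kk m R) → ℝ ×ₗ Fin (kk m R) := fun p v =>
    toLex (r.key (ctx m R C₀ X₀) (Sum.inr v) (dat W m R p), v)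
  have hκ : ∀ p, Function.Injective (κ p) := by
    intro p v w hvw
    have := congrArg ofLex hvw
    simp only [κ, ofLex_toLex, Prod.mk.injEq] at this
    exact this.2
  obtain ⟨ord, N, c₀, hnd, hmem, hNS, hNinj, hord⟩ := extract v₀ κ hκ
    (fun p v => r.label (ctx m R C₀ X₀) (Sum.inr v) (dat W m R p)) m Finset.univ Finset.univ
    (by simp) (by rw [Finset.card_univ, Fintype.card_fin]; exact hR)
  have hmem' : ∀ p, p ∈ ord := fun p => (hmem p).2 (Finset.mem_univ p)
  obtain ⟨ρ, hρ⟩ := exists_perm (fun x : Fin m × Fin 8 =>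
    (Fin.castAdd (Fintype.card (IT m) + Fintype.card (KT m R)) (row x.1 x.2) : Fin (kk m R)))
    (fun x => N x.1 x.2)
    (by
      intro x y hxy
      have h1 := Fin.castAdd_injective _ _ hxy
      exact finProdFinEquiv.injective h1)
    (by
      rintro ⟨p, f⟩ ⟨p', f'⟩ hxy
      obtain ⟨rfl, rfl⟩ := hNinj p (Finset.mem_univ _) p' (Finset.mem_univ _) f f' hxy
      rfl)
  -- the order of the levels
  obtain ⟨σ, hσ⟩ := peel ord hnd hmem'
    (fun l => r.pick (ctx m R C₀ X₀) (l.map fun p => (c₀ p, dat W m R p)))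
    (fun l hl => by
      have := r.pick_lt (ctx m R C₀ X₀) (l.map fun p => (c₀ p, dat W m R p))
        (by simpa using hl)
      simpa using this)
  refine ⟨σ, ρ, ?_⟩
  rintro π π' ⟨a, φ, ha, hφ, rfl, rfl⟩
  have hview := view_state (W := W) (σ := σ) hφ R
  have hview' := permRows_isLocalView (full W σ R) ρ hview
  -- the improving variables
  let nm : Fin m → Fin (nn m) ⊕ Fin (kk m R) := fun p => Sum.inr (N p (fac φ (σ p)))
  have hnm : ∀ p, pvar (nn m) ρ (frow m R p (fac φ (σ p))) = nm p := by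
    intro p
    have := hρ (p, fac φ (σ p))
    simp only at this
    simp only [pvar, frow, nm, Equiv.sumCongr_apply, Sum.map_inr, this]
  have hsymm : ∀ p, (pvar (nn m) ρ).symm (nm p) = frow m R p (fac φ (σ p)) := by
    intro p
    rw [Equiv.symm_apply_eq, hnm]
  obtain ⟨q', hq'⟩ : ∃ q' : Fin (nn m) ⊕ Fin (kk m R) → ℝ,
    q' = fq W σ R (posOf φ) ∘ (pvar (nn m) ρ).symm := ⟨_, rfl⟩
  obtain ⟨nb', hnb'⟩ : ∃ nb' : Fin (nn m) ⊕ Fin (kk m R) → Fin (nn m) → ℝ,
    nb' = (full W σ R).nbC (fvert W σ (posOf φ)) ∘ (pvar (nn m) ρ).symm := ⟨_, rfl⟩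
  have hview'' : ((full W σ R).permRows ρ).IsLocalView (fvert W σ (posOf φ)) q' nb' := by
    rw [hq', hnb']; exact hview'
  have hdat : ∀ p, a ≤ (σ p : ℕ) →
      ((full W σ R).permRows ρ).datum (fvert W σ (posOf φ)) q' nb' (nm p) = dat W m R p := by
    intro p hp
    rw [← hnm, permRows_datum]
    have h1 : q' ∘ pvar (nn m) ρ = fq W σ R (posOf φ) := by
      rw [hq', Function.comp_assoc, Equiv.symm_comp_self, Function.comp_id]
    have h2 : nb' ∘ pvar (nn m) ρ = (full W σ R).nbC (fvert W σ (posOf φ)) := by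
      rw [hnb', Function.comp_assoc, Equiv.symm_comp_self, Function.comp_id]
    rw [h1, h2]
    exact datum_state hφ R hp
  obtain ⟨hag1, hag2, hag3⟩ := hag σ
  have hctx := permRows_context W σ R ρ (fvert W σ π₀)
  have hlabel : r.label (((full W σ R).permRows ρ).context (fvert W σ π₀)) =
      r.label (ctx m R C₀ X₀) := by
    rw [hctx, hag1]
  have hkey : r.key (((full W σ R).permRows ρ).context (fvert W σ π₀)) =
      r.key (ctx m R C₀ X₀) := by
    rw [hctx, hag2]
  have hpick : r.pick (((full W σ R).permRows ρ).context (fvert W σ π₀)) =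
      r.pick (ctx m R C₀ X₀) := by
    rw [hctx, hag3]
  have hpos : ∀ v, 0 < q' v ↔ ∃ p, a ≤ (σ p : ℕ) ∧ nm p = v := by
    intro v
    rw [hq']
    constructor
    · intro hv
      simp only [Function.comp_apply] at hv
      obtain ⟨p, f, hpf⟩ := fq_pos W σ R _ _ hv
      rw [hpf, fq_pos_iff hφ] at hv
      refine ⟨p, hv.1, ?_⟩
      rw [← hnm, ← hv.2, ← hpf, Equiv.apply_symm_apply]
    · rintro ⟨p, hp, rfl⟩
      simp only [Function.comp_apply, hsymm]
      rw [fq_pos_iff hφ]
      exact ⟨hp, rfl⟩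
  obtain ⟨L, hL⟩ : ∃ L, L = ord.filter fun p => decide (a ≤ (σ p : ℕ)) := ⟨_, rfl⟩
  have hLmem : ∀ p, p ∈ L ↔ a ≤ (σ p : ℕ) := by
    intro p
    rw [hL, List.mem_filter, decide_eq_true_eq]
    exact ⟨fun h => h.2, fun h => ⟨hmem' p, h⟩⟩
  have hsorted : r.sorted ((full W σ R).permRows ρ) (fvert W σ π₀) (fvert W σ (posOf φ))
      q' nb' = L.map nm := by
    unfold LocalRule.sorted
    refine eq_insertionSort _ vidx (improving_pairwise _) ?_ fun v => ?_
    · rw [List.pairwise_map, hL]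
      refine List.Pairwise.imp_of_mem ?_ (hord.filter _)
      rw [← hL]
      intro p p' hp hp' hpp
      have h1 := hpp (fac φ (σ p)) (fac φ (σ p'))
      simp only [κ, Prod.Lex.toLex_lt_toLex] at h1
      simp only [Lex]
      rw [hdat p ((hLmem p).1 hp), hdat p' ((hLmem p').1 hp'), hkey]
      rcases h1 with h1 | ⟨h1, h2⟩
      · exact Or.inl h1
      · refine Or.inr ⟨h1, ?_⟩
        simp only [nm, vidx, Sum.elim_inr]
        have : ((N p (fac φ (σ p)) : Fin (kk m R)) : ℕ) < N p' (fac φ (σ p')) := h2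
        omega
    · rw [mem_improving, List.mem_map, hpos]
      exact exists_congr fun p => and_congr_left fun _ => (hLmem p).symm
  have hmap : ((r.sorted ((full W σ R).permRows ρ) (fvert W σ π₀) (fvert W σ (posOf φ))
      q' nb').map fun v => (r.label (((full W σ R).permRows ρ).context (fvert W σ π₀)) v
        (((full W σ R).permRows ρ).datum (fvert W σ (posOf φ)) q' nb' v),
        ((full W σ R).permRows ρ).datum (fvert W σ (posOf φ)) q' nb' v)) =
      L.map fun p => (c₀ p, dat W m R p) := by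
    rw [hsorted, List.map_map]
    refine List.map_congr_left fun p hp => ?_
    simp only [Function.comp_apply]
    rw [hdat p ((hLmem p).1 hp), hlabel]
    have := (hNS p (Finset.mem_univ _) (fac φ (σ p))).2
    simp only [nm]
    rw [this]
  refine ⟨q', nb', hview'', nm (σ.symm ⟨a, ha⟩), ?_, ?_, ?_⟩
  · rw [hmap, hsorted, hpick, List.getElem?_map, hL, hσ a ha]
    rfl
  · rw [hnb', Function.comp_apply, hsymm]
    have h1 := nbC_state (W := W) (σ := σ) hφ R (p := σ.symm ⟨a, ha⟩) (by simp)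
    simp only [Equiv.apply_symm_apply] at h1 ⊢
    rw [h1]
  · rw [permRows_obj, permRows_obj]
    have h1 := gain (W := W) (σ := σ) hφ R (p := σ.symm ⟨a, ha⟩) (by simp)
    simp only [Equiv.apply_symm_apply] at h1
    have h2 := gpos W (σ.symm ⟨a, ha⟩)
    linarith

end Pool.Agent.Lib.MP_4d246d_lc.Local
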