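import Pool.Agent.Lib.MP_4d246d_lc.Local.Run

/-!
# Size of the linear programs
-/

namespace Pool.Agent.Lib.MP_4d246d_lc.Local

open Finset

lemma bitLength_intCast_le {z : ℤ} {E : ℕ} (h : |z| < 2 ^ E) :
    bitLength (z : ℚ) ≤ E + 2 := by
  have h0 : z.natAbs < 2 ^ E := by
    have h6 : (z.natAbs : ℤ) < ((2 ^ E : ℕ) : ℤ) := by
      rw [Int.natCast_natAbs]
      push_cast
      exact h
    exact_mod_cast h6
  have h1 : Nat.size z.natAbs ≤ E := Nat.size_le.2 h0
  simp only [bitLength, Rat.num_intCast, Rat.den_intCast, Nat.size_one]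
  omega

/-- `q` is an integer of absolute value less than `2 ^ E` -/
def Small (E : ℕ) (q : ℚ) : Prop := ∃ z : ℤ, q = z ∧ |z| < 2 ^ E

lemma Small.bitLength_le {E : ℕ} {q : ℚ} (h : Small E q) : bitLength q ≤ E + 2 := by
  obtain ⟨z, rfl, hz⟩ := h
  exact bitLength_intCast_le hz

lemma Small.zero (E : ℕ) : Small E 0 := ⟨0, by simp, by simp⟩

lemma Small.single {n : ℕ} {E : ℕ} {q : ℚ} (h : Small E q) (i j : Fin n) :
    Small E ((Pi.single i q : Fin n → ℚ) j) := by
  rw [Pi.single_apply]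
  split_ifs
  · exact h
  · exact Small.zero E

lemma size_le_of_small {n k : ℕ} (P : LP n k) (E : ℕ) (hA : ∀ i j, Small E (P.A i j))
    (hb : ∀ i, Small E (P.b i)) (hc : ∀ j, Small E (P.c j)) :
    P.size ≤ (k * n + k + n) * (E + 2) := by
  have h1 : ∑ i, ∑ j, bitLength (P.A i j) ≤ k * (n * (E + 2)) := by
    calc ∑ i, ∑ j, bitLength (P.A i j) ≤ ∑ _i : Fin k, ∑ _j : Fin n, (E + 2) :=
          Finset.sum_le_sum fun i _ => Finset.sum_le_sum fun j _ => (hA i j).bitLength_le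
      _ = k * (n * (E + 2)) := by simp
  have h2 : ∑ i, bitLength (P.b i) ≤ k * (E + 2) := by
    calc ∑ i, bitLength (P.b i) ≤ ∑ _i : Fin k, (E + 2) :=
          Finset.sum_le_sum fun i _ => (hb i).bitLength_le
      _ = k * (E + 2) := by simp
  have h3 : ∑ j, bitLength (P.c j) ≤ n * (E + 2) := by
    calc ∑ j, bitLength (P.c j) ≤ ∑ _j : Fin n, (E + 2) :=
          Finset.sum_le_sum fun j _ => (hc j).bitLength_le
      _ = n * (E + 2) := by simp
  unfold LP.size
  nlinarith [h1, h2, h3]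

lemma two_pow_gt (m : ℕ) : (m : ℤ) < 2 ^ m := by exact_mod_cast Nat.lt_two_pow_self

lemma XS_le (W : Wt) {m : ℕ} (σ : Equiv.Perm (Fin m)) (ℓ : ℕ) (hℓ : ℓ ≤ m) :
    XS W σ ℓ ≤ 4 * m * (2 ^ ℓ - 1) := by
  induction ℓ with
  | zero => simp [XS]
  | succ ℓ ih =>
    have h1 := ih (by omega)
    have h2 : W.g (blk σ ℓ) ≤ m := by
      refine (W.g_le _).trans ?_
      have := blk_lt σ ⟨ℓ, by omega⟩
      simp only at this
      exact_mod_cast this
    simp only [XS]
    have h3 : (2 : ℤ) ^ (ℓ + 1) = 2 * 2 ^ ℓ := by rw [pow_succ]; ring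
    rw [h3]
    linarith

lemma XS_le' (W : Wt) {m : ℕ} (σ : Equiv.Perm (Fin m)) : XS W σ m ≤ 4 * (2 ^ m * 2 ^ m) := by
  have h1 := XS_le W σ m le_rfl
  have h2 := (two_pow_gt m).le
  have h3 : (1 : ℤ) ≤ 2 ^ m := one_le_pow₀ (by norm_num)
  nlinarith

/-- bound in terms of `m` and `XS m` -/
lemma bound_small {m : ℕ} (W : Wt) (σ : Equiv.Perm (Fin m)) {z : ℤ}
    (h : |z| ≤ 15 * m * XS W σ m + 9 * m + 2 * XS W σ m + 2) : |z| < 2 ^ (3 * m + 7) := by
  have h1 := XS_le' W σ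
  have h2 := (two_pow_gt m).le
  have h3 : (1 : ℤ) ≤ 2 ^ m := one_le_pow₀ (by norm_num)
  have h4 := XS_nonneg W σ m
  have hm : (0 : ℤ) ≤ m := by positivity
  have e : (2 : ℤ) ^ (3 * m + 7) = 128 * (2 ^ m * 2 ^ m * 2 ^ m) := by
    rw [pow_add, pow_mul]
    rw [show (2 : ℤ) ^ 3 = 2 * 2 * 2 by norm_num, mul_pow, mul_pow]
    norm_num
    ring
  rw [e]
  set T : ℤ := 2 ^ m
  have h5 : (m : ℤ) * XS W σ m ≤ T * (4 * (T * T)) := by gcongr
  have h6 : T * T ≤ T * T * T := by nlinarith [mul_nonneg (show 0 ≤ T by linarith) (show 0 ≤ T by linarith)]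
  have h7 : T ≤ T * T := by nlinarith
  nlinarith

section

variable (W : Wt) {m : ℕ} (σ : Equiv.Perm (Fin m))

lemma u_le' (p : Fin m) : W.u p ≤ m := (W.u_le p).trans (by exact_mod_cast p.2)

lemma entA_bound (p : Fin m) (f : Fin 8) (ℓ : Fin m) (i : Fin 4) :
    |entA W σ p f ℓ i| ≤ 2 * m := by
  have h1 : ∀ f i, |co f i| ≤ 2 := by decide
  have h2 : ∀ f, |cp f| ≤ 2 := by decide
  have h3 := W.u_pos p
  have h4 := u_le' W p
  have hm : (0 : ℤ) ≤ m := by positivity
  have h5 : |(if ℓ = σ p then co f i else 0) +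
      (if (ℓ : ℕ) + 1 = (σ p : ℕ) ∧ i = 0 then cp f else 0)| ≤ 2 := by
    by_cases h : ℓ = σ p
    · have h' : ¬ ((ℓ : ℕ) + 1 = (σ p : ℕ) ∧ i = 0) := by rw [h]; omega
      rw [if_pos h, if_neg h', add_zero]
      exact h1 f i
    · rw [if_neg h, zero_add]
      split_ifs
      · exact h2 f
      · simp
  rw [entA, abs_neg, abs_mul, abs_of_nonneg (by linarith : (0 : ℤ) ≤ W.u p)]
  have h6 : W.u p * |(if ℓ = σ p then co f i else 0) +
      (if (ℓ : ℕ) + 1 = (σ p : ℕ) ∧ i = 0 then cp f else 0)| ≤ m * 2 := by gcongr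
  linarith

lemma entB_bound (p : Fin m) (f : Fin 8) :
    |entB W σ p f| ≤ 7 * m * XS W σ m + 5 * m := by
  have t1 : ∀ f, 0 ≤ k1 f ∧ k1 f ≤ 1 := by decide
  have t2 : ∀ f, 0 ≤ kg f ∧ kg f ≤ 8 := by decide
  have t3 : ∀ f, 0 ≤ kX f ∧ kX f ≤ 4 := by decide
  have t4 : ∀ f, -2 ≤ co f 0 ∧ co f 0 ≤ 2 := by decide
  have t5 : ∀ f, -2 ≤ cp f ∧ cp f ≤ 0 := by decide
  have h3 := W.u_pos p
  have h4 := u_le' W p
  have hm : (0 : ℤ) ≤ m := by positivity
  have hX := XS_nonneg W σ (σ p)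
  have hX1 : XS W σ (σ p + 1) = 4 * W.g p + 2 * XS W σ (σ p) := by
    simp only [XS, blk_eq]
  have hM : XS W σ (σ p + 1) ≤ XS W σ m := XS_mono W σ (σ p).2
  have hg := W.g_pos p
  have key : |k1 f + kg f * W.g p + kX f * XS W σ (σ p) - co f 0 * (XS W σ (σ p + 1) + 1) -
      cp f * (if (σ p : ℕ) = 0 then 0 else XS W σ (σ p) + 1)| ≤ 7 * XS W σ m + 5 := by
    obtain ⟨a1, a2⟩ := t1 f
    obtain ⟨b1, b2⟩ := t2 f
    obtain ⟨c1, c2⟩ := t3 f
    obtain ⟨d1, d2⟩ := t4 f
    obtain ⟨e1, e2⟩ := t5 f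
    have m1 : 0 ≤ kg f * W.g p ∧ kg f * W.g p ≤ 8 * W.g p := ⟨by positivity, by gcongr⟩
    have m2 : 0 ≤ kX f * XS W σ (σ p) ∧ kX f * XS W σ (σ p) ≤ 4 * XS W σ (σ p) :=
      ⟨by positivity, by gcongr⟩
    have m3 : |co f 0 * (XS W σ (σ p + 1) + 1)| ≤ 2 * (XS W σ (σ p + 1) + 1) := by
      rw [abs_mul, abs_of_nonneg (by linarith : 0 ≤ XS W σ (σ p + 1) + 1)]
      exact mul_le_mul_of_nonneg_right (abs_le.2 ⟨d1, d2⟩) (by linarith)
    have m4 : |cp f * (if (σ p : ℕ) = 0 then 0 else XS W σ (σ p) + 1)| ≤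
        2 * (XS W σ (σ p) + 1) := by
      rw [abs_mul]
      have g1 : |cp f| ≤ 2 := abs_le.2 ⟨e1, by linarith⟩
      have g2 : |(if (σ p : ℕ) = 0 then 0 else XS W σ (σ p) + 1)| ≤ XS W σ (σ p) + 1 := by
        split_ifs
        · rw [abs_zero]; linarith
        · rw [abs_of_nonneg (by linarith)]
      exact mul_le_mul g1 g2 (abs_nonneg _) (by norm_num)
    have m3' := abs_le.1 m3
    have m4' := abs_le.1 m4
    rw [abs_le]
    constructor
    · linarith [m3'.1, m3'.2, m4'.1, m4'.2]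
    · linarith [m3'.1, m3'.2, m4'.1, m4'.2]
  rw [entB, abs_mul, abs_of_nonneg (by linarith : (0 : ℤ) ≤ W.u p)]
  have hM0 := XS_nonneg W σ m
  calc W.u p * _ ≤ m * (7 * XS W σ m + 5) := by gcongr
    _ = 7 * m * XS W σ m + 5 * m := by ring

lemma small_of {z : ℤ} (h : |z| ≤ 15 * m * XS W σ m + 9 * m + 2 * XS W σ m + 2) :
    Small (3 * m + 7) (z : ℚ) := ⟨z, rfl, bound_small W σ h⟩

end

lemma small_of' (W : Wt) {m : ℕ} (σ : Equiv.Perm (Fin m)) {z : ℤ} (h : |z| ≤ 4 * m + 1) :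
    Small (3 * m + 7) (z : ℚ) := by
  refine small_of W σ (h.trans ?_)
  have h1 := XS_nonneg W σ m
  have h2 : 0 ≤ (m : ℤ) * XS W σ m := by positivity
  have hm : (0 : ℤ) ≤ m := by positivity
  nlinarith

section

variable (W : Wt) {m : ℕ} (σ : Equiv.Perm (Fin m))

lemma amp_bound {a : ℤ} (ha : 0 ≤ a ∧ a ≤ 4 * m) (s : Fin 2) : |sgn s * a| ≤ 4 * m + 1 := by
  have : ∀ s, |sgn s| = 1 := by decide
  rw [abs_mul, this, one_mul, abs_of_nonneg ha.1]
  linarith [ha.2]

lemma coreA_small (i : Fin (m * 8)) (j : Fin (m * 4)) :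
    ∃ z : ℤ, (core W σ).A i j = z ∧ |z| ≤ 2 * m :=
  ⟨_, rfl, entA_bound W σ _ _ _ _⟩

lemma coreb_small (i : Fin (m * 8)) :
    ∃ z : ℤ, (core W σ).b i = z ∧ |z| ≤ 7 * m * XS W σ m + 5 * m :=
  ⟨_, rfl, entB_bound W σ _ _⟩

lemma full_size (R : ℕ) :
    (full W σ R).size ≤ (kk m R * nn m + kk m R + nn m) * (3 * m + 9) := by
  have hM := XS_nonneg W σ m
  have hm : (0 : ℤ) ≤ m := by positivity
  have hmM : 0 ≤ (m : ℤ) * XS W σ m := by positivity
  have h0 : Small (3 * m + 7) 0 := Small.zero _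
  have h1 : Small (3 * m + 7) 1 := by
    have := small_of' W σ (z := 1) (by rw [abs_one]; linarith)
    simpa using this
  have hH : |Hc W σ| ≤ 8 * m * XS W σ m + 4 * m + 2 * XS W σ m + 2 := by
    have h : (Hc W σ : ℤ) = 8 * m * XS W σ m + 4 * m + 2 * XS W σ m + 2 := by
      simp only [Hc]; ring
    rw [h, abs_of_nonneg (by nlinarith)]
  have hfF : ∀ x j, Small (3 * m + 7) (fF W σ x j) := by
    rintro (x | x) j
    · exact h1.single _ _
    · exact (small_of' W σ (amp_bound (amp1_bound W σ x.1 x.2.1) x.2.2.2)).single _ _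
  have hgF : ∀ x j, Small (3 * m + 7) (gF W σ R x j) := by
    rintro (x | x | x) j
    · obtain ⟨z, hz, hz'⟩ := coreA_small W σ x j
      have e : gF W σ R (Sum.inl x) j = ((-z : ℤ) : ℚ) := by
        simp [gF, hz]
      rw [e]
      exact small_of' W σ (by rw [abs_neg]; linarith)
    · exact (small_of' W σ (amp_bound (amp2_bound W σ x.1 x.2.1 x.2.2.1) x.2.2.2)).single _ _
    · exact h0
  have hcF : ∀ x, Small (3 * m + 7) (cF W σ x) := fun x =>
    small_of W σ (by nlinarith)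
  have hhF : ∀ x, Small (3 * m + 7) (hF W σ R x) := by
    rintro (x | x | x)
    · obtain ⟨z, hz, hz'⟩ := coreb_small W σ x
      have e : hF W σ R (Sum.inl x) = ((Hc W σ - z : ℤ) : ℚ) := by
        simp [hF, hz]
      rw [e]
      refine small_of W σ ((abs_sub _ _).trans ?_)
      nlinarith
    · exact small_of W σ (by nlinarith)
    · exact h1
  refine size_le_of_small _ (3 * m + 7) ?_ ?_ ?_
  · intro i j
    refine Fin.addCases (fun i => ?_) (fun i => ?_) i
    · refine Fin.addCases (fun j => ?_) (fun j => ?_) j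
      · simp only [full, pad, Fin.append_left]
        obtain ⟨z, hz, hz'⟩ := coreA_small W σ i j
        rw [hz]
        exact small_of' W σ (by linarith)
      · simp only [full, pad, Fin.append_left, Fin.append_right]
        exact h0
    · refine Fin.addCases (fun i => ?_) (fun i => ?_) i
      · refine Fin.addCases (fun j => ?_) (fun j => ?_) j
        · simp only [full, pad, Fin.append_left, Fin.append_right]
          exact hfF _ _
        · simp only [full, pad, Fin.append_left, Fin.append_right]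
          exact h1.single _ _
      · refine Fin.addCases (fun j => ?_) (fun j => ?_) j
        · simp only [full, pad, Fin.append_left, Fin.append_right]
          exact hgF _ _
        · simp only [full, pad, Fin.append_right]
          exact h0
  · intro i
    refine Fin.addCases (fun i => ?_) (fun i => ?_) i
    · simp only [full, pad, Fin.append_left]
      obtain ⟨z, hz, hz'⟩ := coreb_small W σ i
      rw [hz]
      exact small_of W σ (by nlinarith)
    · refine Fin.addCases (fun i => ?_) (fun i => ?_) i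
      · simp only [full, pad, Fin.append_left, Fin.append_right]
        exact hcF _
      · simp only [full, pad, Fin.append_right]
        exact hhF _
  · intro j
    refine Fin.addCases (fun j => ?_) (fun j => ?_) j
    · simp only [full, pad, Fin.append_left, core]
      split_ifs
      · exact h1
      · exact h0
    · simp only [full, pad, Fin.append_right]
      exact h0

end

lemma card_IT (m : ℕ) : Fintype.card (IT m) = m * 4 + m * (m * 6) := by
  simp [IT]

lemma card_KT (m R : ℕ) : Fintype.card (KT m R) = m * 8 + (m * (m * 6) + R) := by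
  simp [KT]

lemma kk_eq (m R : ℕ) : kk m R = 20 * m + 12 * (m * m) + R := by
  show m * 8 + (Fintype.card (IT m) + Fintype.card (KT m R)) = _
  rw [card_IT, card_KT]; ring

lemma nn_eq (m : ℕ) : nn m = 8 * m + 6 * (m * m) := by
  show m * 4 + Fintype.card (IT m) = _
  rw [card_IT]; ring

/-- number of constraints without effect -/
def RR (a C m : ℕ) : ℕ := C * 3 ^ a * (8 * m * m) ^ (a + 1)

lemma enough_names {a C m L : ℕ} (hm : 0 < m)
    (hL : L ^ (a + 1) ≤ C * (nn m + kk m (RR a C m) + 1) ^ a) :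
    8 * L * m * m ≤ kk m (RR a C m) := by
  set k := kk m (RR a C m) with hk
  have hkeq : k = 20 * m + 12 * (m * m) + RR a C m := kk_eq m _
  have h3k : nn m + k + 1 ≤ 3 * k := by
    rw [nn_eq]; omega
  have hRk : RR a C m ≤ k := by omega
  have h1 : (8 * L * m * m) ^ (a + 1) ≤ k ^ (a + 1) := by
    calc (8 * L * m * m) ^ (a + 1) = (8 * m * m) ^ (a + 1) * L ^ (a + 1) := by
          rw [← mul_pow]; congr 1; ring
      _ ≤ (8 * m * m) ^ (a + 1) * (C * (3 * k) ^ a) := by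
          apply Nat.mul_le_mul_left
          exact hL.trans (Nat.mul_le_mul_left _ (Nat.pow_le_pow_left h3k a))
      _ = RR a C m * k ^ a := by rw [RR, mul_pow 3 k]; ring
      _ ≤ k * k ^ a := Nat.mul_le_mul_right _ hRk
      _ = k ^ (a + 1) := by rw [pow_succ]; ring
  exact (Nat.pow_le_pow_iff_left (Nat.succ_ne_zero a)).1 h1

lemma final_size (W : Wt) {m : ℕ} (σ : Equiv.Perm (Fin m)) (a C : ℕ) :
    (full W σ (RR a C m)).size ≤
      54 * (12 + C * 3 ^ a * 8 ^ (a + 1)) * (m + 1) ^ (2 * a + 5) := by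
  refine (full_size W σ _).trans ?_
  have hR : RR a C m ≤ C * 3 ^ a * 8 ^ (a + 1) * (m + 1) ^ (2 * a + 2) := by
    have h1 : (8 * m * m) ^ (a + 1) ≤ 8 ^ (a + 1) * (m + 1) ^ (2 * a + 2) := by
      have h2 : (m + 1) ^ (2 * a + 2) = ((m + 1) * (m + 1)) ^ (a + 1) := by
        rw [← pow_two, ← pow_mul]; congr 1
      rw [h2, ← mul_pow]
      apply Nat.pow_le_pow_left
      nlinarith
    calc RR a C m = C * 3 ^ a * (8 * m * m) ^ (a + 1) := rfl
      _ ≤ C * 3 ^ a * (8 ^ (a + 1) * (m + 1) ^ (2 * a + 2)) := Nat.mul_le_mul_left _ h1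
      _ = _ := by ring
  have hpow : (m + 1) ^ 2 ≤ (m + 1) ^ (2 * a + 2) :=
    Nat.pow_le_pow_right (by omega) (by omega)
  have hk' : kk m (RR a C m) + 1 ≤
      (12 + C * 3 ^ a * 8 ^ (a + 1)) * (m + 1) ^ (2 * a + 2) := by
    rw [kk_eq, add_mul]
    have h2 : 12 * (m + 1) ^ 2 = 20 * m + 12 * (m * m) + (4 * m + 12) := by ring
    omega
  have hn' : nn m + 1 ≤ 6 * (m + 1) ^ 2 := by
    rw [nn_eq]
    have h2 : 6 * (m + 1) ^ 2 = (8 * m + 6 * (m * m)) + (4 * m + 6) := by ring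
    omega
  calc (kk m (RR a C m) * nn m + kk m (RR a C m) + nn m) * (3 * m + 9)
      ≤ ((kk m (RR a C m) + 1) * (nn m + 1)) * (3 * m + 9) := by
        apply Nat.mul_le_mul_right
        have : (kk m (RR a C m) + 1) * (nn m + 1) =
          kk m (RR a C m) * nn m + kk m (RR a C m) + nn m + 1 := by ring
        omega
    _ ≤ (((12 + C * 3 ^ a * 8 ^ (a + 1)) * (m + 1) ^ (2 * a + 2)) * (6 * (m + 1) ^ 2)) *
        (9 * (m + 1)) := by
        apply Nat.mul_le_mul
        · exact Nat.mul_le_mul hk' hn'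
        · omega
    _ = 54 * (12 + C * 3 ^ a * 8 ^ (a + 1)) * (m + 1) ^ (2 * a + 5) := by
        have : (m + 1) ^ (2 * a + 5) = (m + 1) ^ (2 * a + 2) * (m + 1) ^ 2 * (m + 1) := by
          rw [← pow_add, ← pow_succ]
        rw [this]; ring

end Pool.Agent.Lib.MP_4d246d_lc.Local
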