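import Pool.Agent.Lib.MP_4d246d_lc.Local.Data

/-!
# The states of the run
-/

namespace Pool.Agent.Lib.MP_4d246d_lc.Local

open Finset

/-- The position of level `ℓ`, from the phases `φ`. -/
def posOf (φ : ℕ → Fin 5) (ℓ : ℕ) : Fin 5 := if φ (ℓ + 1) ≤ 2 then φ ℓ else Fin.rev (φ ℓ)

/-- The next position of level `ℓ`. -/
def nextPos (φ : ℕ → Fin 5) (ℓ : ℕ) : Fin 5 :=
  if φ (ℓ + 1) ≤ 2 then φ ℓ + 1 else Fin.rev (φ ℓ + 1)

/-- orientation of level `ℓ` -/
def ori (φ : ℕ → Fin 5) (ℓ : ℕ) : ℤ := if φ (ℓ + 1) ≤ 2 then 1 else -1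

/-- The improving facet of level `ℓ`. -/
def fac (φ : ℕ → Fin 5) (ℓ : ℕ) : Fin 8 := ent (posOf φ ℓ) (nextPos φ ℓ)

/-- `φ` is a state with active levels `a ≤ ℓ < m`. -/
structure IsState (m a : ℕ) (φ : ℕ → Fin 5) : Prop where
  le : a ≤ m
  rest : ∀ ℓ, ℓ < a → φ ℓ = 4
  deep : a < m → φ a ≤ 3
  act : ∀ ℓ, a < ℓ → φ ℓ = 0 ∨ φ ℓ = 3
  top : ∀ ℓ, m ≤ ℓ → φ ℓ = 0

lemma st1 : ∀ x : Fin 5, x ≤ 3 → Adj x (x + 1) ∧ Adj (Fin.rev x) (Fin.rev (x + 1)) := by decide
lemma st2 : ∀ x : Fin 5, x = 0 ∨ x = 3 → kap (x + 1) = kap x ∧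
    kap (Fin.rev (x + 1)) = kap (Fin.rev x) ∧ x ≠ 2 ∧ Fin.rev x ≠ 2 ∧ x ≤ 3 := by decide
lemma st3 : ∀ x : Fin 5, x ≤ 3 → QN x (ent x (x + 1)) = 1 ∧
    QN (Fin.rev x) (ent (Fin.rev x) (Fin.rev (x + 1))) = -1 ∧
    (∀ b, b ≠ ent x (x + 1) → QN x b ≤ 0) ∧
    (∀ b, b ≠ ent (Fin.rev x) (Fin.rev (x + 1)) → 0 ≤ QN (Fin.rev x) b) := by decide
lemma st4 : ∀ b : Fin 8, QN 4 b ≤ 0 ∧ 0 ≤ QN (Fin.rev 4) b := by decide
lemma st5 : ∀ x : Fin 5, kap (Fin.rev x) = - kap x ∧ (x ≤ 2 → 0 ≤ kap x) ∧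
    (¬ x ≤ 2 → kap x ≤ 0) ∧ (x = 0 → kap x = 1 ∧ x ≤ 2) ∧ (x = 3 → kap x = -1 ∧ ¬ x ≤ 2) := by
  decide
lemma st6 : ∀ J J' : Fin 5, Adj J J' → MG J' (ent J J') = 4 := by decide
lemma st7 : ∀ x : Fin 5, x ≤ 3 → ¬ (x = 0 ∨ x = 3) → x ≤ 2 := by decide

lemma adj_next {φ : ℕ → Fin 5} {ℓ : ℕ} (h : φ ℓ ≤ 3) : Adj (posOf φ ℓ) (nextPos φ ℓ) := by
  unfold posOf nextPos
  split_ifs
  · exact (st1 _ h).1
  · exact (st1 _ h).2

lemma K_inv {m a : ℕ} {φ : ℕ → Fin 5} (h : IsState m a φ) : ∀ d ℓ, ℓ + 1 + d = m →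
    0 ≤ ori φ ℓ * K m (posOf φ) (ℓ + 1) ∧
      (a ≤ ℓ → ori φ ℓ * K m (posOf φ) (ℓ + 1) = 1) := by
  intro d
  induction d with
  | zero =>
    intro ℓ hℓ
    have h1 : ℓ + 1 = m := by omega
    have h2 := h.top m le_rfl
    rw [h1, K_top, ori, h1, h2]
    simp
  | succ d ih =>
    intro ℓ hℓ
    have ih1 := ih (ℓ + 1) (by omega)
    have hK := K_step (m := m) (posOf φ) (ℓ := ℓ + 1) (by omega)
    obtain ⟨s1, s2, s3, s4, s5⟩ := st5 (φ (ℓ + 1))
    have hkap : kap (posOf φ (ℓ + 1)) = ori φ (ℓ + 1) * kap (φ (ℓ + 1)) := by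
      unfold posOf ori
      split_ifs
      · ring
      · rw [s1]; ring
    have hval : ori φ ℓ * K m (posOf φ) (ℓ + 1) =
        (ori φ (ℓ + 1) * K m (posOf φ) (ℓ + 1 + 1)) * (ori φ ℓ * kap (φ (ℓ + 1))) := by
      rw [hK, hkap]; ring
    constructor
    · rw [hval]
      refine mul_nonneg ih1.1 ?_
      unfold ori
      split_ifs with h1
      · linarith [s2 h1]
      · linarith [s3 h1]
    · intro ha
      rw [hval, ih1.2 (by omega), one_mul]
      unfold ori
      rcases h.act (ℓ + 1) (by omega) with h3 | h3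
      · rw [if_pos (s4 h3).2, (s4 h3).1]; norm_num
      · rw [if_neg (s5 h3).2, (s5 h3).1]; norm_num

section

variable {W : Wt} {m a : ℕ} {σ : Equiv.Perm (Fin m)} {φ : ℕ → Fin 5}

lemma rest_x (h : IsState m a φ) : ∀ ℓ, ℓ < a →
    vx W σ (posOf φ) ℓ = ori φ ℓ * XS W σ (ℓ + 1) := by
  intro ℓ
  induction ℓ with
  | zero =>
    intro h0
    rw [vx_eq, posR_zero]
    have h4 := h.rest 0 h0
    simp only [prev, XS]
    unfold posOf ori
    rw [h4]
    split_ifs
    · simp [pg, kap]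
    · simp [pg, kap, Fin.rev]
  | succ ℓ ih =>
    intro h0
    have h1 := ih (by omega)
    have h4 := h.rest (ℓ + 1) h0
    have h5 : ori φ ℓ = -1 := by rw [ori, h4]; decide
    rw [h5] at h1
    rw [vx_eq, posR_zero]
    simp only [prev]
    have hXS : (XS W σ (ℓ + 1 + 1) : ℝ) = 4 * W.g (blk σ (ℓ + 1)) + 2 * XS W σ (ℓ + 1) := by
      rw [XS]; push_cast; ring
    rw [h1, hXS]
    unfold posOf ori
    rw [h4]
    split_ifs
    · simp [pg, kap]; ring
    · simp [pg, kap, Fin.rev]; ring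

lemma state_vis (h : IsState m a φ) {ℓ : ℕ} (ha : a ≤ ℓ) (hm : ℓ < m) :
    Vis W σ (posOf φ) ℓ (nextPos φ ℓ) := by
  have h3 : φ ℓ ≤ 3 := by
    rcases Nat.eq_or_lt_of_le ha with h1 | h1
    · rw [← h1]; exact h.deep (by omega)
    · exact (st2 _ (h.act ℓ h1)).2.2.2.2
  refine ⟨hm, adj_next h3, ?_, ?_⟩
  · by_cases h1 : φ ℓ = 0 ∨ φ ℓ = 3
    · left
      unfold posOf nextPos
      split_ifs
      · exact (st2 _ h1).1
      · exact (st2 _ h1).2.1
    · right
      have h2 : ℓ = a := by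
        by_contra hne
        exact h1 (h.act ℓ (by omega))
      subst h2
      have h4 := st7 _ h3 h1
      rcases ℓ with _ | ℓ
      · simp [prev, XS]
      · simp only [prev]
        rw [rest_x h ℓ (by omega)]
        have h5 : ori φ ℓ = 1 := by rw [ori, if_pos h4]
        rw [h5]
        push_cast
        ring
  · intro ℓ' h1 _
    have h2 := st2 _ (h.act ℓ' (by omega))
    unfold posOf
    split_ifs
    · exact h2.2.2.1
    · exact h2.2.2.2.1

/-- value of the reduced cost at the improving facet -/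
lemma fq_fac (h : IsState m a φ) (R : ℕ) {p : Fin m} (ha : a ≤ (σ p : ℕ)) :
    fq W σ R (posOf φ) (frow m R p (fac φ (σ p))) = 1 / (2 * W.u p) := by
  have hK := (K_inv h (m - (σ p + 1)) (σ p) (by have := (σ p).2; omega)).2 ha
  have h3 : φ (σ p) ≤ 3 := by
    rcases Nat.eq_or_lt_of_le ha with h1 | h1
    · rw [← h1]; exact h.deep (by have := (σ p).2; omega)
    · exact (st2 _ (h.act _ h1)).2.2.2.2
  obtain ⟨s1, s2, -, -⟩ := st3 _ h3
  have h4 : (QN (posOf φ (σ p)) (fac φ (σ p)) : ℤ) * K m (posOf φ) (σ p + 1) = 1 := by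
    rw [← hK, fac]
    congr 1
    unfold ori nextPos
    unfold posOf
    split_ifs
    · exact s1
    · exact s2
  rw [fq_frow]
  have h5 : (QN (posOf φ (σ p)) (fac φ (σ p)) : ℝ) * K m (posOf φ) (σ p + 1) = 1 := by
    exact_mod_cast h4
  rw [h5]

lemma fq_pos_iff (h : IsState m a φ) (R : ℕ) (p : Fin m) (b : Fin 8) :
    0 < fq W σ R (posOf φ) (frow m R p b) ↔ a ≤ (σ p : ℕ) ∧ b = fac φ (σ p) := by
  have hu := upos W p
  constructor
  · intro hpos
    rw [fq_frow] at hpos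
    have h1 : (0 : ℝ) < QN (posOf φ (σ p)) b * K m (posOf φ) (σ p + 1) := by
      by_contra hneg
      have : (QN (posOf φ (σ p)) b * K m (posOf φ) (σ p + 1) : ℝ) / (2 * W.u p) ≤ 0 :=
        div_nonpos_of_nonpos_of_nonneg (not_lt.1 hneg) (by positivity)
      linarith
    have h2 : 0 < QN (posOf φ (σ p)) b * K m (posOf φ) (σ p + 1) := by exact_mod_cast h1
    have hK := K_inv h (m - (σ p + 1)) (σ p) (by have := (σ p).2; omega)
    by_cases ha : a ≤ (σ p : ℕ)
    · refine ⟨ha, ?_⟩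
      by_contra hb
      have hK1 := hK.2 ha
      have h3 : φ (σ p) ≤ 3 := by
        rcases Nat.eq_or_lt_of_le ha with h1 | h1
        · rw [← h1]; exact h.deep (by have := (σ p).2; omega)
        · exact (st2 _ (h.act _ h1)).2.2.2.2
      obtain ⟨-, -, s3, s4⟩ := st3 _ h3
      unfold fac at hb
      unfold ori at hK1
      unfold nextPos at hb
      by_cases hc : φ ((σ p : ℕ) + 1) ≤ 2
      · have hp : posOf φ (σ p) = φ (σ p) := if_pos hc
        rw [if_pos hc] at hb hK1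
        rw [hp] at hb h2
        have := s3 b hb
        have hK2 : K m (posOf φ) (σ p + 1) = 1 := by linarith
        rw [hK2] at h2
        linarith
      · have hp : posOf φ (σ p) = Fin.rev (φ (σ p)) := if_neg hc
        rw [if_neg hc] at hb hK1
        rw [hp] at hb h2
        have := s4 b hb
        have hK2 : K m (posOf φ) (σ p + 1) = -1 := by linarith
        rw [hK2] at h2
        linarith
    · exfalso
      have h4 := h.rest (σ p) (by omega)
      have hK1 := hK.1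
      unfold ori at hK1
      obtain ⟨s1, s2⟩ := st4 b
      by_cases hc : φ ((σ p : ℕ) + 1) ≤ 2
      · have hp : posOf φ (σ p) = 4 := by rw [posOf, if_pos hc, h4]
        rw [if_pos hc, one_mul] at hK1
        rw [hp] at h2
        nlinarith
      · have hp : posOf φ (σ p) = Fin.rev 4 := by rw [posOf, if_neg hc, h4]
        rw [if_neg hc] at hK1
        rw [hp] at h2
        nlinarith
  · rintro ⟨ha, rfl⟩
    rw [fq_fac h R ha]
    positivity

lemma fvert_val_row (W : Wt) {m : ℕ} (σ : Equiv.Perm (Fin m)) (R : ℕ) (π : ℕ → Fin 5)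
    (p : Fin m) (f : Fin 8) : (full W σ R).val (fvert W σ π) (frow m R p f) =
      (core W σ).val (vert W σ π) (Sum.inr (row p f)) := by
  rw [frow_eq, full, fvert, lift_val_emb]

/-- gain of the edge of an active level -/
lemma gain (h : IsState m a φ) (R : ℕ) {p : Fin m} (ha : a ≤ (σ p : ℕ)) :
    (full W σ R).obj (fvert W σ (Function.update (posOf φ) (σ p) (nextPos φ (σ p)))) -
      (full W σ R).obj (fvert W σ (posOf φ)) = 2 * W.g p := by
  have hv := state_vis (W := W) (σ := σ) h ha (σ p).2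
  have hn := fvert_neighbor W σ R (posOf φ) (σ p).2 hv.adj
  have hp : σ.symm ⟨(σ p : ℕ), (σ p).2⟩ = p := by simp
  rw [hp] at hn
  have hq := fq_isReducedCost W σ R (posOf φ)
  rw [hq.obj_neighbor hn.2.2.2]
  have h1 : fq W σ R (posOf φ) (frow m R p (ent (posOf φ (σ p)) (nextPos φ (σ p)))) =
    1 / (2 * W.u p) := fq_fac h R ha
  rw [h1, fvert_val_row, val_row_vert, Function.update_self,
    prev_vx_update W σ _ _ le_rfl, st6 _ _ hv.adj]
  have h2 : (ME (nextPos φ (σ p)) (ent (posOf φ (σ p)) (nextPos φ (σ p))) : ℝ) *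
      ((XS W σ (σ p) : ℝ) - prev (vx W σ (posOf φ)) (σ p)) = 0 := by
    rcases hv.own with h3 | h3
    · rw [tblD _ _ h3, (MG_tight _ _ (ent_props _ _ hv.adj).1).2]
      simp
    · rw [h3, mul_zero]
  rw [h2]
  have hu := (upos W p).ne'
  push_cast
  field_simp
  ring

end

/-! ### The moves of the states -/

/-- the next state -/
def nextState (a : ℕ) (φ : ℕ → Fin 5) (ℓ : ℕ) : Fin 5 :=
  if ℓ < a then (if φ a = 2 then 0 else φ ℓ) else if ℓ = a then φ a + 1 else φ ℓ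

lemma st8 : ∀ x : Fin 5, x ≤ 3 → x ≠ 2 → (x + 1 ≤ 2 ↔ x ≤ 2) := by decide

lemma posOf_nextState {m a : ℕ} {φ : ℕ → Fin 5} (h : IsState m a φ) (ha : a < m) :
    posOf (nextState a φ) = Function.update (posOf φ) a (nextPos φ a) := by
  have h3 := h.deep ha
  funext ℓ
  rcases lt_trichotomy ℓ a with h1 | h1 | h1
  · rw [Function.update_of_ne (by omega)]
    have h4 := h.rest ℓ h1
    by_cases h5 : ℓ + 1 = a
    · have hn : ¬ ℓ + 1 < a := by omega
      unfold posOf nextState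
      rw [if_pos h1, if_neg hn, if_pos h5, h5, h4]
      by_cases h2 : φ a = 2
      · rw [if_pos h2, h2]; decide
      · rw [if_neg h2]
        simp only [st8 _ h3 h2]
    · have hn : ℓ + 1 < a := by omega
      unfold posOf nextState
      rw [if_pos h1, if_pos hn, h.rest (ℓ + 1) hn, h4]
      by_cases h2 : φ a = 2
      · rw [if_pos h2]; decide
      · rw [if_neg h2]
  · subst h1
    rw [Function.update_self]
    unfold posOf nextState nextPos
    simp
  · rw [Function.update_of_ne (by omega)]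
    unfold posOf nextState
    rw [if_neg (show ¬ ℓ < a by omega), if_neg (show ¬ ℓ = a by omega),
      if_neg (show ¬ ℓ + 1 < a by omega), if_neg (show ¬ ℓ + 1 = a by omega)]

lemma st9 : ∀ x : Fin 5, x ≤ 3 → (x = 0 ∨ x = 1) ∨ x = 2 ∨ x = 3 := by decide

lemma nextState_small {m a : ℕ} {φ : ℕ → Fin 5} (h : IsState m a φ) (ha : a < m)
    (hx : φ a = 0 ∨ φ a = 1) : IsState m a (nextState a φ) := by
  have h2 : φ a ≠ 2 := by rcases hx with h1 | h1 <;> rw [h1] <;> decide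
  refine ⟨h.le, fun ℓ hℓ => ?_, fun _ => ?_, fun ℓ hℓ => ?_, fun ℓ hℓ => ?_⟩
  · rw [nextState, if_pos hℓ, if_neg h2]; exact h.rest ℓ hℓ
  · rw [nextState, if_neg (lt_irrefl a), if_pos rfl]
    rcases hx with h1 | h1 <;> rw [h1] <;> decide
  · rw [nextState, if_neg (by omega), if_neg (by omega)]; exact h.act ℓ hℓ
  · rw [nextState, if_neg (by omega), if_neg (by omega)]; exact h.top ℓ hℓ

lemma nextState_two {m a : ℕ} {φ : ℕ → Fin 5} (h : IsState m a φ) (ha : a < m)
    (hx : φ a = 2) : IsState m 0 (nextState a φ) := by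
  have key : ∀ ℓ, nextState a φ ℓ = 0 ∨ nextState a φ ℓ = 3 := by
    intro ℓ
    rcases lt_trichotomy ℓ a with h1 | h1 | h1
    · left; rw [nextState, if_pos h1, if_pos hx]
    · right; rw [nextState, if_neg (by omega), if_pos h1, hx]; decide
    · rw [nextState, if_neg (by omega), if_neg (by omega)]; exact h.act ℓ h1
  refine ⟨by omega, fun ℓ hℓ => by omega, fun _ => ?_, fun ℓ _ => key ℓ, fun ℓ hℓ => ?_⟩
  · exact (st2 _ (key 0)).2.2.2.2
  · rw [nextState, if_neg (by omega), if_neg (by omega)]; exact h.top ℓ hℓ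

lemma nextState_three {m a : ℕ} {φ : ℕ → Fin 5} (h : IsState m a φ) (ha : a < m)
    (hx : φ a = 3) : IsState m (a + 1) (nextState a φ) := by
  have h2 : φ a ≠ 2 := by rw [hx]; decide
  refine ⟨by omega, fun ℓ hℓ => ?_, fun _ => ?_, fun ℓ hℓ => ?_, fun ℓ hℓ => ?_⟩
  · rcases Nat.lt_succ_iff_lt_or_eq.1 hℓ with h1 | h1
    · rw [nextState, if_pos h1, if_neg h2]; exact h.rest ℓ h1
    · rw [nextState, if_neg (by omega), if_pos h1, hx]; decide
  · rw [nextState, if_neg (by omega), if_neg (by omega)]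
    exact (st2 _ (h.act (a + 1) (by omega))).2.2.2.2
  · rw [nextState, if_neg (by omega), if_neg (by omega)]; exact h.act ℓ (by omega)
  · rw [nextState, if_neg (by omega), if_neg (by omega)]; exact h.top ℓ hℓ

/-- a sequence of `N` steps of the relation `R` -/
def Chain {α : Type*} (R : α → α → Prop) (N : ℕ) (x y : α) : Prop :=
  ∃ f : ℕ → α, f 0 = x ∧ f N = y ∧ ∀ t < N, R (f t) (f (t + 1))

lemma Chain.refl {α : Type*} {R : α → α → Prop} (x : α) : Chain R 0 x x :=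
  ⟨fun _ => x, rfl, rfl, fun t ht => absurd ht (by omega)⟩

lemma Chain.single {α : Type*} {R : α → α → Prop} {x y : α} (h : R x y) : Chain R 1 x y :=
  ⟨fun t => if t = 0 then x else y, rfl, rfl, fun t ht => by
    obtain rfl : t = 0 := by omega
    simpa using h⟩

lemma Chain.trans {α : Type*} {R : α → α → Prop} {N M : ℕ} {x y z : α} (h : Chain R N x y)
    (h' : Chain R M y z) : Chain R (N + M) x z := by
  obtain ⟨f, f0, fN, hf⟩ := h
  obtain ⟨g, g0, gM, hg⟩ := h'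
  refine ⟨fun t => if t ≤ N then f t else g (t - N), by simpa using f0, ?_, ?_⟩
  · by_cases hM : M = 0
    · subst hM
      simp [fN, ← gM, g0]
    · have : ¬ N + M ≤ N := by omega
      simp [this, gM]
  · intro t ht
    by_cases h1 : t + 1 ≤ N
    · have h2 : t ≤ N := by omega
      simp only [h1, h2, if_true]
      exact hf t (by omega)
    · by_cases h2 : t ≤ N
      · have h3 : t = N := by omega
        subst h3
        have h4 : t + 1 - t = 0 + 1 := by omega
        simp only [h1, h2, if_true, if_false, h4, fN, ← g0]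
        exact hg 0 (by omega)
      · have h4 : t + 1 - N = (t - N) + 1 := by omega
        simp only [h1, h2, if_false, h4]
        exact hg (t - N) (by omega)

/-- The relation between consecutive vertices of the run. -/
def Rel (m : ℕ) (π π' : ℕ → Fin 5) : Prop :=
  ∃ a φ, a < m ∧ IsState m a φ ∧ π = posOf φ ∧ π' = Function.update (posOf φ) a (nextPos φ a)

lemma rel_next {m a : ℕ} {φ : ℕ → Fin 5} (h : IsState m a φ) (ha : a < m) :
    Rel m (posOf φ) (posOf (nextState a φ)) :=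
  ⟨a, φ, ha, h, rfl, posOf_nextState h ha⟩

lemma nextState_self (a : ℕ) (φ : ℕ → Fin 5) : nextState a φ a = φ a + 1 := by
  rw [nextState, if_neg (lt_irrefl a), if_pos rfl]

lemma nextState_gt {a ℓ : ℕ} (φ : ℕ → Fin 5) (h : a < ℓ) : nextState a φ ℓ = φ ℓ := by
  rw [nextState, if_neg (by omega), if_neg (by omega)]

lemma path {m : ℕ} : ∀ d, d ≤ m → ∀ φ, IsState m 0 φ → (∀ ℓ < d, φ ℓ = 0) →
    ∃ φ', IsState m d φ' ∧ (∀ ℓ, d ≤ ℓ → φ' ℓ = φ ℓ) ∧
      Chain (Rel m) (4 * (2 ^ d - 1)) (posOf φ) (posOf φ') := by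
  intro d
  induction d with
  | zero =>
    intro _ φ h _
    exact ⟨φ, h, fun _ _ => rfl, Chain.refl _⟩
  | succ d ih =>
    intro hd φ h h0
    obtain ⟨φ₁, hs₁, he₁, hc₁⟩ := ih (by omega) φ h fun ℓ hℓ => h0 ℓ (by omega)
    have h1 : φ₁ d = 0 := by rw [he₁ d le_rfl, h0 d (by omega)]
    have hr₁ := rel_next hs₁ (by omega)
    have hs₂ := nextState_small hs₁ (by omega) (Or.inl h1)
    set φ₂ := nextState d φ₁ with hφ₂
    have h2 : φ₂ d = 1 := by rw [hφ₂, nextState_self, h1]; decide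
    have hr₂ := rel_next hs₂ (by omega)
    have hs₃ := nextState_small hs₂ (by omega) (Or.inr h2)
    set φ₃ := nextState d φ₂ with hφ₃
    have h3 : φ₃ d = 2 := by rw [hφ₃, nextState_self, h2]; decide
    have hr₃ := rel_next hs₃ (by omega)
    have hs₄ := nextState_two hs₃ (by omega) h3
    set φ₄ := nextState d φ₃ with hφ₄
    have h4 : φ₄ d = 3 := by rw [hφ₄, nextState_self, h3]; decide
    obtain ⟨φ₅, hs₅, he₅, hc₅⟩ := ih (by omega) φ₄ hs₄ fun ℓ hℓ => by
      rw [hφ₄, nextState, if_pos hℓ, if_pos h3]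
    have h5 : φ₅ d = 3 := by rw [he₅ d le_rfl, h4]
    have hr₅ := rel_next hs₅ (by omega)
    have hs₆ := nextState_three hs₅ (by omega) h5
    refine ⟨nextState d φ₅, hs₆, ?_, ?_⟩
    · intro ℓ hℓ
      rw [nextState_gt _ (by omega), he₅ ℓ (by omega), hφ₄, nextState_gt _ (by omega), hφ₃,
        nextState_gt _ (by omega), hφ₂, nextState_gt _ (by omega), he₁ ℓ (by omega)]
    · have hc := ((((hc₁.trans (Chain.single hr₁)).trans (Chain.single hr₂)).trans
        (Chain.single hr₃)).trans hc₅).trans (Chain.single hr₅)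
      have hnum : 4 * (2 ^ d - 1) + 1 + 1 + 1 + 4 * (2 ^ d - 1) + 1 =
          4 * (2 ^ (d + 1) - 1) := by
        have h1 : 1 ≤ 2 ^ d := Nat.one_le_two_pow
        have h2 : 2 ^ (d + 1) = 2 * 2 ^ d := by rw [pow_succ]; ring
        omega
      rw [hnum] at hc
      exact hc

end Pool.Agent.Lib.MP_4d246d_lc.Local
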