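import Mathlib

/-!
# The slot polytope

Each level of the linear program has four coordinates `x, z_1, z_2, z_3` and eight facets, and five
vertices are used, at the positions `0, ..., 4`.  The facets through the vertex at position `J`
are `J, ..., J + 3`.
-/

namespace Pool.Agent.Lib.MP_4d246d_lc.Local

open Finset

/-- coefficients of the own coordinates in the slacks -/
def co : Fin 8 → Fin 4 → ℤ := ![![2, 0, 0, 0], ![1, -1, 0, 0], ![1, 0, -1, 0], ![1, 0, 0, -1],
  ![-1, -1, 0, 0], ![-1, 0, -1, 0], ![-1, 0, 0, -1], ![-2, 0, 0, 0]]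
/-- coefficients of the first coordinate of the previous level -/
def cp : Fin 8 → ℤ := ![-2, -2, -1, 0, 0, -1, -2, -2]
/-- constant term -/
def k1 : Fin 8 → ℤ := ![0, 1, 1, 1, 1, 1, 1, 0]
/-- constant term, coefficient of `g` -/
def kg : Fin 8 → ℤ := ![8, 8, 6, 4, 4, 6, 8, 8]
/-- constant term, coefficient of the bound `X` of the previous level -/
def kX : Fin 8 → ℤ := ![2, 4, 3, 2, 2, 3, 4, 2]

/-- influence of the previous level on the first coordinate -/
def kap : Fin 5 → ℤ := ![1, 1, 0, -1, -1]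

/-- coordinates of the vertices: constant term -/
def pc : Fin 4 → ℤ := ![0, 1, 1, 1]
/-- coordinates of the vertices: coefficient of `g` -/
def pg : Fin 5 → Fin 4 → ℤ := ![![-4, 4, 2, 0], ![-2, 6, 4, 2], ![0, 4, 6, 4], ![2, 2, 4, 6],
  ![4, 0, 2, 4]]
/-- coordinates of the vertices: coefficient of `X` -/
def pX : Fin 5 → Fin 4 → ℤ := ![![-1, 3, 2, 1], ![-1, 3, 2, 1], ![0, 2, 3, 2], ![1, 1, 2, 3],
  ![1, 1, 2, 3]]
/-- coordinates of the vertices: coefficient of the first coordinate of the previous level -/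
def pp : Fin 5 → Fin 4 → ℤ := ![![1, -1, 0, 1], ![1, -1, 0, 1], ![0, 0, -1, 0], ![-1, 1, 0, -1],
  ![-1, 1, 0, -1]]

/-- slacks at the vertices: coefficient of `g` -/
def MG : Fin 5 → Fin 8 → ℤ := ![![0, 0, 0, 0, 4, 8, 12, 16], ![4, 0, 0, 0, 0, 4, 8, 12],
  ![8, 4, 0, 0, 0, 0, 4, 8], ![12, 8, 4, 0, 0, 0, 0, 4], ![16, 12, 8, 4, 0, 0, 0, 0]]
/-- slacks at the vertices: coefficient of `X - x'` -/
def ME : Fin 5 → Fin 8 → ℤ := ![![0, 0, 0, 0, 0, 2, 4, 4], ![0, 0, 0, 0, 0, 2, 4, 4],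
  ![2, 2, 0, 0, 0, 0, 2, 2], ![4, 4, 2, 0, 0, 0, 0, 0], ![4, 4, 2, 0, 0, 0, 0, 0]]

/-- twice the coefficients of the objective function in terms of the slacks -/
def QN : Fin 5 → Fin 8 → ℤ := ![![1, 0, 0, 0, 0, 0, 0, 0], ![0, 1, 0, 0, -1, 0, 0, 0],
  ![0, 0, 1, 0, 0, -1, 0, 0], ![0, 0, 0, 1, 0, 0, -1, 0], ![0, 0, 0, 0, 0, 0, 0, -1]]

/-- the facets through a vertex -/
def tight (J : Fin 5) (f : Fin 8) : Prop := (J : ℕ) ≤ f ∧ (f : ℕ) ≤ J + 3

instance (J : Fin 5) (f : Fin 8) : Decidable (tight J f) := by unfold tight; infer_instance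

lemma tbl1 : ∀ f, k1 f + (co f 0 * pc 0 + co f 1 * pc 1 + co f 2 * pc 2 + co f 3 * pc 3) = 0 := by
  decide
lemma tbl2 : ∀ J f, kg f + (co f 0 * pg J 0 + co f 1 * pg J 1 + co f 2 * pg J 2 +
    co f 3 * pg J 3) = MG J f := by decide
lemma tbl3 : ∀ J f, kX f + (co f 0 * pX J 0 + co f 1 * pX J 1 + co f 2 * pX J 2 +
    co f 3 * pX J 3) = ME J f := by decide
lemma tbl4 : ∀ J f, cp f + (co f 0 * pp J 0 + co f 1 * pp J 1 + co f 2 * pp J 2 +
    co f 3 * pp J 3) = - ME J f := by decide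
lemma MG_nonneg : ∀ J f, 0 ≤ MG J f := by decide
lemma ME_nonneg : ∀ J f, 0 ≤ ME J f := by decide
lemma MG_tight : ∀ J f, tight J f → MG J f = 0 ∧ ME J f = 0 := by decide
lemma MG_pos : ∀ J f, ¬ tight J f → 0 < MG J f := by decide
lemma MG_le : ∀ J f, MG J f ≤ 16 ∧ ME J f ≤ 4 := by decide
lemma pg_abs : ∀ J i, -4 ≤ pg J i ∧ pg J i ≤ 6 := by decide
lemma pp0 : ∀ J, pp J 0 = kap J := by decide
lemma pX0 : ∀ J, pX J 0 = - kap J := by decide
lemma pg0 : ∀ J, -4 ≤ pg J 0 ∧ pg J 0 ≤ 4 := by decide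
lemma kap_cases : ∀ J, kap J = 1 ∨ kap J = 0 ∨ kap J = -1 := by decide
lemma pc_le : ∀ i, 0 ≤ pc i ∧ pc i ≤ 1 := by decide
lemma coord_pos : ∀ J i, i ≠ 0 → pc i = 1 ∧ 0 ≤ pg J i ∧ 0 ≤ pX J i + pp J i ∧
    0 ≤ pX J i - pp J i ∧ pX J i + pp J i ≤ 2 ∧ pX J i - pp J i ≤ 4 := by decide
lemma QN_zero : ∀ J f, ¬ tight J f → QN J f = 0 := by decide

/-- slack of facet `f` -/
noncomputable def slackR (f : Fin 8) (g X : ℝ) (V : Fin 4 → ℝ) (x' : ℝ) : ℝ :=
  k1 f + kg f * g + kX f * X + ∑ i, (co f i : ℝ) * V i + cp f * x'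

/-- coordinates of the vertex at position `J` -/
noncomputable def posR (J : Fin 5) (i : Fin 4) (g X x' : ℝ) : ℝ :=
  pc i + pg J i * g + pX J i * X + pp J i * x'

lemma slackR_posR (J : Fin 5) (f : Fin 8) (g X x' : ℝ) :
    slackR f g X (fun i => posR J i g X x') x' = MG J f * g + ME J f * (X - x') := by
  have h1 : (k1 f : ℝ) + (co f 0 * pc 0 + co f 1 * pc 1 + co f 2 * pc 2 + co f 3 * pc 3) = 0 := by
    exact_mod_cast tbl1 f
  have h2 : (kg f : ℝ) + (co f 0 * pg J 0 + co f 1 * pg J 1 + co f 2 * pg J 2 +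
    co f 3 * pg J 3) = MG J f := by exact_mod_cast tbl2 J f
  have h3 : (kX f : ℝ) + (co f 0 * pX J 0 + co f 1 * pX J 1 + co f 2 * pX J 2 +
    co f 3 * pX J 3) = ME J f := by exact_mod_cast tbl3 J f
  have h4 : (cp f : ℝ) + (co f 0 * pp J 0 + co f 1 * pp J 1 + co f 2 * pp J 2 +
    co f 3 * pp J 3) = - ME J f := by exact_mod_cast tbl4 J f
  simp only [slackR, posR, Fin.sum_univ_four]
  linear_combination h1 + g * h2 + X * h3 + x' * h4

/-- the tight facets determine the vertex -/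
lemma solve4 (J : Fin 5) (g X : ℝ) (V : Fin 4 → ℝ) (x' : ℝ)
    (h : ∀ f, tight J f → slackR f g X V x' = 0) (i : Fin 4) : V i = posR J i g X x' := by
  fin_cases J
  · have h0 := h 0 (by decide)
    have h1 := h 1 (by decide)
    have h2 := h 2 (by decide)
    have h3 := h 3 (by decide)
    simp [slackR, Fin.sum_univ_four, k1, kg, kX, co, cp] at h0 h1 h2 h3
    fin_cases i <;> simp [posR, pc, pg, pX, pp] <;> linarith
  · have h0 := h 1 (by decide)
    have h1 := h 2 (by decide)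
    have h2 := h 3 (by decide)
    have h3 := h 4 (by decide)
    simp [slackR, Fin.sum_univ_four, k1, kg, kX, co, cp] at h0 h1 h2 h3
    fin_cases i <;> simp [posR, pc, pg, pX, pp] <;> linarith
  · have h0 := h 2 (by decide)
    have h1 := h 3 (by decide)
    have h2 := h 4 (by decide)
    have h3 := h 5 (by decide)
    simp [slackR, Fin.sum_univ_four, k1, kg, kX, co, cp] at h0 h1 h2 h3
    fin_cases i <;> simp [posR, pc, pg, pX, pp] <;> linarith
  · have h0 := h 3 (by decide)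
    have h1 := h 4 (by decide)
    have h2 := h 5 (by decide)
    have h3 := h 6 (by decide)
    simp [slackR, Fin.sum_univ_four, k1, kg, kX, co, cp] at h0 h1 h2 h3
    fin_cases i <;> simp [posR, pc, pg, pX, pp] <;> linarith
  · have h0 := h 4 (by decide)
    have h1 := h 5 (by decide)
    have h2 := h 6 (by decide)
    have h3 := h 7 (by decide)
    simp [slackR, Fin.sum_univ_four, k1, kg, kX, co, cp] at h0 h1 h2 h3
    fin_cases i <;> simp [posR, pc, pg, pX, pp] <;> linarith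

lemma adj_cases : ∀ J J' : Fin 5, (J : ℕ) + 1 = J' →
    (J = 0 ∧ J' = 1) ∨ (J = 1 ∧ J' = 2) ∨ (J = 2 ∧ J' = 3) ∨ (J = 3 ∧ J' = 4) := by
  decide

/-- the common tight facets of two adjacent vertices determine a line -/
lemma solve3 (J J' : Fin 5) (hJ : (J : ℕ) + 1 = J') (g X t : ℝ) (V : Fin 4 → ℝ) (x' : ℝ)
    (h : ∀ f, tight J f → tight J' f → slackR f g X V x' = 0)
    (h0 : V 0 = (1 - t) * posR J 0 g X x' + t * posR J' 0 g X x') (i : Fin 4) :
    V i = (1 - t) * posR J i g X x' + t * posR J' i g X x' := by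
  rcases adj_cases J J' hJ with ⟨rfl, rfl⟩ | ⟨rfl, rfl⟩ | ⟨rfl, rfl⟩ | ⟨rfl, rfl⟩
  · have h1 := h 1 (by decide) (by decide)
    have h2 := h 2 (by decide) (by decide)
    have h3 := h 3 (by decide) (by decide)
    simp [slackR, Fin.sum_univ_four, k1, kg, kX, co, cp] at h1 h2 h3
    simp [posR, pc, pg, pX, pp] at h0
    fin_cases i <;> simp [posR, pc, pg, pX, pp] <;> linarith
  · have h1 := h 2 (by decide) (by decide)
    have h2 := h 3 (by decide) (by decide)
    have h3 := h 4 (by decide) (by decide)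
    simp [slackR, Fin.sum_univ_four, k1, kg, kX, co, cp] at h1 h2 h3
    simp [posR, pc, pg, pX, pp] at h0
    fin_cases i <;> simp [posR, pc, pg, pX, pp] <;> linarith
  · have h1 := h 3 (by decide) (by decide)
    have h2 := h 4 (by decide) (by decide)
    have h3 := h 5 (by decide) (by decide)
    simp [slackR, Fin.sum_univ_four, k1, kg, kX, co, cp] at h1 h2 h3
    simp [posR, pc, pg, pX, pp] at h0
    fin_cases i <;> simp [posR, pc, pg, pX, pp] <;> linarith
  · have h1 := h 4 (by decide) (by decide)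
    have h2 := h 5 (by decide) (by decide)
    have h3 := h 6 (by decide) (by decide)
    simp [slackR, Fin.sum_univ_four, k1, kg, kX, co, cp] at h1 h2 h3
    simp [posR, pc, pg, pX, pp] at h0
    fin_cases i <;> simp [posR, pc, pg, pX, pp] <;> linarith

/-- the objective function in terms of the slacks -/
lemma QN_identity (J : Fin 5) (g X : ℝ) (V : Fin 4 → ℝ) (x' : ℝ) :
    ∑ f, (QN J f : ℝ) * slackR f g X V x' = 2 * (V 0 - posR J 0 g X x') := by
  fin_cases J <;> simp [Fin.sum_univ_eight, QN, slackR, Fin.sum_univ_four, k1, kg, kX, co, cp,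
    posR, pc, pg, pX, pp] <;> ring

end Pool.Agent.Lib.MP_4d246d_lc.Local
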