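import Pool.Agent.Lib.MP_4d246d_lc.Local.Uniform

/-!
# Different weights: no ties
-/

namespace Pool.Agent.Lib.MP_4d246d_lc.Local

open Finset

/-- different weights -/
def W2 : Wt where
  g p := p + 1
  u p := p + 1
  q p := 4 * (p + 1)
  g_pos p := by linarith [Int.natCast_nonneg p]
  u_pos p := by linarith [Int.natCast_nonneg p]
  q_nonneg p := by linarith [Int.natCast_nonneg p]
  g_le p := le_rfl
  u_le p := le_rfl
  q_le p := le_rfl

lemma slope_inj {a b c d : ℝ} (ha : 0 < a) (hb : 0 < b) (hc : 0 < c) (hd : 0 < d)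
    (h : 2 * a / √(a ^ 2 * (c + d * a ^ 2)) = 2 * b / √(b ^ 2 * (c + d * b ^ 2))) : a = b := by
  have key : ∀ x : ℝ, 0 < x → 2 * x / √(x ^ 2 * (c + d * x ^ 2)) = 2 / √(c + d * x ^ 2) := by
    intro x hx
    have h1 : 0 < c + d * x ^ 2 := by positivity
    have h2 : 0 < √(c + d * x ^ 2) := Real.sqrt_pos.2 h1
    rw [Real.sqrt_mul (sq_nonneg x), Real.sqrt_sq hx.le]
    field_simp
  rw [key a ha, key b hb] at h
  have h1 : 0 < c + d * a ^ 2 := by positivity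
  have h2 : 0 < c + d * b ^ 2 := by positivity
  have h3 : 0 < √(c + d * a ^ 2) := Real.sqrt_pos.2 h1
  have h4 : 0 < √(c + d * b ^ 2) := Real.sqrt_pos.2 h2
  have h5 : √(c + d * a ^ 2) = √(c + d * b ^ 2) := by
    field_simp at h
    linarith
  have h6 : c + d * a ^ 2 = c + d * b ^ 2 := by
    rw [← Real.sq_sqrt h1.le, ← Real.sq_sqrt h2.le, h5]
  have h7 : d * (a ^ 2 - b ^ 2) = 0 := by linarith
  have h8 : a ^ 2 - b ^ 2 = 0 := (mul_eq_zero.1 h7).resolve_left hd.ne'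
  have h9 : (a - b) * (a + b) = 0 := by linarith [h8]
  rcases mul_eq_zero.1 h9 with h10 | h10
  · linarith
  · linarith

lemma ms_sq_ddat {m : ℕ} (hm : 0 < m) (p : ℕ) : ms (fun a => a ^ 2) (ddat W2 m p) =
    ((p : ℝ) + 1) ^ 2 * ((8 + 24 * m) + 384 * ((p : ℝ) + 1) ^ 2) := by
  have h1 : ((m - 1 : ℕ) : ℝ) = m - 1 := by
    rw [Nat.cast_sub hm]; simp
  rw [ddat]
  simp only [map_add, map_nsmul, ms_sym, nsmul_eq_mul, W2]
  push_cast [h1]
  ring

lemma ms_sq_sdat {m : ℕ} (R : ℕ) (p : Fin m) : ms (fun a => a ^ 2) (sdat W2 m R p) =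
    ((p : ℝ) + 1) ^ 2 * (288 * ∑ p' : Fin m, ((p' : ℝ) + 1) ^ 2 - 128 * ((p : ℝ) + 1) ^ 2) := by
  rw [← Finset.add_sum_erase Finset.univ (fun p' : Fin m => ((p' : ℝ) + 1) ^ 2)
    (Finset.mem_univ p)]
  rw [sdat]
  simp only [map_add, map_nsmul, map_sum, ms_sym, ms_replicate, nsmul_eq_mul, W2]
  rw [Finset.sum_congr rfl (g := fun p' : Fin m =>
    288 * ((p : ℝ) + 1) ^ 2 * ((p' : ℝ) + 1) ^ 2) fun p' _ => by push_cast; ring,
    ← Finset.mul_sum]
  push_cast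
  ring

section

variable {m a : ℕ} {σ : Equiv.Perm (Fin m)} {φ : ℕ → Fin 5} {R : ℕ}

/-- the local data after permuting the constraints -/
lemma perm_data (W : Wt) (h : IsState m a φ) (ρ : Equiv.Perm (Fin (kk m R)))
    {q : Fin (nn m) ⊕ Fin (kk m R) → ℝ} {nb : Fin (nn m) ⊕ Fin (kk m R) → Fin (nn m) → ℝ}
    (hv : ((full W σ R).permRows ρ).IsLocalView (fvert W σ (posOf φ)) q nb)
    {v : Fin (nn m) ⊕ Fin (kk m R)} (hq : 0 < q v) :
    ∃ p, v = pvar (nn m) ρ (frow m R p (fac φ (σ p))) ∧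
      ((full W σ R).permRows ρ).datum (fvert W σ (posOf φ)) q nb v = dat W m R p := by
  have hview := view_state (W := W) (σ := σ) h R
  have hview' := permRows_isLocalView (full W σ R) ρ hview
  obtain ⟨hqq, -⟩ := hview'.unique hv
  have hpos : 0 < fq W σ R (posOf φ) ((pvar (nn m) ρ).symm v) := by
    have := hq
    rw [hqq] at this
    exact this
  obtain ⟨p, f, hpf⟩ := fq_pos W σ R _ _ hpos
  rw [hpf, fq_pos_iff h] at hpos
  obtain ⟨ha, rfl⟩ := hpos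
  have hv' : v = pvar (nn m) ρ (frow m R p (fac φ (σ p))) := by
    rw [← hpf, Equiv.apply_symm_apply]
  refine ⟨p, hv', ?_⟩
  have hpos' : 0 < (fq W σ R (posOf φ) ∘ (pvar (nn m) ρ).symm) v := by
    rw [← hqq]; exact hq
  rw [hview'.datum_eq hv hpos', hv', permRows_datum]
  simp only [Function.comp_assoc]
  have e1 : ((pvar (nn m) ρ).symm : _ → _) ∘ (pvar (nn m) ρ) = id := by
    funext x; simp
  rw [e1]
  exact datum_state h R ha

lemma noTies (hm : 0 < m) (h : IsState m a φ) (ρ : Equiv.Perm (Fin (kk m R))) :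
    NoTies ((full W2 σ R).permRows ρ) (fvert W2 σ (posOf φ)) := by
  intro q nb hv v w hqv hqw hvw
  obtain ⟨p, hp, hdp⟩ := perm_data W2 h ρ hv hqv
  obtain ⟨p', hp', hdp'⟩ := perm_data W2 h ρ hv hqw
  have hne : p ≠ p' := by
    rintro rfl
    exact hvw (hp.trans hp'.symm)
  set P := (full W2 σ R).permRows ρ with hP
  set x := fvert W2 σ (posOf φ) with hx
  have hne' : ((p : ℕ) : ℝ) + 1 ≠ ((p' : ℕ) : ℝ) + 1 := by
    intro hh
    have h1 : ((p : ℕ) : ℝ) = ((p' : ℕ) : ℝ) := by linarith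
    exact hne (Fin.ext (by exact_mod_cast h1))
  have hpp : (0 : ℝ) < ((p : ℕ) : ℝ) + 1 := by positivity
  have hpp' : (0 : ℝ) < ((p' : ℕ) : ℝ) + 1 := by positivity
  -- the four scores in terms of the local datum
  have key : ∀ (v : Fin (nn m) ⊕ Fin (kk m R)) (p : Fin m),
      P.datum x q nb v = dat W2 m R p → q v = 1 / (2 * ((p : ℝ) + 1)) ∧
      P.obj (nb v) - P.obj x = 2 * ((p : ℝ) + 1) ∧
      ∑ j, (nb v j - x j) ^ 2 =
        ((p : ℝ) + 1) ^ 2 * ((8 + 24 * m) + 384 * ((p : ℝ) + 1) ^ 2) ∧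
      ∑ u, (P.val (nb v) u - P.val x u) ^ 2 =
        ((p : ℝ) + 1) ^ 2 * ((8 + 24 * m + 288 * ∑ p' : Fin m, ((p' : ℝ) + 1) ^ 2) +
          256 * ((p : ℝ) + 1) ^ 2) := by
    intro v p hd
    rw [LP.datum, dat, Prod.mk.injEq, Prod.mk.injEq, Prod.mk.injEq] at hd
    obtain ⟨d1, d2, d3, d4⟩ := hd
    have e3 : ∑ j, (nb v j - x j) ^ 2 = ms (fun a => a ^ 2) (ddat W2 m p) := by
      rw [← d3, ms_univ]
    have e4 : ∑ i, (P.val (nb v) (Sum.inr i) - P.val x (Sum.inr i)) ^ 2 =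
        ms (fun a => a ^ 2) (sdat W2 m R p) := by
      rw [← d4, ms_univ]
    refine ⟨?_, ?_, ?_, ?_⟩
    · rw [d1]; simp [W2]
    · rw [d2]; simp [W2]
    · rw [e3, ms_sq_ddat hm]
    · rw [Fintype.sum_sum_type, e4, ms_sq_sdat]
      have e5 : ∑ j, (P.val (nb v) (Sum.inl j) - P.val x (Sum.inl j)) ^ 2 =
          ((p : ℝ) + 1) ^ 2 * ((8 + 24 * m) + 384 * ((p : ℝ) + 1) ^ 2) := by
        rw [← ms_sq_ddat hm, ← e3]
        rfl
      rw [e5]
      ring
  obtain ⟨k1, k2, k3, k4⟩ := key v p hdp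
  obtain ⟨l1, l2, l3, l4⟩ := key w p' hdp'
  have hm' : (0 : ℝ) ≤ m := by positivity
  have hS : (0 : ℝ) ≤ ∑ p' : Fin m, ((p' : ℝ) + 1) ^ 2 :=
    Finset.sum_nonneg fun _ _ => by positivity
  refine ⟨?_, ?_, ?_, ?_⟩
  · rw [k1, l1]
    intro hh
    apply hne'
    field_simp at hh
    linarith
  · rw [k2, l2]
    intro hh
    apply hne'
    linarith
  · rw [k2, l2, k3, l3]
    intro hh
    exact hne' (slope_inj hpp hpp' (by positivity) (by norm_num) hh)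
  · rw [k2, l2, k4, l4]
    intro hh
    exact hne' (slope_inj hpp hpp' (by positivity) (by norm_num) hh)

end

end Pool.Agent.Lib.MP_4d246d_lc.Local
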