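import Pool.Agent.Lib.MP_4d246d_lc.Local.Size

/-!
# Equal weights: the unordered linear program does not depend on the order of the levels
-/

namespace Pool.Agent.Lib.MP_4d246d_lc.Local

open Finset

/-- all weights are equal to one -/
def W1 : Wt where
  g _ := 1
  u _ := 1
  q _ := 1
  g_pos _ := le_rfl
  u_pos _ := le_rfl
  q_nonneg _ := by norm_num
  g_le p := by linarith [Int.natCast_nonneg p]
  u_le p := by linarith [Int.natCast_nonneg p]
  q_le p := by linarith [Int.natCast_nonneg p]

/-- multisets with the same sums are equal -/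
lemma multiset_ext {α : Type*} {M N : Multiset α}
    (h : ∀ F : α → ℕ, (M.map F).sum = (N.map F).sum) : M = N := by
  classical
  refine Multiset.ext.2 fun a => ?_
  have key : ∀ M : Multiset α, (M.map fun b => if b = a then 1 else 0).sum = M.count a := by
    intro M
    induction M using Multiset.induction_on with
    | empty => simp
    | cons b M ih =>
      rw [Multiset.map_cons, Multiset.sum_cons, ih, Multiset.count_cons, add_comm]
      congr 1
      simp [eq_comm]
  rw [← key, ← key]
  exact h _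

section

variable {m : ℕ} (σ : Equiv.Perm (Fin m))

lemma XS_W1 (ℓ : ℕ) : XS W1 σ ℓ = XS W1 (1 : Equiv.Perm (Fin m)) ℓ := by
  induction ℓ with
  | zero => rfl
  | succ ℓ ih => simp only [XS, ih]; rfl

lemma Hc_W1 : Hc W1 σ = Hc W1 (1 : Equiv.Perm (Fin m)) := by
  simp only [Hc, XS_W1 σ]

lemma coreA_W1 (p : Fin m) (f : Fin 8) :
    (core W1 σ).A (row p f) = (core W1 (1 : Equiv.Perm (Fin m))).A (row (σ p) f) := by
  funext j
  simp only [core, row, Equiv.symm_apply_apply]
  rfl

lemma coreb_W1 (p : Fin m) (f : Fin 8) :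
    (core W1 σ).b (row p f) = (core W1 (1 : Equiv.Perm (Fin m))).b (row (σ p) f) := by
  simp only [core, row, Equiv.symm_apply_apply, entB, XS_W1 σ]
  rfl

lemma fF_W1 : fF W1 σ = fF W1 (1 : Equiv.Perm (Fin m)) := by
  funext x
  rcases x with x | x
  · rfl
  · simp only [fF, Sum.elim_inr, amp1]
    rfl

lemma cF_W1 : cF W1 σ = cF W1 (1 : Equiv.Perm (Fin m)) := by
  funext x
  simp only [cF, Hc_W1 σ]

lemma vx_W1 (π : ℕ → Fin 5) (ℓ : ℕ) :
    vx W1 σ π ℓ = vx W1 (1 : Equiv.Perm (Fin m)) π ℓ := by
  induction ℓ with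
  | zero => rfl
  | succ ℓ ih => simp only [vx, ih, XS_W1 σ]; rfl

lemma prev_vx_W1 (π : ℕ → Fin 5) (ℓ : ℕ) :
    prev (vx W1 σ π) ℓ = prev (vx W1 (1 : Equiv.Perm (Fin m)) π) ℓ := by
  cases ℓ
  · rfl
  · exact vx_W1 σ π _

lemma fvert_W1 (π : ℕ → Fin 5) : fvert W1 σ π = fvert W1 (1 : Equiv.Perm (Fin m)) π := by
  have h1 : vert W1 σ π = vert W1 (1 : Equiv.Perm (Fin m)) π := by
    funext j
    simp only [vert, pt, vV, XS_W1 σ, prev_vx_W1 σ]
    rfl
  rw [fvert, fvert, fF_W1, cF_W1, h1]

lemma constraints_W1 (R : ℕ) :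
    (full W1 σ R).constraints = (full W1 (1 : Equiv.Perm (Fin m)) R).constraints := by
  refine multiset_ext fun F => ?_
  have h0 : ∀ P : LP (nn m) (kk m R), (P.constraints.map F).sum = ∑ i, F (P.A i, P.b i) := by
    intro P
    rw [LP.constraints, Multiset.map_map]
    rfl
  rw [h0, h0, sum_con, sum_con]
  congr 1
  · -- the original constraints
    have h1 : ∀ (τ : Equiv.Perm (Fin m)) (j : Fin (m * 8)),
        F ((full W1 τ R).A (Fin.castAdd _ j), (full W1 τ R).b (Fin.castAdd _ j)) =
        F (Fin.append ((core W1 τ).A j) 0, (core W1 τ).b j) := by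
      intro τ j
      simp only [full, pad, Fin.append_left]
    simp only [h1]
    rw [sum_rows, sum_rows]
    rw [← Equiv.sum_comp σ fun p => ∑ f, F (Fin.append
      ((core W1 (1 : Equiv.Perm (Fin m))).A (row p f)) 0,
        (core W1 (1 : Equiv.Perm (Fin m))).b (row p f))]
    refine Finset.sum_congr rfl fun p _ => Finset.sum_congr rfl fun f _ => ?_
    rw [coreA_W1, coreb_W1]
  · congr 1
    · refine Finset.sum_congr rfl fun i _ => ?_
      simp only [full, pad, rIdx, Fin.append_right, Fin.append_left, Equiv.symm_apply_apply]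
      rw [fF_W1, cF_W1]
    · have h1 : ∀ (τ : Equiv.Perm (Fin m)) (j : KT m R),
          F ((full W1 τ R).A (sIdx _ (IT m) j), (full W1 τ R).b (sIdx _ (IT m) j)) =
          F (Fin.append (gF W1 τ R j) 0, hF W1 τ R j) := by
        intro τ j
        simp only [full, pad, sIdx, Fin.append_right, Equiv.symm_apply_apply]
      simp only [h1]
      have hsplit : ∀ G : KT m R → ℕ, ∑ x, G x = ∑ j, G (Sum.inl j) + ∑ y, G (Sum.inr y) :=
        fun G => Fintype.sum_sum_type G
      rw [hsplit, hsplit]
      congr 1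
      · rw [sum_rows, sum_rows]
        rw [← Equiv.sum_comp σ fun p => ∑ f, F (Fin.append
          (gF W1 (1 : Equiv.Perm (Fin m)) R (Sum.inl (row p f))) 0,
            hF W1 (1 : Equiv.Perm (Fin m)) R (Sum.inl (row p f)))]
        refine Finset.sum_congr rfl fun p _ => Finset.sum_congr rfl fun f _ => ?_
        simp only [gF, hF, Sum.elim_inl]
        rw [coreA_W1, coreb_W1, Hc_W1]
      · refine Finset.sum_congr rfl fun x _ => ?_
        rcases x with x | x
        · simp only [gF, hF, Sum.elim_inl, Sum.elim_inr, amp2, Hc_W1 σ]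
          rfl
        · simp only [gF, hF, Sum.elim_inr]

end

end Pool.Agent.Lib.MP_4d246d_lc.Local
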